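import Mathlib

/-!
# A supermodular extremal problem
-/

set_option autoImplicit false

namespace Run7.h849

open Finset

section comb
variable {ι : Type} [DecidableEq ι]

/-- no element of `F` is a bridge of `F` -/
def Bl (ν : Finset ι → ℕ) (F : Finset ι) : Prop := ∀ e ∈ F, ν F = ν (F.erase e) + 2

/-- the properties of the function `ν` -/
structure Spm (ν : Finset ι → ℕ) (E Q : Finset ι) : Prop where
  sub : Q ⊆ E
  p1 : ∀ A ⊆ E, ∀ e ∈ E, e ∉ A → ν (insert e A) = ν A ∨ ν (insert e A) = ν A + 2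
  p2 : ∀ A B, A ⊆ B → B ⊆ Q → ∀ e ∈ Q, e ∉ B → ν (insert e A) = ν A + 2 →
    ν (insert e B) = ν B + 2
  p3 : ∀ A ⊆ E, ∀ e ∈ Q, e ∉ A → ν (insert e (A ∩ Q)) = ν (A ∩ Q) → ν (insert e A) = ν A

variable {ν : Finset ι → ℕ} {E Q : Finset ι}

theorem Spm.mono (h : Spm ν E Q) {A B : Finset ι} (hAB : A ⊆ B) (hB : B ⊆ E) : ν A ≤ ν B := by
  have key : ∀ D : Finset ι, D ⊆ E → ν A ≤ ν (A ∪ D) := by
    intro D
    induction D using Finset.induction_on with
    | empty => intro _; simp
    | insert e D he ih =>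
      intro hD
      have h1 := ih fun x hx => hD (mem_insert_of_mem hx)
      rw [union_insert]
      by_cases h2 : e ∈ A ∪ D
      · rw [insert_eq_of_mem h2]
        exact h1
      · have := h.p1 (A ∪ D) (union_subset (hAB.trans hB) fun x hx => hD (mem_insert_of_mem hx))
          e (hD (mem_insert_self _ _)) h2
        omega
  have := key B hB
  rwa [union_eq_right.2 hAB] at this

theorem Spm.add (h : Spm ν E Q) (D : Finset ι) : ∀ S T : Finset ι, S ⊆ T → T ⊆ Q → D ⊆ Q →
    Disjoint D T → ν (S ∪ D) + ν T ≤ ν (T ∪ D) + ν S := by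
  induction D using Finset.induction_on with
  | empty =>
    intro S T _ _ _ _
    simp [add_comm]
  | insert e D he ih =>
    intro S T hST hT hD hd
    have hD' : D ⊆ Q := fun x hx => hD (mem_insert_of_mem hx)
    rw [disjoint_insert_left] at hd
    have h1 := ih S T hST hT hD' hd.2
    rw [union_insert, union_insert]
    have heT : e ∉ T ∪ D := by
      rw [mem_union]
      tauto
    have heS : e ∉ S ∪ D := fun h => heT (union_subset_union hST (Subset.refl _) h)
    have heQ : e ∈ Q := hD (mem_insert_self _ _)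
    have a1 := h.p1 (S ∪ D) ((union_subset (hST.trans hT) hD').trans h.sub) e (h.sub heQ) heS
    have a2 := h.p1 (T ∪ D) ((union_subset hT hD').trans h.sub) e (h.sub heQ) heT
    have a3 := h.p2 (S ∪ D) (T ∪ D) (union_subset_union hST (Subset.refl _))
      (union_subset hT hD') e heQ heT
    omega

theorem Spm.super (h : Spm ν E Q) {A B : Finset ι} (hA : A ⊆ Q) (hB : B ⊆ Q) :
    ν A + ν B ≤ ν (A ∪ B) + ν (A ∩ B) := by
  have := h.add (B \ A) (A ∩ B) A inter_subset_left hA (sdiff_subset.trans hB) sdiff_disjoint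
  have e1 : A ∩ B ∪ B \ A = B := by
    ext x
    simp only [mem_union, mem_inter, mem_sdiff]
    tauto
  have e2 : A ∪ B \ A = A ∪ B := union_sdiff_self_eq_union
  rw [e1, e2] at this
  omega

/-- elements of a bridgeless subset are not bridges -/
theorem Spm.nb (h : Spm ν E Q) {A B : Finset ι} (hAB : A ⊆ B) (hB : B ⊆ Q) (hA : Bl ν A) {e : ι}
    (he : e ∈ A) : ν B = ν (B.erase e) + 2 := by
  have h1 := hA e he
  have h2 := h.p2 (A.erase e) (B.erase e) (erase_subset_erase _ hAB)
    ((erase_subset _ _).trans hB) e (hB (hAB he)) (notMem_erase _ _)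
  rw [insert_erase he, insert_erase (hAB he)] at h2
  exact h2 h1

theorem Spm.union (h : Spm ν E Q) {A B : Finset ι} (hA : A ⊆ Q) (hB : B ⊆ Q) (h1 : Bl ν A)
    (h2 : Bl ν B) : Bl ν (A ∪ B) := by
  intro e he
  rcases mem_union.1 he with he | he
  · exact h.nb subset_union_left (union_subset hA hB) h1 he
  · exact h.nb subset_union_right (union_subset hA hB) h2 he

/-- the bridgeless part of a set -/
theorem Spm.core (h : Spm ν E Q) (n : ℕ) : ∀ A : Finset ι, A.card = n → A ⊆ Q → ∃ C ⊆ A,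
    Bl ν C ∧ ν C = ν A ∧ ∀ e ∈ A, e ∉ C → ν (A.erase e) = ν A := by
  induction n with
  | zero =>
    intro A hA _
    rw [card_eq_zero] at hA
    subst hA
    exact ⟨∅, Subset.refl _, fun e he => absurd he (notMem_empty _), rfl,
      fun e he => absurd he (notMem_empty _)⟩
  | succ n ih =>
    intro A hA hQ
    by_cases hb : Bl ν A
    · exact ⟨A, Subset.refl _, hb, rfl, fun e he he' => absurd he he'⟩
    · simp only [Bl, not_forall] at hb
      obtain ⟨b, hbA, hb⟩ := hb
      have e1 : ν A = ν (A.erase b) := by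
        have := h.p1 (A.erase b) (((erase_subset _ _).trans hQ).trans h.sub) b
          (h.sub (hQ hbA)) (notMem_erase _ _)
        rw [insert_erase hbA] at this
        omega
      obtain ⟨C, h1, h2, h3, h4⟩ := ih (A.erase b) (by rw [card_erase_of_mem hbA]; omega)
        ((erase_subset _ _).trans hQ)
      refine ⟨C, h1.trans (erase_subset _ _), h2, by rw [h3, e1], fun e he heC => ?_⟩
      by_cases hbe : e = b
      · subst hbe
        exact e1.symm
      · have h5 := h4 e (mem_erase.2 ⟨hbe, he⟩) heC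
        have h6 : ν ((A.erase b).erase e) ≤ ν (A.erase e) := by
          refine h.mono ?_ (((erase_subset _ _).trans hQ).trans h.sub)
          rw [erase_right_comm]
          exact erase_subset _ _
        have h7 : ν (A.erase e) ≤ ν A := h.mono (erase_subset _ _) (hQ.trans h.sub)
        omega

/-- the value of a set: first the level, then the second component -/
def Dw (ν : Finset ι → ℕ) (dv du : ι → ℤ) (F : Finset ι) : ℤ ×ₗ ℤ :=
  toLex ((ν F : ℤ) + ∑ e ∈ F, dv e, ∑ e ∈ F, du e)

theorem Dw_lt {ν : Finset ι → ℕ} {dv du : ι → ℤ} {F G : Finset ι} :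
    Dw ν dv du F < Dw ν dv du G ↔ (ν F : ℤ) + ∑ e ∈ F, dv e < ν G + ∑ e ∈ G, dv e ∨
      ((ν F : ℤ) + ∑ e ∈ F, dv e = ν G + ∑ e ∈ G, dv e ∧ ∑ e ∈ F, du e < ∑ e ∈ G, du e) := by
  rw [Dw, Dw, Prod.Lex.toLex_lt_toLex]

/-- the best set -/
theorem Spm.best (h : Spm ν E Q) {dv du : ι → ℤ} (hW : ∀ e ∈ E, e ∉ Q → dv e ≤ -2 ∧ du e < 0)
    (hQ : ∀ e ∈ Q, 0 < du e)
    (hI : ∀ e ∈ Q, 0 < dv e → ν (Q.filter (fun e => 0 ≤ dv e)) =
      ν ((Q.filter (fun e => 0 ≤ dv e)).erase e) + 2) :
    ∃ F0 ⊆ Q, Bl ν F0 ∧ (∀ F ⊆ E, F ≠ F0 → Bl ν (F ∩ Q) → Dw ν dv du F < Dw ν dv du F0) ∧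
      (ν (Q.filter (fun e => 0 ≤ dv e)) : ℤ) + ∑ e ∈ Q.filter (fun e => 0 ≤ dv e), dv e ≤
        ν F0 + ∑ e ∈ F0, dv e := by
  classical
  set L := Q.filter (fun e => 0 ≤ dv e) with hL
  have hLQ : L ⊆ Q := filter_subset _ _
  obtain ⟨N, hNL, hN, hNν, hNb⟩ := h.core L.card L rfl hLQ
  obtain ⟨F0, hF0, hmax⟩ := exists_max_image (Q.powerset.filter (Bl ν)) (Dw ν dv du)
    ⟨∅, by
      rw [mem_filter, mem_powerset]
      exact ⟨empty_subset _, fun e he => absurd he (notMem_empty _)⟩⟩
  rw [mem_filter, mem_powerset] at hF0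
  obtain ⟨hF0Q, hF0⟩ := hF0
  have hmax : ∀ F ⊆ Q, Bl ν F → Dw ν dv du F ≤ Dw ν dv du F0 := fun F h1 h2 =>
    hmax F (by rw [mem_filter, mem_powerset]; exact ⟨h1, h2⟩)
  have hmaxl : ∀ F ⊆ Q, Bl ν F → (ν F : ℤ) + ∑ e ∈ F, dv e ≤ ν F0 + ∑ e ∈ F0, dv e := by
    intro F h1 h2
    have := hmax F h1 h2
    by_contra h3
    exact absurd (Dw_lt.2 (Or.inl (not_le.1 h3))) (not_lt.2 this)
  -- removed elements of `L` have weight `0`
  have hzero : ∀ e ∈ L, e ∉ N → dv e = 0 := by
    intro e he heN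
    have h1 := hNb e he heN
    rw [mem_filter] at he
    by_contra h2
    have := hI e he.1 (lt_of_le_of_ne he.2 (Ne.symm h2))
    omega
  have hsubs : ∀ F : Finset ι, F ⊆ Q → Bl ν F → ∀ G : Finset ι, G ⊆ Q → Bl ν G →
      (∀ e ∈ G, e ∉ F → 0 ≤ dv e) → Dw ν dv du F0 ≤ Dw ν dv du F → G ⊆ F := by
    intro F hFQ hF G hGQ hG hd hle
    by_contra hn
    have h1 : Dw ν dv du F < Dw ν dv du (F ∪ G) := by
      have e1 : ∑ e ∈ F ∪ G, dv e = ∑ e ∈ F, dv e + ∑ e ∈ G \ F, dv e := by
        rw [← sum_union disjoint_sdiff, union_sdiff_self_eq_union]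
      have e2 : ∑ e ∈ F ∪ G, du e = ∑ e ∈ F, du e + ∑ e ∈ G \ F, du e := by
        rw [← sum_union disjoint_sdiff, union_sdiff_self_eq_union]
      have f1 : 0 ≤ ∑ e ∈ G \ F, dv e := sum_nonneg fun e he => by
        rw [mem_sdiff] at he
        exact hd e he.1 he.2
      have f2 : 0 < ∑ e ∈ G \ F, du e := by
        refine sum_pos (fun e he => hQ e (hGQ (mem_sdiff.1 he).1)) ?_
        rw [nonempty_iff_ne_empty]
        intro h0
        exact hn (sdiff_eq_empty_iff_subset.1 h0)
      have f3 : ν F ≤ ν (F ∪ G) := h.mono subset_union_left ((union_subset hFQ hGQ).trans h.sub)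
      rw [Dw_lt, e1, e2]
      omega
    have h2 := hmax (F ∪ G) (union_subset hFQ hGQ) (h.union hFQ hGQ hF hG)
    exact absurd (lt_of_le_of_lt hle h1) (not_lt.2 h2)
  have hN0 : ∀ F ⊆ Q, Bl ν F → Dw ν dv du F0 ≤ Dw ν dv du F → N ⊆ F := by
    intro F h1 h2 h3
    refine hsubs F h1 h2 N (hNL.trans hLQ) hN (fun e he _ => ?_) h3
    have := hNL he
    rw [mem_filter] at this
    exact this.2
  refine ⟨F0, hF0Q, hF0, ?_, ?_⟩
  · -- uniqueness
    have key : ∀ F ⊆ Q, Bl ν F → F ≠ F0 → Dw ν dv du F < Dw ν dv du F0 := by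
      intro F hFQ hF hne
      by_contra hlt
      have hge : Dw ν dv du F0 ≤ Dw ν dv du F := not_lt.1 hlt
      have heq : Dw ν dv du F = Dw ν dv du F0 := le_antisymm (hmax F hFQ hF) hge
      have hNF := hN0 F hFQ hF hge
      have hNF0 := hN0 F0 hF0Q hF0 le_rfl
      -- the level of the intersection
      obtain ⟨C, hC1, hC2, hC3, hC4⟩ := h.core (F ∩ F0).card (F ∩ F0) rfl
        (inter_subset_left.trans hFQ)
      have hint : (ν (F ∩ F0) : ℤ) + ∑ e ∈ F ∩ F0, dv e ≤ ν F0 + ∑ e ∈ F0, dv e := by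
        have e1 : ∑ e ∈ F ∩ F0, dv e = ∑ e ∈ C, dv e + ∑ e ∈ (F ∩ F0) \ C, dv e := by
          rw [← sum_union disjoint_sdiff, union_sdiff_of_subset hC1]
        have e2 : ∑ e ∈ (F ∩ F0) \ C, dv e ≤ 0 := sum_nonpos fun e he => by
          rw [mem_sdiff] at he
          have heQ : e ∈ Q := hFQ (mem_inter.1 he.1).1
          by_cases heN : e ∈ N
          · exfalso
            have h1 := h.nb (subset_inter hNF hNF0) (inter_subset_left.trans hFQ) hN heN
            have h2 := hC4 e he.1 he.2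
            omega
          · by_cases heL : e ∈ L
            · rw [hzero e heL heN]
            · rw [hL, mem_filter] at heL
              have : ¬ 0 ≤ dv e := fun h => heL ⟨heQ, h⟩
              omega
        have e3 := hmaxl C (hC1.trans (inter_subset_left.trans hFQ)) hC2
        rw [e1, ← hC3]
        omega
      have hsup := h.super hFQ hF0Q
      have hsum : ∑ e ∈ F ∪ F0, dv e + ∑ e ∈ F ∩ F0, dv e = ∑ e ∈ F, dv e + ∑ e ∈ F0, dv e :=
        sum_union_inter
      have hlev : (ν F : ℤ) + ∑ e ∈ F, dv e = ν F0 + ∑ e ∈ F0, dv e ∧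
          ∑ e ∈ F, du e = ∑ e ∈ F0, du e := by
        rw [Dw, Dw, toLex_inj, Prod.mk.injEq] at heq
        exact heq
      have hun : (ν F0 : ℤ) + ∑ e ∈ F0, dv e ≤ ν (F ∪ F0) + ∑ e ∈ F ∪ F0, dv e := by
        omega
      have hUb : Bl ν (F ∪ F0) := h.union hFQ hF0Q hF hF0
      have hUQ : F ∪ F0 ⊆ Q := union_subset hFQ hF0Q
      have hule : ∑ e ∈ F ∪ F0, du e ≤ ∑ e ∈ F0, du e := by
        by_contra h1
        have h2 := hmax (F ∪ F0) hUQ hUb
        have h3 : Dw ν dv du F0 < Dw ν dv du (F ∪ F0) := by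
          rw [Dw_lt]
          omega
        exact absurd h3 (not_lt.2 h2)
      have hs1 : F ⊆ F0 := by
        by_contra hn
        have e2 : ∑ e ∈ F ∪ F0, du e = ∑ e ∈ F0, du e + ∑ e ∈ F \ F0, du e := by
          rw [union_comm, ← sum_union disjoint_sdiff, union_sdiff_self_eq_union]
        have f2 : 0 < ∑ e ∈ F \ F0, du e := by
          refine sum_pos (fun e he => hQ e (hFQ (mem_sdiff.1 he).1)) ?_
          rw [nonempty_iff_ne_empty]
          intro h0
          exact hn (sdiff_eq_empty_iff_subset.1 h0)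
        omega
      have hs2 : F0 ⊆ F := by
        by_contra hn
        have e2 : ∑ e ∈ F0, du e = ∑ e ∈ F, du e + ∑ e ∈ F0 \ F, du e := by
          rw [← sum_union disjoint_sdiff, union_sdiff_of_subset hs1]
        have f2 : 0 < ∑ e ∈ F0 \ F, du e := by
          refine sum_pos (fun e he => hQ e (hF0Q (mem_sdiff.1 he).1)) ?_
          rw [nonempty_iff_ne_empty]
          intro h0
          exact hn (sdiff_eq_empty_iff_subset.1 h0)
        omega
      exact hne (Subset.antisymm hs1 hs2)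
    intro F hFE hne hb
    by_cases hFQ : F ⊆ Q
    · rw [inter_eq_left.2 hFQ] at hb
      exact key F hFQ hb hne
    · have h1 : Dw ν dv du F < Dw ν dv du (F ∩ Q) := by
        have hb : ∀ D : Finset ι, D ⊆ E → D ∩ Q = ∅ →
            (ν ((F ∩ Q) ∪ D) : ℤ) ≤ ν (F ∩ Q) + 2 * D.card := by
          intro D
          induction D using Finset.induction_on with
          | empty => intro _ _; simp
          | insert e D he ih =>
            intro hD hDQ
            have h2 := ih (fun x hx => hD (mem_insert_of_mem hx)) (by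
              rw [eq_empty_iff_forall_notMem] at hDQ ⊢
              intro x hx
              exact hDQ x (mem_inter.2 ⟨mem_insert_of_mem (mem_inter.1 hx).1, (mem_inter.1 hx).2⟩))
            rw [union_insert, card_insert_of_notMem he]
            by_cases h3 : e ∈ F ∩ Q ∪ D
            · rw [insert_eq_of_mem h3]
              push_cast
              omega
            · have := h.p1 (F ∩ Q ∪ D) (union_subset (inter_subset_left.trans hFE)
                fun x hx => hD (mem_insert_of_mem hx)) e (hD (mem_insert_self _ _)) h3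
              push_cast
              omega
        have h2 := hb (F \ Q) (sdiff_subset.trans hFE) (by
          rw [eq_empty_iff_forall_notMem]
          intro x hx
          rw [mem_inter, mem_sdiff] at hx
          exact hx.1.2 hx.2)
        have e0 : F ∩ Q ∪ F \ Q = F := by
          ext x
          simp only [mem_union, mem_inter, mem_sdiff]
          tauto
        rw [e0] at h2
        have hdj : Disjoint (F ∩ Q) (F \ Q) := by
          rw [disjoint_left]
          intro x hx hx'
          exact (mem_sdiff.1 hx').2 (mem_inter.1 hx).2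
        have e1 : ∑ e ∈ F, dv e = ∑ e ∈ F ∩ Q, dv e + ∑ e ∈ F \ Q, dv e := by
          rw [← sum_union hdj, e0]
        have e2 : ∑ e ∈ F, du e = ∑ e ∈ F ∩ Q, du e + ∑ e ∈ F \ Q, du e := by
          rw [← sum_union hdj, e0]
        have f1 : ∑ e ∈ F \ Q, dv e ≤ (F \ Q).card • (-2 : ℤ) := sum_le_card_nsmul _ _ _
          fun e he => (hW e (hFE (mem_sdiff.1 he).1) (mem_sdiff.1 he).2).1
        have f2 : ∑ e ∈ F \ Q, du e < 0 := by
          refine sum_neg (fun e he => (hW e (hFE (mem_sdiff.1 he).1) (mem_sdiff.1 he).2).2) ?_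
          rw [nonempty_iff_ne_empty]
          intro h0
          exact hFQ (sdiff_eq_empty_iff_subset.1 h0)
        rw [nsmul_eq_mul] at f1
        rw [Dw_lt, e1, e2]
        omega
      exact lt_of_lt_of_le h1 (hmax _ inter_subset_right hb)
  · -- the level
    have h1 := hmaxl N (hNL.trans hLQ) hN
    have e1 : ∑ e ∈ L, dv e = ∑ e ∈ N, dv e + ∑ e ∈ L \ N, dv e := by
      rw [← sum_union disjoint_sdiff, union_sdiff_of_subset hNL]
    have e2 : ∑ e ∈ L \ N, dv e = 0 := sum_eq_zero fun e he => by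
      rw [mem_sdiff] at he
      exact hzero e he.1 he.2
    rw [e1, e2, ← hNν]
    omega

end comb

end Run7.h849
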