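import Pool.Agent.Helper454.Wh.Homf.E12

/-!
# The HOMFLY functor at `z = 1`

The operators of `Pool.Agent.Helper454.Wh.Homf` over `ℤ[v^{±1}]` with `z = 1`; invariance of the
value `v^w ev` under isotopy; the value of a circle.
-/

set_option autoImplicit false

namespace Run7.h849

open Pool.Agent.Helper454.Wh (insD delD swpD noD OPiece OWord below forget OClosed OStep OIsotopic)
open Pool.Agent.Helper454.Wh.OPiece (birth death pos neg)
open Pool.Agent.Helper454.Kauf (LocalMove FirstMove Piece)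
open Pool.Agent.Helper454.Wh.Homf
open Pool.Agent.Helper454.Wh.Homf.Par LaurentPolynomial

noncomputable section

set_option linter.unusedSectionVars false
set_option linter.unusedVariables false

/-- the ring `ℤ[v^{±1}]` -/
abbrev R1 : Type := LaurentPolynomial ℤ

instance : Par R1 where
  a := T (-1)
  ai := T 1
  z := 1
  zi := 1
  dl := T (-1) - T 1
  h1 := by rw [← T_add]; rfl
  h2 := by rw [one_mul]
  h3 := by rw [one_mul]

/-- the powers of `v` -/
def lp (n : ℤ) : R1 := T n

theorem lp_add (i j : ℤ) : lp (i + j) = lp i * lp j := T_add i j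

theorem lp_zero : lp 0 = 1 := T_zero

/-- curls -/
theorem first_op {m : ℕ} {l r : OWord} (hlr : FirstMove (forget l) (forget r)) {d : ℕ → Bool}
    {t : ℕ × (ℕ → Bool)} (h1 : below l (2 * m) d = some t) (h2 : below r (2 * m) d = some t)
    {v : V R1} (hv : v ∈ W (R := R1) m d) :
    lv m l = lv m r ∧ lp (wr l d) • opW R1 m l v = lp (wr r d) • opW R1 m r v := by
  generalize hL : forget l = L' at hlr
  generalize hR : forget r = R' at hlr
  cases hlr with
  | birthPos i =>
    obtain ⟨p1, q1, rfl, hp, hq⟩ := fg_two hL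
    obtain ⟨p2, rfl, hp2⟩ := fg_one hR
    obtain ⟨b, rfl⟩ := fp_birth hp
    obtain rfl := fp_pos hq
    obtain ⟨b', rfl⟩ := fp_birth hp2
    obtain ⟨s1, h3, h4⟩ := bl_two h1
    obtain ⟨s2, h5, h6⟩ := bl_cons h2
    obtain rfl := bl_nil h6
    obtain ⟨h7, rfl⟩ := bl_birth h3
    obtain ⟨-, rfl⟩ := bl_birth h5
    have e := congrFun (congrArg Prod.snd (bl_pos h4).2) i
    simp only at e
    rw [swp_l, ins_l, ins_r] at e
    subst e
    refine ⟨rfl, ?_⟩
    have hc := (allRel (R := R1) m).1.curl true i (Nat.zero_le _) h7 b v (W_le hv)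
    have hw : wr [birth i b, pos i] d = -1 := by
      show 0 + (eps (insD i b d i) (insD i b d (i + 1)) + 0) = -1
      rw [ins_l, ins_r, eps_not', eps_self]
      rfl
    show lp (wr [birth i b, pos i] d) • X (m + 1) true i (B i b v) = lp 0 • B i (!b) v
    rw [hw, hc, smul_smul]
    show (lp (-1) * lp 1) • _ = _
    rw [← lp_add]
    rfl
  | birthNeg i =>
    obtain ⟨p1, q1, rfl, hp, hq⟩ := fg_two hL
    obtain ⟨p2, rfl, hp2⟩ := fg_one hR
    obtain ⟨b, rfl⟩ := fp_birth hp
    obtain rfl := fp_neg hq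
    obtain ⟨b', rfl⟩ := fp_birth hp2
    obtain ⟨s1, h3, h4⟩ := bl_two h1
    obtain ⟨s2, h5, h6⟩ := bl_cons h2
    obtain rfl := bl_nil h6
    obtain ⟨h7, rfl⟩ := bl_birth h3
    obtain ⟨-, rfl⟩ := bl_birth h5
    have e := congrFun (congrArg Prod.snd (bl_neg h4).2) i
    simp only at e
    rw [swp_l, ins_l, ins_r] at e
    subst e
    refine ⟨rfl, ?_⟩
    have hc := (allRel (R := R1) m).1.curl false i (Nat.zero_le _) h7 b v (W_le hv)
    have hw : wr [birth i b, neg i] d = 1 := by
      show 0 + (-eps (insD i b d i) (insD i b d (i + 1)) + 0) = 1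
      rw [ins_l, ins_r, eps_not', eps_self]
      rfl
    show lp (wr [birth i b, neg i] d) • X (m + 1) false i (B i b v) = lp 0 • B i (!b) v
    rw [hw, hc, smul_smul]
    show (lp 1 * lp (-1)) • _ = _
    rw [← lp_add]
    rfl
  | deathPos i =>
    obtain ⟨p1, q1, rfl, hp, hq⟩ := fg_two hL
    obtain ⟨p2, rfl, hp2⟩ := fg_one hR
    obtain rfl := fp_pos hp
    obtain rfl := fp_death hq
    obtain rfl := fp_death hp2
    obtain ⟨s2, h5, h6⟩ := bl_cons h2
    obtain rfl := bl_nil h6
    obtain ⟨h7, h8, rfl⟩ := bl_death h5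
    obtain ⟨m, rfl⟩ : ∃ m', m = m' + 1 := ⟨m - 1, by omega⟩
    refine ⟨rfl, ?_⟩
    have hc := Dcurl (R := R1) true (i := i) (by omega) h8 hv
    have hw : wr [pos i, death i] d = -1 := by
      show eps (d i) (d (i + 1)) + (0 + 0) = -1
      rw [h8, eps_not', eps_self]
      rfl
    show lp (wr [pos i, death i] d) • D m i (X (m + 1) true i v) = lp 0 • D m i v
    rw [hw, hc, smul_smul]
    show (lp (-1) * lp 1) • _ = _
    rw [← lp_add]
    rfl
  | deathNeg i =>
    obtain ⟨p1, q1, rfl, hp, hq⟩ := fg_two hL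
    obtain ⟨p2, rfl, hp2⟩ := fg_one hR
    obtain rfl := fp_neg hp
    obtain rfl := fp_death hq
    obtain rfl := fp_death hp2
    obtain ⟨s2, h5, h6⟩ := bl_cons h2
    obtain rfl := bl_nil h6
    obtain ⟨h7, h8, rfl⟩ := bl_death h5
    obtain ⟨m, rfl⟩ : ∃ m', m = m' + 1 := ⟨m - 1, by omega⟩
    refine ⟨rfl, ?_⟩
    have hc := Dcurl (R := R1) false (i := i) (by omega) h8 hv
    have hw : wr [neg i, death i] d = 1 := by
      show -eps (d i) (d (i + 1)) + (0 + 0) = 1
      rw [h8, eps_not', eps_self]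
      rfl
    show lp (wr [neg i, death i] d) • D m i (X (m + 1) false i v) = lp 0 • D m i v
    rw [hw, hc, smul_smul]
    show (lp 1 * lp (-1)) • _ = _
    rw [← lp_add]
    rfl

theorem move_op {m : ℕ} {l r : OWord}
    (hlr : LocalMove (forget l) (forget r) ∨ FirstMove (forget l) (forget r)) {d : ℕ → Bool}
    {t : ℕ × (ℕ → Bool)} (h1 : below l (2 * m) d = some t) (h2 : below r (2 * m) d = some t)
    {v : V R1} (hv : v ∈ W (R := R1) m d) :
    lv m l = lv m r ∧ lp (wr l d) • opW R1 m l v = lp (wr r d) • opW R1 m r v := by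
  rcases hlr with h | h
  · obtain ⟨e1, e2, e3⟩ := local_op h h1 h2 hv
    exact ⟨e2, by rw [e1, e3]⟩
  · exact first_op h h1 h2 hv

/-- the value of a diagram, `1` for the empty diagram -/
def hat (w : OWord) : R1 := lp (wr w noD) * ev R1 w

theorem hat_split {x l y : OWord} {s t : ℕ × (ℕ → Bool)} (h1 : below x 0 noD = some s)
    (h2 : below l s.1 s.2 = some t) : hat (x ++ l ++ y) =
      lp (wr x noD + wr y t.2) * opW R1 (lv (lv 0 x) l) y
        (lp (wr l s.2) • opW R1 (lv 0 x) l (opW R1 0 x (v0 R1))) [] := by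
  rw [hat, wr_split h1 h2, ev_split, map_smul, Finsupp.smul_apply,
    smul_eq_mul, ← mul_assoc, ← lp_add]
  congr 2
  ring

theorem hat_step {D E : OWord} (h : OStep D E) : hat D = hat E := by
  obtain ⟨x, l, r, y, n, d, hlr, hx, hlr2, c1, c2⟩ := h
  obtain ⟨s, t, u, h1, h2, h3, h4⟩ := split3 c1
  rw [hx] at h1
  obtain rfl := (Option.some.inj h1).symm
  have h2' : below r n d = some t := by rw [← hlr2]; exact h2
  obtain ⟨hk, hv⟩ := opW_mem (R := R1) (m := 0) hx v0_mem
  simp only at hk hv h2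
  rw [hat_split hx h2, hat_split hx h2']
  rw [hk] at h2 h2'
  obtain ⟨e1, e2⟩ := move_op hlr h2 h2' hv
  simp only [e1, e2]

/-- isotopic diagrams have the same value -/
theorem hat_isotopy {D E : OWord} (h : OIsotopic D E) : hat D = hat E := by
  induction h with
  | rel D E h => exact hat_step h
  | refl D => rfl
  | symm D E _ ih => exact ih.symm
  | trans D E F _ _ ih1 ih2 => exact ih1.trans ih2

section
variable {R : Type} [CommRing R] [Par R] {m : ℕ}

/-- a circle -/
theorem D_B {i : ℕ} (hi : i ≤ 2 * m) (q : Bool) {d : ℕ → Bool} {v : V R}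
    (hv : v ∈ W (R := R) m d) : D m i (B i q v) = (dl : R) • v := by
  obtain ⟨H, HD⟩ := allRel (R := R) m
  have hB : B i q v ∈ W (R := R) (m + 1) (insD i q d) := B_memW hv hi q
  have s1 := HD.ska i hi _ (by rw [ins_l, ins_r]) _ hB
  rw [H.curl false i (Nat.zero_le _) hi q v (W_le hv), H.curl true i (Nat.zero_le _) hi q v (W_le hv),
    ins_l] at s1
  refine Binj i (!q) (z_cancel ?_)
  rw [← s1, map_smul, smul_smul, h2, sub_smul]
  rfl

end

end

end Run7.h849
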