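import Pool.Agent.Run7.h849.Red

/-!
# Chains of twisted bands
-/

set_option autoImplicit false

namespace Run7.h849

open Pool.Agent.Helper454.Wh (insD delD swpD noD OPiece OWord below forget OClosed OStep OIsotopic)
open Pool.Agent.Helper454.Wh.OPiece (birth death pos neg)
open Pool.Agent.Helper454.Wh.Homf
open Pool.Agent.Helper454.Wh.Homf.Par

noncomputable section

set_option linter.unusedSectionVars false
set_option linter.unusedVariables false

/-- the direction of the second strand -/
def dr2 (l : List ℕ) (b : Bool) : Bool := if l.length % 2 = 0 then !b else b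

section
variable (R : Type) [CommRing R] [Par R]

def ze (s : Bool) : R := if s then z else -z
def ka (s : Bool) : R := cf R (!s)

/-- coefficients of powers of a crossing -/
def fA (s : Bool) : ℕ → R
  | 0 => 0
  | 1 => 1
  | n + 2 => ze R s * fA s (n + 1) + fA s n

def fB (s : Bool) : ℕ → R
  | 0 => 1
  | n + 1 => fA R s n

/-- the coefficients of a chain: of the identity, and of the crossing or the reconnection -/
def cf2 (s : Bool) : List ℕ → R × R
  | [] => (0, 0)
  | [n] => (fB R s n, fA R s n)
  | n :: m :: l =>
    let c := cf2 s (m :: l)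
    if (m :: l).length % 2 = 0 then
      (c.1 * (dl * fB R s n + ka R s * fA R s n) + c.2 * fB R s n, c.2 * fA R s n)
    else
      (dl * fB R s n * c.1 + ka R s * fB R s n * c.2 + ka R s * fA R s n * c.1 +
        ze R s * ka R s * fA R s n * c.2, fA R s n * c.2)

end

section
variable {R : Type} [CommRing R] [Par R] {m : ℕ}

theorem pc_cx (n : ℕ) (s : Bool) (i : ℕ) : pc R n (cx s i) = X n s i := by
  cases s <;> rfl

theorem nx_cx (n : ℕ) (s : Bool) (i : ℕ) : nx n (cx s i) = n := by
  cases s <;> rfl

theorem swp_same {i : ℕ} {d : ℕ → Bool} (h : d i = d (i + 1)) : swpD i d = d := swp_par h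

theorem X_par {s : Bool} {i : ℕ} (hi : i ≤ 2 * m) {d : ℕ → Bool} (hd : d (i + 1) = d i) {v : V R}
    (hv : v ∈ W (R := R) (m + 1) d) : X (m + 1) s i v = X (m + 1) (!s) i v + ze R s • v := by
  have e := (allRel m).2.skp i hi d hd v hv
  cases s
  · simp only [ze, Bool.false_eq_true, if_false, Bool.not_false, neg_smul, ← e]
    abel
  · simp only [ze, if_true, Bool.not_true, ← e]
    abel

theorem X_inv {s : Bool} {i : ℕ} (hi : i ≤ 2 * m) {d : ℕ → Bool} {v : V R}
    (hv : v ∈ W (R := R) (m + 1) d) : X (m + 1) (!s) i (X (m + 1) s i v) = v := by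
  cases s
  · exact (allRel m).1.pn i (Nat.zero_le _) hi v (W_le hv)
  · exact (allRel m).1.np i (Nat.zero_le _) hi v (W_le hv)

theorem X_sq {s : Bool} {i : ℕ} (hi : i ≤ 2 * m) {d : ℕ → Bool} (hd : d (i + 1) = d i) {v : V R}
    (hv : v ∈ W (R := R) (m + 1) d) :
    X (m + 1) s i (X (m + 1) s i v) = v + ze R s • X (m + 1) s i v := by
  have hx : X (m + 1) s i v ∈ W (R := R) (m + 1) d := by
    have := (allRel (R := R) m).1.hX s i (Nat.zero_le _) hi d v hv
    rwa [swp_same hd.symm] at this
  rw [X_par hi hd hx, X_inv hi hv]

theorem fA_succ (s : Bool) (n : ℕ) : fA R s (n + 1) = ze R s * fA R s n + fB R s n := by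
  cases n with
  | zero => simp [fA, fB]
  | succ n => rfl

theorem X_pow {s : Bool} {i : ℕ} (hi : i ≤ 2 * m) {d : ℕ → Bool} (hd : d (i + 1) = d i) {v : V R}
    (hv : v ∈ W (R := R) (m + 1) d) (n : ℕ) :
    opW R (m + 1) (List.replicate n (cx s i)) v =
      fB R s n • v + fA R s n • X (m + 1) s i v := by
  have h1 : ∀ (n : ℕ) (v : V R), opW R (m + 1) (List.replicate (n + 1) (cx s i)) v =
      opW R (m + 1) (List.replicate n (cx s i)) (X (m + 1) s i v) := by
    intro n v
    rw [List.replicate_succ, opW_cons, pc_cx, nx_cx]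
  have h2 : ∀ n : ℕ, opW R (m + 1) (List.replicate n (cx s i)) v =
      fB R s n • v + fA R s n • X (m + 1) s i v ∧
      opW R (m + 1) (List.replicate (n + 1) (cx s i)) v =
      fB R s (n + 1) • v + fA R s (n + 1) • X (m + 1) s i v := by
    intro n
    have hx : X (m + 1) s i v ∈ W (R := R) (m + 1) d := by
      have := (allRel (R := R) m).1.hX s i (Nat.zero_le _) hi d v hv
      rwa [swp_same hd.symm] at this
    induction n with
    | zero =>
      refine ⟨?_, ?_⟩
      · simp only [List.replicate_zero, opW_nil, fB, fA, one_smul, zero_smul, add_zero]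
      · rw [h1]
        simp only [List.replicate_zero, opW_nil, fB, fA, one_smul, zero_smul, zero_add]
    | succ n ih =>
      refine ⟨ih.2, ?_⟩
      rw [h1, h1, X_sq hi hd hv, map_add, map_smul, ← h1, ih.1, ih.2]
      have e := fA_succ (R := R) s n
      have e2 : fA R s (n + 1 + 1) = ze R s * fA R s (n + 1) + fA R s n := rfl
      rw [e2, show fB R s (n + 1 + 1) = fA R s (n + 1) from rfl,
        show fB R s (n + 1) = fA R s n from rfl, e]
      module
  exact (h2 n).1

/-- `(b)`: a curl on the left -/
theorem curlL {s b : Bool} {i : ℕ} (hi : i + 1 ≤ 2 * m) {d : ℕ → Bool} (hd : d i = b) {v : V R}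
    (hv : v ∈ W (R := R) m d) :
    D m (i + 1) (X (m + 1) s i (B (i + 1) b v)) = ka R s • v := by
  have e := (allRel m).1.slide (!s) i (Nat.zero_le _) hi b v (W_le hv)
  rw [Bool.not_not] at e
  have hB : B i b v ∈ W (R := R) (m + 1) (insD i b d) := B_memW hv (by omega) b
  rw [← e, Dcurl (!s) hi (d := insD i b d) ?_ hB, (allRel m).2.zig1 i hi d b hd v hv]
  · rfl
  · rw [ins_r, show i + 1 + 1 = i + 2 by omega, ins_ge (le_refl i), hd, Bool.not_not]

/-- `(c)`: a curl on the right -/
theorem curlR {s b : Bool} {i : ℕ} (hi : i + 2 ≤ 2 * m) {d : ℕ → Bool} (hd : d (i + 1) = !b)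
    {v : V R} (hv : v ∈ W (R := R) m d) :
    D m (i + 1) (X (m + 1) s (i + 2) (B (i + 1) b v)) = ka R s • v := by
  have e := (allRel m).1.slide s (i + 1) (Nat.zero_le _) (by omega) b v (W_le hv)
  rw [show i + 1 + 1 = i + 2 by omega] at e
  have hB : B (i + 2) b v ∈ W (R := R) (m + 1) (insD (i + 2) b d) := B_memW hv (by omega) b
  rw [e, Dcurl (!s) (by omega) (d := insD (i + 2) b d) ?_ hB]
  · have z := (allRel m).2.zig2 (i + 1) (by omega) d b hd v hv
    rw [show i + 1 + 1 = i + 2 by omega] at z
    rw [z]
    rfl
  · rw [show i + 1 + 1 = i + 2 by omega, ins_l, ins_lt (by omega), hd, Bool.not_not]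

/-- `(d)`: two crossings in a row -/
theorem clasp {s b : Bool} {i : ℕ} (hi : i + 1 ≤ 2 * m + 1) {d : ℕ → Bool} (hd : d i = b)
    (hd' : d (i + 1) = !b) {v : V R} (hv : v ∈ W (R := R) (m + 1) d) :
    D (m + 1) (i + 1) (X (m + 1 + 1) s (i + 2) (X (m + 1 + 1) s i (B (i + 1) b v))) =
      B i b (D m i v) + (ze R s * ka R s) • v := by
  have hB : B (i + 1) b v ∈ W (R := R) (m + 1 + 1) (insD (i + 1) b d) := B_memW hv (by omega) b
  have hBi : B i b v ∈ W (R := R) (m + 1 + 1) (insD i b d) := B_memW hv (by omega) b
  have hpar : insD (i + 1) b d (i + 1) = insD (i + 1) b d i := by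
    rw [ins_l, ins_lt (by omega), hd]
  rw [X_par (m := m + 1) (s := s) (by omega) hpar hB, map_add, map_smul, map_add, map_smul,
    curlR (by omega) hd' hv, smul_smul]
  congr 1
  have e := (allRel (m + 1)).1.slide s i (Nat.zero_le _) (by omega) b v (W_le hv)
  rw [← e]
  have hw := (allRel (R := R) (m + 1)).1.hX s (i + 1) (Nat.zero_le _) (by omega) _ _ hBi
  have sd := slideD (allRel (m + 1)).1 (allRel (m + 1)).2 s (i := i + 1) (by omega) ?_ hw
  · rw [show i + 1 + 1 = i + 2 by omega] at sd
    rw [sd, X_inv (by omega) hBi, DB1 (le_refl i) (by omega) b ?_ hv]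
    rw [hd', hd]
  · rw [swp_l, show i + 1 + 2 = (i + 1) + 2 by omega, swp_gt (by omega), ins_ge (by omega), hd',
      show i + 1 + 1 = i + 2 by omega, ins_ge (le_refl i), hd]

/-- `(e)` -/
theorem zz {b : Bool} {i : ℕ} (hi : i + 2 ≤ 2 * m) {d : ℕ → Bool} (hd' : d (i + 1) = b) {v : V R}
    (hv : v ∈ W (R := R) m d) :
    D m (i + 1) (B (i + 2) (!b) (D m (i + 2) (B (i + 1) b v))) = v := by
  have z1 := (allRel m).2.zig1 (i + 1) (by omega) d b hd' v hv
  rw [show i + 1 + 1 = i + 2 by omega] at z1
  rw [z1]
  have z2 := (allRel m).2.zig2 (i + 1) (by omega) d (!b) (by rw [hd', Bool.not_not]) v hv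
  rw [show i + 1 + 1 = i + 2 by omega] at z2
  exact z2

/-- `(f)` -/
theorem zx {s b : Bool} {i : ℕ} (hi : i + 2 ≤ 2 * m) {d : ℕ → Bool} (hd : d i = b)
    (hd' : d (i + 1) = b) {v : V R} (hv : v ∈ W (R := R) m d) :
    D m (i + 1) (B (i + 2) (!b) (D m (i + 2) (X (m + 1) s i (B (i + 1) b v)))) = X m s i v := by
  have hB : B (i + 1) b v ∈ W (R := R) (m + 1) (insD (i + 1) b d) := B_memW hv (by omega) b
  rw [DX2 s (i := i) (j := i + 2) (le_refl _) (by omega) ?_ hB]
  · have z1 := (allRel m).2.zig1 (i + 1) (by omega) d b hd' v hv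
    rw [show i + 1 + 1 = i + 2 by omega] at z1
    rw [z1]
    have hx : X m s i v ∈ W (R := R) m d := by
      have := crmem s hi hv
      rwa [swp_same (by rw [hd, hd'])] at this
    have z2 := (allRel m).2.zig2 (i + 1) (by omega) d (!b) (by rw [hd', Bool.not_not]) _ hx
    rw [show i + 1 + 1 = i + 2 by omega] at z2
    exact z2
  · rw [show i + 2 = (i + 1) + 1 by omega, ins_r, show i + 1 + 1 + 1 = (i + 1) + 2 by omega,
      ins_ge (le_refl _), hd', Bool.not_not]

theorem rep_below {s : Bool} {i n : ℕ} (hi : i + 2 ≤ n) {d : ℕ → Bool} (hd : d i = d (i + 1))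
    (k : ℕ) : below (List.replicate k (cx s i)) n d = some (n, d) := by
  induction k with
  | zero => rfl
  | succ k ih =>
    rw [List.replicate_succ]
    refine bl_cons_of (s' := (n, d)) ?_ ih
    cases s
    · show OPiece.below (neg i) n d = some (n, d)
      simp only [OPiece.below]
      rw [if_pos hi, swp_same hd]
    · show OPiece.below (pos i) n d = some (n, d)
      simp only [OPiece.below]
      rw [if_pos hi, swp_same hd]

/-- the strands below a chain -/
theorem ch_below {s : Bool} {l : List ℕ} (hl : l ≠ []) {i n : ℕ} {b : Bool} (hi : i + 2 ≤ n)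
    {d : ℕ → Bool} (hd : d i = b) (hd' : d (i + 1) = dr2 l b) :
    below (ch s l i b) n d = some (n, d) := by
  induction l generalizing i n b d with
  | nil => exact absurd rfl hl
  | cons k l ih =>
    cases l with
    | nil =>
      simp only [ch, dr2, List.length_cons, List.length_nil] at hd' ⊢
      refine rep_below hi ?_ k
      rw [hd, hd']
      rfl
    | cons k' l =>
      rw [ch]
      refine bl_cons_of (s' := (n + 2, insD (i + 1) b d)) ?_ ?_
      · simp only [OPiece.below]
        rw [if_pos (by omega)]
      · refine bl_append_of (s' := (n + 2, insD (i + 1) b d)) ?_ ?_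
        · refine rep_below (by simp only; omega) ?_ k
          show insD (i + 1) b d i = insD (i + 1) b d (i + 1)
          rw [ins_l, ins_lt (by omega), hd]
        · refine bl_append_of (s' := (n + 2, insD (i + 1) b d))
            (ih (by simp) (by simp only; omega) ?_ ?_) ?_
          · show insD (i + 1) b d (i + 1 + 1) = !b
            rw [ins_r]
          · show insD (i + 1) b d (i + 1 + 2) = dr2 (k' :: l) (!b)
            rw [ins_ge (le_refl _), hd']
            simp only [dr2, List.length_cons]
            rcases Nat.mod_two_eq_zero_or_one l.length with h | h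
            · rw [if_pos (by omega), if_neg (by omega)]
            · rw [if_neg (by omega), if_pos (by omega), Bool.not_not]
          · refine bl_cons_of (s' := (n, d)) ?_ rfl
            simp only [OPiece.below]
            rw [if_pos ⟨by omega, by rw [ins_r, ins_l]⟩]
            simp only [Option.some.injEq, Prod.mk.injEq, Nat.add_sub_cancel, true_and]
            funext j
            simp only [delD, insD]
            split_ifs <;> first | rfl | omega

theorem rep_lv {s : Bool} {i k n : ℕ} : lv n (List.replicate k (cx s i)) = n := by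
  induction k with
  | zero => rfl
  | succ k ih => rw [List.replicate_succ, lv, nx_cx, ih]

theorem ch_lv {s : Bool} {l : List ℕ} {i n : ℕ} {b : Bool} : lv n (ch s l i b) = n := by
  induction l generalizing i n b with
  | nil => rfl
  | cons k l ih =>
    cases l with
    | nil => exact rep_lv
    | cons k' l =>
      rw [ch, lv, lv_append, rep_lv, lv_append, ih]
      rfl

/-- the operator of a chain -/
theorem ch_op {s : Bool} {l : List ℕ} (hl : l ≠ []) {i : ℕ} {b : Bool} (hi : i + 2 ≤ 2 * m)
    {d : ℕ → Bool} (hd : d i = b) (hd' : d (i + 1) = dr2 l b) {v : V R}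
    (hv : v ∈ W (R := R) m d) :
    opW R m (ch s l i b) v = (cf2 R s l).1 • v + (cf2 R s l).2 •
      (if l.length % 2 = 0 then B i b (D (m - 1) i v) else X m s i v) := by
  induction l generalizing i m b d v with
  | nil => exact absurd rfl hl
  | cons k l ih =>
    obtain ⟨m, rfl⟩ : ∃ m', m = m' + 1 := ⟨m - 1, by omega⟩
    cases l with
    | nil =>
      simp only [ch, dr2, List.length_cons, List.length_nil, cf2] at hd' ⊢
      exact X_pow (by omega) (by rw [hd, hd']; rfl) hv k
    | cons k' l =>
      have hB : B (i + 1) b v ∈ W (R := R) (m + 1 + 1) (insD (i + 1) b d) :=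
        B_memW hv (by omega) b
      have hXB : X (m + 1 + 1) s i (B (i + 1) b v) ∈ W (R := R) (m + 1 + 1)
          (insD (i + 1) b d) := by
        have := crmem s (i := i) (by omega) hB
        rwa [swp_same (by rw [ins_l, ins_lt (by omega), hd])] at this
      have e1 : opW R (m + 1) (ch s (k :: k' :: l) i b) v = D (m + 1) (i + 1)
          (opW R (m + 1 + 1) (ch s (k' :: l) (i + 2) (!b))
            (opW R (m + 1 + 1) (List.replicate k (cx s i)) (B (i + 1) b v))) := by
        rw [ch, opW_cons, opW_append, opW_append]
        show opW R (lv (lv (m + 1 + 1) (List.replicate k (cx s i)))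
          (ch s (k' :: l) (i + 2) (!b))) [death (i + 1)]
          (opW R (lv (m + 1 + 1) (List.replicate k (cx s i))) (ch s (k' :: l) (i + 2) (!b))
            (opW R (m + 1 + 1) (List.replicate k (cx s i)) (B (i + 1) b v))) = _
        rw [rep_lv, ch_lv]
        rfl
      have d1 : insD (i + 1) b d (i + 2) = !b := by
        rw [show i + 2 = (i + 1) + 1 by omega, ins_r]
      have d2 : insD (i + 1) b d (i + 2 + 1) = dr2 (k' :: l) (!b) := by
        rw [show i + 2 + 1 = (i + 1) + 2 by omega, ins_ge (le_refl _), hd']
        simp only [dr2, List.length_cons]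
        rcases Nat.mod_two_eq_zero_or_one l.length with h | h
        · rw [if_pos (by omega), if_neg (by omega)]
        · rw [if_neg (by omega), if_pos (by omega), Bool.not_not]
      rw [e1, X_pow (by omega) (by rw [ins_l, ins_lt (by omega), hd]) hB, map_add, map_smul,
        map_smul, ih (by simp) (by omega) d1 d2 hB, ih (by simp) (by omega) d1 d2 hXB]
      simp only [Nat.add_sub_cancel]
      rw [cf2]
      simp only [List.length_cons] at hd' ⊢
      rcases Nat.mod_two_eq_zero_or_one l.length with h | h
      · -- the rest has odd length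
        have h1 : (l.length + 1) % 2 = 1 := by omega
        have h2 : (l.length + 1 + 1) % 2 = 0 := by omega
        have hdd : d (i + 1) = !b := by
          rw [hd', dr2]
          simp only [List.length_cons]
          rw [if_pos h2]
        simp only [h1, h2, if_true, one_ne_zero, if_false, map_add, map_smul]
        rw [D_B (by omega) b hv, curlL (by omega) hd hv, curlR (by omega) hdd hv,
          clasp (by omega) hd hdd hv]
        module
      · have h1 : (l.length + 1) % 2 = 0 := by omega
        have h2 : (l.length + 1 + 1) % 2 = 1 := by omega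
        have hdd : d (i + 1) = b := by
          rw [hd', dr2]
          simp only [List.length_cons]
          rw [if_neg (by omega)]
        simp only [h1, h2, if_true, one_ne_zero, if_false, map_add, map_smul]
        rw [D_B (by omega) b hv, curlL (by omega) hd hv, zz (by omega) hdd hv,
          zx (by omega) hd hdd hv]
        module

/-- the product formula for the coefficients of a chain -/
def pP (R : Type) [CommRing R] [Par R] (s : Bool) (n : ℕ) : R := dl * fB R s n + ka R s * fA R s n

theorem dl_ze (s : Bool) : (dl : R) * ze R s * ka R s = ka R s * ka R s - 1 := by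
  have e := h2 (R := R)
  have e1 := h1 (R := R)
  cases s
  · simp only [ze, ka, cf, Bool.false_eq_true, if_false, Bool.not_false, if_true]
    linear_combination (-ai : R) * e - e1
  · simp only [ze, ka, cf, if_true, Bool.not_true, Bool.false_eq_true, if_false]
    linear_combination (a : R) * e - e1

theorem cf2_snd (s : Bool) {l : List ℕ} (hl : l ≠ []) : (cf2 R s l).2 = (l.map (fA R s)).prod := by
  induction l with
  | nil => exact absurd rfl hl
  | cons k l ih =>
    cases l with
    | nil => simp [cf2]
    | cons k' l =>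
      have := ih (by simp)
      rw [cf2, List.map_cons, List.prod_cons, ← this]
      split_ifs
      · ring
      · ring

theorem cf2_fst (s : Bool) {l : List ℕ} (hl : l ≠ []) :
    (dl : R) * (cf2 R s l).1 + (if l.length % 2 = 0 then 1 else ka R s) * (cf2 R s l).2 =
      (l.map (pP R s)).prod := by
  induction l with
  | nil => exact absurd rfl hl
  | cons k l ih =>
    cases l with
    | nil => simp [cf2, pP]
    | cons k' l =>
      have e := ih (by simp)
      have e2 := dl_ze (R := R) s
      rw [cf2, List.map_cons, List.prod_cons, ← e, pP]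
      simp only [List.length_cons]
      rcases Nat.mod_two_eq_zero_or_one l.length with h | h
      · have h1 : (l.length + 1) % 2 = 1 := by omega
        have h2 : (l.length + 1 + 1) % 2 = 0 := by omega
        simp only [h1, h2, if_true, one_ne_zero, if_false]
        linear_combination (fA R s k * (cf2 R s (k' :: l)).2) * e2
      · have h1 : (l.length + 1) % 2 = 0 := by omega
        have h2 : (l.length + 1 + 1) % 2 = 1 := by omega
        simp only [h1, h2, if_true, one_ne_zero, if_false]
        ring

end

end

end Run7.h849
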