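import Pool.Agent.Run7.h849.Base

/-!
# Invariance under isotopy, for general parameters
-/

set_option autoImplicit false

namespace Run7.h849

open Pool.Agent.Helper454.Wh (insD delD swpD noD OPiece OWord below forget OClosed OStep OIsotopic)
open Pool.Agent.Helper454.Wh.OPiece (birth death pos neg)
open Pool.Agent.Helper454.Kauf (LocalMove FirstMove Piece)
open Pool.Agent.Helper454.Wh.Homf
open Pool.Agent.Helper454.Wh.Homf.Par

noncomputable section

set_option linter.unusedSectionVars false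
set_option linter.unusedVariables false

section
variable {R : Type} [CommRing R] [Par R]

/-- the unit `a^{-1}` -/
def ua (R : Type) [CommRing R] [Par R] : Rˣ := ⟨ai, a, by rw [mul_comm]; exact h1, h1⟩

/-- its powers -/
def lq (R : Type) [CommRing R] [Par R] (n : ℤ) : R := ((ua R ^ n : Rˣ) : R)

theorem lq_add (i j : ℤ) : lq R (i + j) = lq R i * lq R j := by
  rw [lq, lq, lq, zpow_add, Units.val_mul]

theorem lq_zero : lq R 0 = 1 := by rw [lq, zpow_zero, Units.val_one]

theorem lq_one : lq R 1 = ai := by rw [lq, zpow_one]; rfl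

theorem lq_neg : lq R (-1) = a := by rw [lq, zpow_neg_one]; rfl

theorem lq_pm (v : V R) : (lq R (-1) * cf R true) • v = v := by
  have : cf R true = lq R 1 := lq_one.symm
  rw [this, ← lq_add]
  norm_num
  rw [lq_zero, one_smul]

theorem lq_mp (v : V R) : (lq R 1 * cf R false) • v = v := by
  have : cf R false = lq R (-1) := lq_neg.symm
  rw [this, ← lq_add]
  norm_num
  rw [lq_zero, one_smul]

/-- curls -/
theorem first_op' {m : ℕ} {l r : OWord} (hlr : FirstMove (forget l) (forget r)) {d : ℕ → Bool}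
    {t : ℕ × (ℕ → Bool)} (h1 : below l (2 * m) d = some t) (h2 : below r (2 * m) d = some t)
    {v : V R} (hv : v ∈ W (R := R) m d) :
    lv m l = lv m r ∧ lq R (wr l d) • opW R m l v = lq R (wr r d) • opW R m r v := by
  generalize hL : forget l = L' at hlr
  generalize hR : forget r = R' at hlr
  cases hlr with
  | birthPos i =>
    obtain ⟨p1, q1, rfl, hp, hq⟩ := fg_two hL
    obtain ⟨p2, rfl, hp2⟩ := fg_one hR
    obtain ⟨b, rfl⟩ := fp_birth hp
    obtain rfl := fp_pos hq
    obtain ⟨b', rfl⟩ := fp_birth hp2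
    obtain ⟨s1, h3, h4⟩ := bl_two h1
    obtain ⟨s2, h5, h6⟩ := bl_cons h2
    obtain rfl := bl_nil h6
    obtain ⟨h7, rfl⟩ := bl_birth h3
    obtain ⟨-, rfl⟩ := bl_birth h5
    have e := congrFun (congrArg Prod.snd (bl_pos h4).2) i
    simp only at e
    rw [swp_l, ins_l, ins_r] at e
    subst e
    refine ⟨rfl, ?_⟩
    have hc := (allRel (R := R) m).1.curl true i (Nat.zero_le _) h7 b v (W_le hv)
    have hw : wr [birth i b, pos i] d = -1 := by
      show 0 + (eps (insD i b d i) (insD i b d (i + 1)) + 0) = -1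
      rw [ins_l, ins_r, eps_not', eps_self]
      rfl
    show lq R (wr [birth i b, pos i] d) • X (m + 1) true i (B i b v) = lq R 0 • B i (!b) v
    rw [hw, hc, smul_smul, lq_zero, one_smul]
    exact lq_pm _
  | birthNeg i =>
    obtain ⟨p1, q1, rfl, hp, hq⟩ := fg_two hL
    obtain ⟨p2, rfl, hp2⟩ := fg_one hR
    obtain ⟨b, rfl⟩ := fp_birth hp
    obtain rfl := fp_neg hq
    obtain ⟨b', rfl⟩ := fp_birth hp2
    obtain ⟨s1, h3, h4⟩ := bl_two h1
    obtain ⟨s2, h5, h6⟩ := bl_cons h2
    obtain rfl := bl_nil h6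
    obtain ⟨h7, rfl⟩ := bl_birth h3
    obtain ⟨-, rfl⟩ := bl_birth h5
    have e := congrFun (congrArg Prod.snd (bl_neg h4).2) i
    simp only at e
    rw [swp_l, ins_l, ins_r] at e
    subst e
    refine ⟨rfl, ?_⟩
    have hc := (allRel (R := R) m).1.curl false i (Nat.zero_le _) h7 b v (W_le hv)
    have hw : wr [birth i b, neg i] d = 1 := by
      show 0 + (-eps (insD i b d i) (insD i b d (i + 1)) + 0) = 1
      rw [ins_l, ins_r, eps_not', eps_self]
      rfl
    show lq R (wr [birth i b, neg i] d) • X (m + 1) false i (B i b v) = lq R 0 • B i (!b) v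
    rw [hw, hc, smul_smul, lq_zero, one_smul]
    exact lq_mp _
  | deathPos i =>
    obtain ⟨p1, q1, rfl, hp, hq⟩ := fg_two hL
    obtain ⟨p2, rfl, hp2⟩ := fg_one hR
    obtain rfl := fp_pos hp
    obtain rfl := fp_death hq
    obtain rfl := fp_death hp2
    obtain ⟨s2, h5, h6⟩ := bl_cons h2
    obtain rfl := bl_nil h6
    obtain ⟨h7, h8, rfl⟩ := bl_death h5
    obtain ⟨m, rfl⟩ : ∃ m', m = m' + 1 := ⟨m - 1, by omega⟩
    refine ⟨rfl, ?_⟩
    have hc := Dcurl (R := R) true (i := i) (by omega) h8 hv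
    have hw : wr [pos i, death i] d = -1 := by
      show eps (d i) (d (i + 1)) + (0 + 0) = -1
      rw [h8, eps_not', eps_self]
      rfl
    show lq R (wr [pos i, death i] d) • D m i (X (m + 1) true i v) = lq R 0 • D m i v
    rw [hw, hc, smul_smul, lq_zero, one_smul]
    exact lq_pm _
  | deathNeg i =>
    obtain ⟨p1, q1, rfl, hp, hq⟩ := fg_two hL
    obtain ⟨p2, rfl, hp2⟩ := fg_one hR
    obtain rfl := fp_neg hp
    obtain rfl := fp_death hq
    obtain rfl := fp_death hp2
    obtain ⟨s2, h5, h6⟩ := bl_cons h2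
    obtain rfl := bl_nil h6
    obtain ⟨h7, h8, rfl⟩ := bl_death h5
    obtain ⟨m, rfl⟩ : ∃ m', m = m' + 1 := ⟨m - 1, by omega⟩
    refine ⟨rfl, ?_⟩
    have hc := Dcurl (R := R) false (i := i) (by omega) h8 hv
    have hw : wr [neg i, death i] d = 1 := by
      show -eps (d i) (d (i + 1)) + (0 + 0) = 1
      rw [h8, eps_not', eps_self]
      rfl
    show lq R (wr [neg i, death i] d) • D m i (X (m + 1) false i v) = lq R 0 • D m i v
    rw [hw, hc, smul_smul, lq_zero, one_smul]
    exact lq_mp _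

theorem move_op' {m : ℕ} {l r : OWord}
    (hlr : LocalMove (forget l) (forget r) ∨ FirstMove (forget l) (forget r)) {d : ℕ → Bool}
    {t : ℕ × (ℕ → Bool)} (h1 : below l (2 * m) d = some t) (h2 : below r (2 * m) d = some t)
    {v : V R} (hv : v ∈ W (R := R) m d) :
    lv m l = lv m r ∧ lq R (wr l d) • opW R m l v = lq R (wr r d) • opW R m r v := by
  rcases hlr with h | h
  · obtain ⟨e1, e2, e3⟩ := local_op h h1 h2 hv
    exact ⟨e2, by rw [e1, e3]⟩
  · exact first_op' h h1 h2 hv

/-- the value of a diagram, `1` for the empty diagram -/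
def hatq (R : Type) [CommRing R] [Par R] (w : OWord) : R := lq R (wr w noD) * ev R w

theorem hatq_split {x l y : OWord} {s t : ℕ × (ℕ → Bool)} (h1 : below x 0 noD = some s)
    (h2 : below l s.1 s.2 = some t) : hatq R (x ++ l ++ y) =
      lq R (wr x noD + wr y t.2) * opW R (lv (lv 0 x) l) y
        (lq R (wr l s.2) • opW R (lv 0 x) l (opW R 0 x (v0 R))) [] := by
  rw [hatq, wr_split h1 h2, ev_split, map_smul, Finsupp.smul_apply,
    smul_eq_mul, ← mul_assoc, ← lq_add]
  congr 2
  ring

theorem hatq_step {D E : OWord} (h : OStep D E) : hatq R D = hatq R E := by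
  obtain ⟨x, l, r, y, n, d, hlr, hx, hlr2, c1, c2⟩ := h
  obtain ⟨s, t, u, h1, h2, h3, h4⟩ := split3 c1
  rw [hx] at h1
  obtain rfl := (Option.some.inj h1).symm
  have h2' : below r n d = some t := by rw [← hlr2]; exact h2
  obtain ⟨hk, hv⟩ := opW_mem (R := R) (m := 0) hx v0_mem
  simp only at hk hv h2
  rw [hatq_split hx h2, hatq_split hx h2']
  rw [hk] at h2 h2'
  obtain ⟨e1, e2⟩ := move_op' hlr h2 h2' hv
  simp only [e1, e2]

/-- isotopic diagrams have the same value -/
theorem hatq_isotopy {D E : OWord} (h : OIsotopic D E) : hatq R D = hatq R E := by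
  induction h with
  | rel D E h => exact hatq_step h
  | refl D => rfl
  | symm D E _ ih => exact ih.symm
  | trans D E F _ _ ih1 ih2 => exact ih1.trans ih2

end

end

end Run7.h849
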