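import Pool.Agent.Run7.h849.Sm

/-!
# The lower bound for closed braids
-/

set_option autoImplicit false

namespace Run7.h849

open Pool.Agent.Helper454.Wh (insD delD swpD noD OPiece OWord below forget OClosed OStep OIsotopic)
open Pool.Agent.Helper454.Wh.Homf
open Pool.Agent.Helper454.Wh.Homf.Par
open Finset

noncomputable section

set_option linter.unusedSectionVars false
set_option linter.unusedVariables false

/-- the weight of a chain -/
def wt (ns : List ℕ) : ℤ := if light ns then ns.length - 1 else 2 * hv ns - 2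

/-- the sum of the weights of the chains -/
def wts : List Bs → ℤ
  | [] => 0
  | .b _ :: w => wts w
  | .d _ :: w => wts w
  | .c _ ns :: w => wt ns + wts w

theorem Dt_cok {w : List Bs} {f : ℕ → ℕ × List ℕ} {t : ℕ} (hf : Dt f t w) (ha : Allc w) {k : ℕ}
    (h1 : t ≤ k) (h2 : k < t + nch w) : Cok (f k).2 := by
  induction w generalizing t with
  | nil =>
    rw [nch] at h2
    omega
  | cons p w ih =>
    cases p with
    | b i => exact ih hf ha h1 h2
    | d i => exact ih hf ha h1 h2
    | c i ns =>
      rcases Nat.eq_or_lt_of_le h1 with rfl | h3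
      · rw [hf.1]
        exact ha.1
      · rw [nch] at h2
        exact ih hf.2 ha.2 (by omega) (by omega)

theorem stA_rq {w : List Bs} {f : ℕ → ℕ × List ℕ} {t q : ℕ} {L : Finset ℕ} (hf : Dt f t w)
    (h : ∀ k, t ≤ k → k < t + nch w → (k ∈ L ↔ (light (f k).2 = true ∧ (f k).1 % 2 = q))) :
    stA L t w = rq q w := by
  induction w generalizing t with
  | nil => rfl
  | cons p w ih =>
    cases p with
    | b i => rw [stA, rq, ih hf h]
    | d i => rw [stA, rq, ih hf h]
    | c i ns =>
      have h1 := h t le_rfl (by rw [nch]; omega)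
      rw [hf.1] at h1
      have h2 : decide (t ∈ L) = (light ns && decide (i % 2 = q)) := by
        by_cases h3 : t ∈ L
        · obtain ⟨h4, h5⟩ := h1.1 h3
          rw [decide_eq_true h3, h4, decide_eq_true h5]
          rfl
        · rw [decide_eq_false h3]
          by_cases h4 : light ns = true
          · rw [h4, decide_eq_false (fun h5 => h3 (h1.2 ⟨h4, h5⟩))]
            rfl
          · rw [Bool.not_eq_true] at h4
            rw [h4]
            rfl
      rw [stA, rq, h2, ih hf.2 fun k hk hk' => h k (by omega) (by rw [nch]; omega)]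

/-- the side `s` and the places -/
def qq (s : Bool) : ℕ := if s then 1 else 0

theorem qq_lt (s : Bool) : qq s < 2 := by cases s <;> decide

theorem qq_iff (s : Bool) (i : ℕ) : (!par i) = s ↔ i % 2 = qq s := by
  rcases Nat.mod_two_eq_zero_or_one i with h | h <;> cases s <;> simp [par, h, qq]

/-- the contribution of a chain to the bound for the side `q` -/
def gq (q : ℕ) (p : ℕ × List ℕ) : ℤ :=
  (if p.1 % 2 = q ∧ light p.2 = true then 1 + ((p.2.length : ℤ) - 2 * hv p.2) else 0) +
    (if p.1 % 2 = q then 2 * (hv p.2 : ℤ) - p.2.length else p.2.length) - 1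

theorem gq_sum (p : ℕ × List ℕ) : gq 1 p + gq 0 p = wt p.2 := by
  rw [gq, gq, wt]
  rcases Nat.mod_two_eq_zero_or_one p.1 with h | h <;> cases hl : light p.2 <;>
    simp [h] <;> ring

theorem wts_sum {w : List Bs} {f : ℕ → ℕ × List ℕ} {t : ℕ} (hf : Dt f t w) :
    ∑ k ∈ Ico t (t + nch w), wt (f k).2 = wts w := by
  induction w generalizing t with
  | nil => simp [nch, wts]
  | cons p w ih =>
    cases p with
    | b i => exact ih hf
    | d i => exact ih hf
    | c i ns =>
      have hI : Ico t (t + nch (Bs.c i ns :: w)) = insert t (Ico (t + 1) (t + 1 + nch w)) := by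
        ext k
        rw [nch, mem_insert, mem_Ico, mem_Ico]
        omega
      rw [hI, sum_insert (by rw [mem_Ico]; omega), ih hf.2, hf.1, wts]

/-- a high exponent -/
theorem side (s : Bool) {w : List Bs} (hw : Wd 0 w) (ha : Allc w) (hb : NBr w)
    {f : ℕ → ℕ × List ℕ} (hf : Dt f 0 w) :
    ∃ X : Gx, (un (ev (Rt s) (expand w))).coeff X ≠ 0 ∧
      (cc (rq (qq s) w) : ℤ) + ∑ k ∈ range (nch w), gq (qq s) (f k) ≤ (ofLex X).1 := by
  set q := qq s with hq
  have hcok : ∀ k ∈ range (nch w), Cok (f k).2 := fun k hk =>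
    Dt_cok hf ha (Nat.zero_le k) (by rw [mem_range] at hk; omega)
  set dv : ℕ → ℤ := fun k => if (f k).1 % 2 = q then ((f k).2.length : ℤ) - 2 * hv (f k).2
    else -((f k).2.length : ℤ) with hdv
  set du : ℕ → ℤ := fun k => if (f k).1 % 2 = q then ((f k).2.length : ℤ)
    else -((f k).2.length : ℤ) with hdu
  set bv : ℕ → ℤ := fun k => if (f k).1 % 2 = q then 2 * (hv (f k).2 : ℤ) - (f k).2.length
    else ((f k).2.length : ℤ) with hbv
  set bu : ℕ → ℤ := fun k => if (f k).1 % 2 = q then exc (f k).2 - (f k).2.length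
    else exc (f k).2 + (f k).2.length with hbu
  have hQm : ∀ k, k ∈ Qs w f q ↔ k < nch w ∧ (f k).1 % 2 = q := by
    intro k
    rw [Qs, mem_filter, mem_range]
  have hLm : ∀ k, k ∈ (Qs w f q).filter (fun e => 0 ≤ dv e) ↔
      k < nch w ∧ (f k).1 % 2 = q ∧ light (f k).2 = true := by
    intro k
    rw [mem_filter, hQm]
    simp only [hdv]
    rw [light, decide_eq_true_eq]
    constructor
    · rintro ⟨⟨h1, h2⟩, h3⟩
      rw [if_pos h2] at h3
      exact ⟨h1, h2, by omega⟩
    · rintro ⟨h1, h2, h3⟩
      refine ⟨⟨h1, h2⟩, ?_⟩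
      rw [if_pos h2]
      omega
  have hlead := (spm_nuA hw hf (qq_lt s)).lead (c := fun A => cc (stA A 0 w)) (fun A => rfl)
    (dv := dv) (du := du) (δ := un (dl : Rt s)) (κ := fun k => un (kf (Rt s) f k))
    (π := fun k => un ((f k).2.map (pP (Rt s) (!par (f k).1))).prod) (bv := bv) (bu := bu)
    (by
      intro e he heQ
      have hne : ¬ (f e).1 % 2 = q := fun h => heQ ((hQm e).2 ⟨mem_range.1 he, h⟩)
      have h2 := (hcok e he).2.1
      simp only [hdv, hdu]
      rw [if_neg hne, if_neg hne]
      omega)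
    (by
      intro e he
      obtain ⟨h1, h2⟩ := (hQm e).1 he
      have h3 := (hcok e (mem_range.2 h1)).2.1
      simp only [hdu]
      rw [if_pos h2]
      omega)
    (by
      intro e he h
      obtain ⟨h1, h2⟩ := (hQm e).1 he
      simp only [hdv] at h
      rw [if_pos h2] at h
      refine nb_light hw hf hb (qq_lt s) hLm ?_ (by omega)
      rw [hLm]
      refine ⟨h1, h2, ?_⟩
      rw [light, decide_eq_true_eq]
      omega)
    (Ld_dl s)
    (by
      intro e he
      have h1 := hcok e he
      have hne : (f e).2 ≠ [] := by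
        intro h0
        have := h1.2.1
        rw [h0] at this
        simp at this
      show Ld (un (cf2 (Rt s) (!par (f e).1) (f e).2).2) _
      rw [cf2_snd _ hne]
      have h2 := al_ld s (!par (f e).1) h1.1
      have e1 : bv e + dv e = 0 := by
        simp only [hbv, hdv]
        split_ifs <;> ring
      have e2 : bu e + du e = exc (f e).2 := by
        simp only [hbu, hdu]
        split_ifs <;> ring
      rw [e1, e2]
      exact h2)
    (by
      intro e he
      have h1 := hcok e he
      have h2 := pi_ld s (!par (f e).1) h1.1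
      have e1 : (if (!par (f e).1) = s then 2 * (hv (f e).2 : ℤ) - (f e).2.length
          else ((f e).2.length : ℤ)) = bv e := by
        simp only [hbv, hq, qq_iff]
      have e2 : (if (!par (f e).1) = s then exc (f e).2 - (f e).2.length
          else exc (f e).2 + (f e).2.length) = bu e := by
        simp only [hbu, hq, qq_iff]
      rw [e1, e2] at h2
      exact h2)
  obtain ⟨X, hX, hle⟩ := hlead
  rw [← hq] at hle
  -- the state sum
  have hss : (dl : Rt s) ^ (range (nch w)).card * ev (Rt s) (expand w) =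
      ∑ F ∈ (range (nch w)).powerset, pw (kf (Rt s) f)
        (fun k => ((f k).2.map (pP (Rt s) (!par (f k).1))).prod) (range (nch w)) F *
        Gf (dl : Rt s) (fun A => (dl : Rt s) ^ cc (stA A 0 w)) F := by
    rw [ev_sum hw ha hf]
    refine ss_eq (dl : Rt s) (kf (Rt s) f) (lf (Rt s) f) _ _ (fun e he => ?_) _
    have h1 := hcok e he
    have hne : (f e).2 ≠ [] := by
      intro h0
      have := h1.2.1
      rw [h0] at this
      simp at this
    have h2 := cf2_fst (R := Rt s) (!par (f e).1) hne
    rw [if_pos h1.2.2, one_mul] at h2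
    rw [← h2, kf, lf, add_sub_cancel_right]
  have hX2 : (un ((dl : Rt s) ^ (range (nch w)).card * ev (Rt s) (expand w))).coeff X ≠ 0 := by
    rw [hss]
    exact hX
  have hcard : (range (nch w)).card = nch w := card_range _
  obtain ⟨Y, hY, hYX⟩ : ∃ Y : Gx, (un (ev (Rt s) (expand w))).coeff Y ≠ 0 ∧
      (ofLex X).1 - nch w ≤ (ofLex Y).1 := by
    by_contra hcon
    have h1 : un (ev (Rt s) (expand w)) ∈ Vb ((ofLex X).1 - nch w - 1) := by
      intro k hk
      by_contra hk2
      exact hcon ⟨k, hk2, by omega⟩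
    have h2 : un (dl : Rt s) ^ (range (nch w)).card * un (ev (Rt s) (expand w)) ∈
        Vb ((((range (nch w)).card : ℕ) : ℤ) * 1 + ((ofLex X).1 - nch w - 1)) :=
      Vb_mul (Vb_pow (Vb_dl s) _) h1
    refine hX2 (h2 X ?_)
    rw [hcard]
    omega
  refine ⟨Y, hY, ?_⟩
  have e1 : stA ((Qs w f q).filter (fun e => 0 ≤ dv e)) 0 w = rq q w := by
    refine stA_rq hf fun k _ hk => ?_
    rw [hLm]
    constructor
    · rintro ⟨-, h1, h2⟩
      exact ⟨h2, h1⟩
    · rintro ⟨h1, h2⟩
      exact ⟨by omega, h2, h1⟩
  have e2 : (nuA w ((Qs w f q).filter (fun e => 0 ≤ dv e)) : ℤ) +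
      ∑ e ∈ (Qs w f q).filter (fun e => 0 ≤ dv e), dv e + ∑ e ∈ range (nch w), bv e - nch w =
      (cc (rq q w) : ℤ) + ∑ k ∈ range (nch w), gq q (f k) := by
    have e3 : (Qs w f q).filter (fun e => 0 ≤ dv e) = (range (nch w)).filter
        (fun k => (f k).1 % 2 = q ∧ light (f k).2 = true) := by
      ext k
      rw [hLm, mem_filter, mem_range]
    have e4 : ((((Qs w f q).filter (fun e => 0 ≤ dv e)).card : ℕ) : ℤ) +
        ∑ e ∈ (Qs w f q).filter (fun e => 0 ≤ dv e), dv e =
        ∑ k ∈ range (nch w), (if (f k).1 % 2 = q ∧ light (f k).2 = true then 1 + dv k else 0) := by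
      rw [e3, ← sum_filter, sum_add_distrib, sum_const, nsmul_eq_mul, mul_one]
    have e5 : ∑ k ∈ range (nch w), gq q (f k) =
        ∑ k ∈ range (nch w), (if (f k).1 % 2 = q ∧ light (f k).2 = true then 1 + dv k else 0) +
        ∑ k ∈ range (nch w), bv k - nch w := by
      have e6 : ∀ k ∈ range (nch w), gq q (f k) =
          (if (f k).1 % 2 = q ∧ light (f k).2 = true then 1 + dv k else 0) + bv k + -1 := by
        intro k _
        rw [gq]
        simp only [hdv, hbv]
        by_cases h : (f k).1 % 2 = q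
        · simp only [h, true_and, if_true]
          ring
        · simp only [h, false_and, if_false]
          ring
      rw [sum_congr rfl e6, sum_add_distrib, sum_add_distrib, sum_const, card_range, nsmul_eq_mul]
      ring
    rw [nuA, e1, e5]
    push_cast
    rw [← e4]
    ring
  omega

/-- the lower bound for closed braids -/
theorem lower {w : List Bs} (hw : Wd 0 w) (ha : Allc w) (hb : NBr w) {m : ℕ}
    {α : List (ℕ × Bool)} (hα : BraidWord m α) (hi : OIsotopic (expand w) (clo m α)) :
    wts w + cc (rq 1 w) + cc (rq 0 w) ≤ 2 * m := by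
  obtain ⟨f, hf⟩ := exists_Dt w 0
  obtain ⟨X, h1, h2⟩ := side true hw ha hb hf
  obtain ⟨Y, h3, h4⟩ := side false hw ha hb hf
  have h5 := mfw1 true hα hi h1
  have h6 := mfw1 false hα hi h3
  have h7 : ∑ k ∈ range (nch w), gq 1 (f k) + ∑ k ∈ range (nch w), gq 0 (f k) = wts w := by
    rw [← sum_add_distrib, ← wts_sum hf, zero_add, range_eq_Ico]
    exact sum_congr rfl fun k _ => gq_sum (f k)
  have e1 : qq true = 1 := rfl
  have e2 : qq false = 0 := rfl
  have e3 : sg1 true = 1 := rfl
  have e4 : sg1 false = -1 := rfl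
  rw [e1] at h2
  rw [e2] at h4
  rw [e3] at h5
  rw [e4] at h6
  omega

end

end Run7.h849
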