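import Pool.Agent.Run7.h849.Sg
import Pool.Agent.Run7.h849.Lw

/-!
# The number of the Seifert circles of a diagram of chains; alternation
-/

set_option autoImplicit false

namespace Run7.h849

open Pool.Agent.Helper454.Wh (insD delD swpD noD dirs OPiece OWord below OClosed)
open Pool.Agent.Helper454.Wh.OPiece (birth death pos neg)
open Pool.Agent.Helper454.Wh.Homf

noncomputable section

set_option linter.unusedSectionVars false
set_option linter.unusedVariables false

/-- the smoothed diagram, if all crossings join strands with the same direction -/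
def smw : OWord → List Pc
  | [] => []
  | birth i _ :: w => .b i :: smw w
  | death i :: w => .d i :: smw w
  | pos _ :: w => smw w
  | neg _ :: w => smw w

/-- all colourings -/
def En : OWord → (ℕ → Bool) → List (List (ℕ → Bool))
  | [], s => [[s]]
  | birth i _ :: w, s => (En w (ins i false s) ++ En w (ins i true s)).map (s :: ·)
  | death i :: w, s => if s i = s (i + 1) then (En w (del i s)).map (s :: ·) else []
  | pos _ :: w, s => (En w s).map (s :: ·)
  | neg _ :: w, s => (En w s).map (s :: ·)

/-- the levels of a colouring -/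
def traj (f : ℕ → ℕ → Bool) : OWord → ℕ → List (ℕ → Bool)
  | [], t => [f t]
  | _ :: w, t => f t :: traj f w (t + 1)

theorem En_length (w : OWord) (s : ℕ → Bool) : (En w s).length = N (smw w) s := by
  induction w generalizing s with
  | nil => rfl
  | cons p w ih =>
    cases p with
    | birth i b => rw [En, List.length_map, List.length_append, ih, ih, smw, N]
    | death i =>
      rw [En, smw, N]
      split_ifs with h
      · rw [List.length_map, ih]
      · rfl
    | pos i => rw [En, List.length_map, ih, smw]
    | neg i => rw [En, List.length_map, ih, smw]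

theorem traj_mem {f : ℕ → ℕ → Bool} {w : OWord} {t : ℕ} (h : Stp f w t) :
    traj f w t ∈ En w (f t) := by
  induction w generalizing t with
  | nil => simp [traj, En]
  | cons p w ih =>
    cases p with
    | birth i b =>
      obtain ⟨⟨x, hx⟩, h2⟩ := h
      have := ih h2
      rw [hx] at this
      rw [traj, En, List.mem_map]
      refine ⟨_, ?_, rfl⟩
      rw [List.mem_append]
      cases x
      · exact Or.inl this
      · exact Or.inr this
    | death i =>
      obtain ⟨⟨h1, hx⟩, h2⟩ := h
      have := ih h2
      rw [hx] at this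
      rw [traj, En, if_pos h1, List.mem_map]
      exact ⟨_, this, rfl⟩
    | pos i =>
      obtain ⟨hx, h2⟩ := h
      have := ih h2
      rw [hx] at this
      rw [traj, En, List.mem_map]
      exact ⟨_, this, rfl⟩
    | neg i =>
      obtain ⟨hx, h2⟩ := h
      have := ih h2
      rw [hx] at this
      rw [traj, En, List.mem_map]
      exact ⟨_, this, rfl⟩

theorem traj_inj {f g : ℕ → ℕ → Bool} {w : OWord} {t : ℕ} (h : traj f w t = traj g w t) :
    ∀ j ≤ w.length, f (t + j) = g (t + j) := by
  induction w generalizing t with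
  | nil =>
    intro j hj
    obtain rfl : j = 0 := by simpa using hj
    simpa [traj] using h
  | cons p w ih =>
    rw [traj, traj, List.cons.injEq] at h
    intro j hj
    cases j with
    | zero => exact h.1
    | succ j =>
      have := ih h.2 j (by simpa using hj)
      rwa [show t + 1 + j = t + (j + 1) by ring] at this

theorem Stp_of {f : ℕ → ℕ → Bool} {w : OWord} {t : ℕ}
    (h : ∀ j p, w[j]? = some p → stepAt p (f (t + j)) (f (t + j + 1))) : Stp f w t := by
  induction w generalizing t with
  | nil => trivial
  | cons q w ih =>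
    have h0 := h 0 q (by simp)
    have h1 : Stp f w (t + 1) := ih fun j p hj => by
      have := h (j + 1) p (by simpa using hj)
      rwa [show t + (j + 1) = t + 1 + j by ring] at this
    cases q with
    | birth i b => exact ⟨h0, h1⟩
    | death i => exact ⟨h0, h1⟩
    | pos i => exact ⟨h0, h1⟩
    | neg i => exact ⟨h0, h1⟩

theorem take_step {w : OWord} {n : ℕ} {d : ℕ → Bool} {s : ℕ × (ℕ → Bool)}
    (hb : below w n d = some s) {t : ℕ} {p : OPiece} (hp : w[t]? = some p) :
    ∃ s1 s2, below (w.take t) n d = some s1 ∧ p.below s1.1 s1.2 = some s2 ∧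
      below (w.take (t + 1)) n d = some s2 := by
  induction w generalizing n d t with
  | nil => simp at hp
  | cons q w ih =>
    obtain ⟨s1, h1, h2⟩ := bl_cons hb
    cases t with
    | zero =>
      obtain rfl : q = p := by simpa using hp
      exact ⟨(n, d), s1, rfl, h1, bl_cons_of h1 rfl⟩
    | succ t =>
      obtain ⟨s2, s3, h3, h4, h5⟩ := ih h2 (by simpa using hp)
      exact ⟨s2, s3, bl_cons_of h1 h3, h4, bl_cons_of h1 h5⟩

open Classical in
/-- the colouring in which the circles of `S` have the colour `true` -/
def fS (D : OWord) (S : Finset (Set (ℕ × ℕ))) : ℕ → ℕ → Bool := fun t k =>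
  decide (IsPt D (t, k) ∧ circ D (t, k) ∈ S)

theorem circ_eq {D : OWord} {p q : ℕ × ℕ} (h : Sm D p q) : circ D p = circ D q := by
  ext r
  exact ⟨fun h1 => (Relation.EqvGen.symm _ _ (Relation.EqvGen.rel _ _ h)).trans _ _ _ h1,
    fun h1 => (Relation.EqvGen.rel _ _ h).trans _ _ _ h1⟩

theorem fS_step {D : OWord} {s0 : ℕ × (ℕ → Bool)} (hpar : ParW D noD)
    (hb : below D 0 noD = some s0) (S : Finset (Set (ℕ × ℕ))) : Stp (fS D S) D 0 := by
  refine Stp_of fun t p hp => ?_
  rw [zero_add]
  obtain ⟨s1, s2, h1, h2, h3⟩ := take_step hb hp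
  have ht : t < D.length := by
    by_contra h
    rw [List.getElem?_eq_none (by omega)] at hp
    simp at hp
  have pt1 : ∀ k, IsPt D (t, k) ↔ k < s1.1 := by
    intro k
    simp only [IsPt, h1]
    constructor
    · rintro ⟨-, s, hs, hk⟩
      obtain rfl := Option.some.inj hs
      exact hk
    · intro hk
      exact ⟨by omega, s1, rfl, hk⟩
  have pt2 : ∀ k, IsPt D (t + 1, k) ↔ k < s2.1 := by
    intro k
    simp only [IsPt, h3]
    constructor
    · rintro ⟨-, s, hs, hk⟩
      obtain rfl := Option.some.inj hs
      exact hk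
    · intro hk
      exact ⟨by omega, s2, rfl, hk⟩
  have ff : ∀ {a b a' b' : ℕ}, (IsPt D (a, b) ↔ IsPt D (a', b')) → Sm D (a, b) (a', b') →
      fS D S a b = fS D S a' b' := by
    intro a b a' b' h4 h5
    simp only [fS]
    rw [circ_eq h5, h4]
  cases p with
  | birth i b =>
    obtain ⟨h4, rfl⟩ := bl_birth h2
    simp only at pt2
    refine ⟨fS D S (t + 1) i, ?_⟩
    funext k
    simp only [ins]
    split_ifs with h5 h6
    · refine (ff ?_ (Sm.birthLeft t i k b hp h5)).symm
      rw [pt1, pt2]
      omega
    · rcases (by omega : k = i ∨ k = i + 1) with rfl | rfl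
      · rfl
      · refine (ff ?_ (Sm.birthArc t i b hp)).symm
        rw [pt2, pt2]
        omega
    · obtain ⟨k, rfl⟩ : ∃ k', k = k' + 2 := ⟨k - 2, by omega⟩
      refine (ff ?_ (Sm.birthRight t i k b hp (by omega))).symm
      rw [pt1, pt2]
      omega
  | death i =>
    obtain ⟨h4, -, rfl⟩ := bl_death h2
    simp only at pt2
    refine ⟨ff ?_ (Sm.deathArc t i hp), ?_⟩
    · rw [pt1, pt1]
      omega
    · funext k
      simp only [del]
      split_ifs with h5
      · refine (ff ?_ (Sm.deathLeft t i k hp h5)).symm
        rw [pt1, pt2]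
        omega
      · refine (ff ?_ (Sm.deathRight t i k hp (by omega))).symm
        rw [pt1, pt2]
        omega
  | pos i =>
    obtain ⟨h4, rfl⟩ := bl_pos h2
    simp only at pt2
    funext k
    by_cases hk : k = i ∨ k = i + 1
    · refine (ff ?_ (Sm.crossPar t i k (Or.inl hp) (par_dirs hpar hb (e := (t, i)) (Or.inl hp))
        hk)).symm
      rw [pt1, pt2]
    · refine (ff ?_ (Sm.crossOther t i k (Or.inl hp) (fun h => hk (Or.inl h))
        (fun h => hk (Or.inr h)))).symm
      rw [pt1, pt2]
  | neg i =>
    obtain ⟨h4, rfl⟩ := bl_neg h2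
    simp only at pt2
    funext k
    by_cases hk : k = i ∨ k = i + 1
    · refine (ff ?_ (Sm.crossPar t i k (Or.inr hp) (par_dirs hpar hb (e := (t, i)) (Or.inr hp))
        hk)).symm
      rw [pt1, pt2]
    · refine (ff ?_ (Sm.crossOther t i k (Or.inr hp) (fun h => hk (Or.inl h))
        (fun h => hk (Or.inr h)))).symm
      rw [pt1, pt2]

/-- the number of the Seifert circles -/
theorem seif_le {D : OWord} {s0 : ℕ × (ℕ → Bool)} (hpar : ParW D noD)
    (hb : below D 0 noD = some s0) {c : ℕ} (hN : N (smw D) z0 = 2 ^ c) : seif D ≤ c := by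
  classical
  by_cases hfin : ({c | ∃ p, IsPt D p ∧ c = circ D p} : Set (Set (ℕ × ℕ))).Finite
  · set F : Finset (Set (ℕ × ℕ)) := hfin.toFinset with hF
    have e1 : seif D = F.card := by
      rw [seif, Set.ncard_eq_toFinset_card _ hfin]
    have f0 : ∀ S, fS D S 0 = z0 := by
      intro S
      funext k
      simp only [fS, z0, decide_eq_false_iff_not]
      rintro ⟨⟨-, s, hs, hk⟩, -⟩
      obtain rfl := Option.some.inj hs
      exact absurd hk (Nat.not_lt_zero _)
    have h1 : F.powerset.card ≤ (En D z0).toFinset.card := by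
      refine Finset.card_le_card_of_injOn (fun S => traj (fS D S) D 0) ?_ ?_
      · intro S hS
        have := traj_mem (fS_step hpar hb S)
        rw [f0] at this
        simpa using this
      · intro S hS S' hS' h
        have h2 := traj_inj h
        simp only [Finset.coe_powerset, Set.mem_preimage, Set.mem_powerset_iff,
          Finset.coe_subset] at hS hS'
        ext x
        have key : ∀ x ∈ F, (x ∈ S ↔ x ∈ S') := by
          intro x hx
          rw [hF, Set.Finite.mem_toFinset] at hx
          obtain ⟨⟨t, k⟩, hp, rfl⟩ := hx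
          have h3 := congrFun (h2 t hp.1) k
          rw [zero_add] at h3
          simp only [fS, hp, true_and] at h3
          simpa using h3
        constructor
        · intro hx; exact (key x (hS hx)).1 hx
        · intro hx; exact (key x (hS' hx)).2 hx
    have h2 : (En D z0).toFinset.card ≤ 2 ^ c := by
      rw [← hN, ← En_length]
      exact List.toFinset_card_le _
    rw [Finset.card_powerset, ← e1] at h1
    exact (Nat.pow_le_pow_iff_right (by norm_num)).1 (h1.trans h2)
  · rw [seif, Set.Infinite.ncard hfin]
    exact Nat.zero_le _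

/-! ### the diagrams of chains -/

theorem smw_append (u w : OWord) : smw (u ++ w) = smw u ++ smw w := by
  induction u with
  | nil => rfl
  | cons p u ih =>
    cases p with
    | birth i b => rw [List.cons_append, smw, smw, ih, List.cons_append]
    | death i => rw [List.cons_append, smw, smw, ih, List.cons_append]
    | pos i => rw [List.cons_append, smw, smw, ih]
    | neg i => rw [List.cons_append, smw, smw, ih]

theorem smw_rep (s : Bool) (i n : ℕ) : smw (List.replicate n (cx s i)) = [] := by
  induction n with
  | zero => rfl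
  | succ n ih =>
    rw [List.replicate_succ]
    cases s
    · exact ih
    · exact ih

theorem N_ch (s : Bool) {l : List ℕ} (hl : l ≠ []) (i : ℕ) (b : Bool) (y : List Pc)
    (u : ℕ → Bool) : N (smw (ch s l i b) ++ y) u = 2 ^ (l.length - 1) * N y u := by
  induction l generalizing i b y u with
  | nil => exact absurd rfl hl
  | cons n l ih =>
    cases l with
    | nil =>
      rw [ch, smw_rep]
      simp
    | cons m l =>
      have ih' := ih (by simp) (i + 2) (!b) (.d (i + 1) :: y)
      rw [ch, smw, smw_append, smw_append, smw_rep, List.nil_append, List.cons_append,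
        List.append_assoc]
      have e : smw [death (i + 1)] ++ y = .d (i + 1) :: y := rfl
      rw [e, N, ih', ih']
      simp only [N, ins_at, ins_at1, del_ins', if_true, List.length_cons, Nat.add_sub_cancel,
        pow_succ]
      ring

/-- the number of the small circles -/
def sml : List Bs → ℕ
  | [] => 0
  | .b _ :: w => sml w
  | .d _ :: w => sml w
  | .c _ ns :: w => (ns.length - 1) + sml w

theorem N_expand {w : List Bs} (h : Allc w) (u : ℕ → Bool) :
    N (smw (expand w)) u = 2 ^ sml w * N (rd w) u := by
  induction w generalizing u with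
  | nil => rfl
  | cons p w ih =>
    cases p with
    | b i => rw [expand, smw, N, ih h, ih h, rd, N, sml]; ring
    | d i =>
      rw [expand, smw, N, ih h, rd, N, sml]
      split_ifs
      · rfl
      · simp
    | c i ns =>
      have hne : ns ≠ [] := by
        rintro rfl
        exact absurd h.1.2.1 (by simp)
      rw [expand, smw_append, N_ch _ hne, ih h.2, rd, sml, pow_add]
      ring

theorem expand_below {w : List Bs} {m : ℕ} (hw : Wd (2 * m) w) (ha : Allc w) :
    below (expand w) (2 * m) (alt m) = some (0, noD) := by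
  induction w generalizing m with
  | nil =>
    have h0 : 2 * m = 0 := hw
    obtain rfl : m = 0 := by omega
    rw [alt_zero]
    rfl
  | cons p w ih =>
    cases p with
    | b i =>
      obtain ⟨h1, h2⟩ := hw
      rw [show 2 * m + 2 = 2 * (m + 1) by ring] at h2
      refine bl_cons_of (s' := (2 * (m + 1), alt (m + 1))) ?_ (ih h2 ha)
      simp only [OPiece.below]
      rw [if_pos h1, ins_alt h1]
      rfl
    | d i =>
      obtain ⟨h1, h2⟩ := hw
      obtain ⟨m1, rfl⟩ : ∃ m1, m = m1 + 1 := ⟨m - 1, by omega⟩
      rw [show 2 * (m1 + 1) - 2 = 2 * m1 by omega] at h2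
      refine bl_cons_of (s' := (2 * m1, alt m1)) ?_ (ih h2 ha)
      simp only [OPiece.below]
      rw [if_pos ⟨h1, alt_anti (by omega)⟩, del_alt (by omega)]
      rfl
    | c i ns =>
      obtain ⟨h1, h2⟩ := hw
      have hne : ns ≠ [] := by
        rintro rfl
        exact absurd ha.1.2.1 (by simp)
      refine bl_append_of (ch_below hne h1 (alt_lt (by omega)) ?_) (ih h2 ha.2)
      rw [alt_lt (by omega), par_succ, dr2, if_pos ha.1.2.2]

theorem ParW_append {u w : OWord} {n : ℕ} {d : ℕ → Bool} {s : ℕ × (ℕ → Bool)}
    (hb : below u n d = some s) (hu : ParW u d) (hw : ParW w s.2) : ParW (u ++ w) d := by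
  induction u generalizing n d with
  | nil =>
    obtain rfl := bl_nil hb
    exact hw
  | cons p u ih =>
    obtain ⟨s1, h1, h2⟩ := bl_cons hb
    cases p with
    | birth i b => obtain ⟨-, rfl⟩ := bl_birth h1; exact ih h2 hu
    | death i => obtain ⟨-, -, rfl⟩ := bl_death h1; exact ih h2 hu
    | pos i => obtain ⟨-, rfl⟩ := bl_pos h1; exact ⟨hu.1, ih h2 hu.2⟩
    | neg i => obtain ⟨-, rfl⟩ := bl_neg h1; exact ⟨hu.1, ih h2 hu.2⟩

theorem rep_par {s : Bool} {i : ℕ} {d : ℕ → Bool} (hd : d i = d (i + 1)) (k : ℕ) :
    ParW (List.replicate k (cx s i)) d := by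
  induction k with
  | zero => trivial
  | succ k ih =>
    rw [List.replicate_succ]
    cases s
    · exact ⟨hd, by rw [swp_same hd]; exact ih⟩
    · exact ⟨hd, by rw [swp_same hd]; exact ih⟩

theorem dr2_tail {k k' : ℕ} {l : List ℕ} {b : Bool} :
    dr2 (k :: k' :: l) b = dr2 (k' :: l) (!b) := by
  simp only [dr2, List.length_cons]
  rcases Nat.mod_two_eq_zero_or_one l.length with h | h
  · rw [if_pos (by omega), if_neg (by omega)]
  · rw [if_neg (by omega), if_pos (by omega), Bool.not_not]

theorem ch_par {s : Bool} {l : List ℕ} (hl : l ≠ []) {i n : ℕ} {b : Bool} (hi : i + 2 ≤ n)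
    {d : ℕ → Bool} (hd : d i = b) (hd' : d (i + 1) = dr2 l b) : ParW (ch s l i b) d := by
  induction l generalizing i n b d with
  | nil => exact absurd rfl hl
  | cons k l ih =>
    cases l with
    | nil =>
      refine rep_par ?_ k
      rw [hd, hd']
      rfl
    | cons k' l =>
      have hp : insD (i + 1) b d i = insD (i + 1) b d (i + 1) := by
        rw [ins_l, ins_lt (by omega), hd]
      have h1 : insD (i + 1) b d (i + 2) = !b := by
        rw [show i + 2 = (i + 1) + 1 by omega, ins_r]
      have h2 : insD (i + 1) b d (i + 2 + 1) = dr2 (k' :: l) (!b) := by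
        rw [show i + 2 + 1 = (i + 1) + 2 by omega, ins_ge (le_refl _), hd', dr2_tail]
      rw [ch]
      show ParW _ (insD (i + 1) b d)
      refine ParW_append (n := n + 2) (rep_below (by omega) hp k) (rep_par hp k) ?_
      exact ParW_append (n := n + 2) (ch_below (by simp) (by omega) h1 h2)
        (ih (by simp) (n := n + 2) (by omega) h1 h2) trivial

theorem expand_par {w : List Bs} {m : ℕ} (hw : Wd (2 * m) w) (ha : Allc w) :
    ParW (expand w) (alt m) := by
  induction w generalizing m with
  | nil => trivial
  | cons p w ih =>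
    cases p with
    | b i =>
      obtain ⟨h1, h2⟩ := hw
      rw [show 2 * m + 2 = 2 * (m + 1) by ring] at h2
      have := ih h2 ha
      rw [← ins_alt h1] at this
      exact this
    | d i =>
      obtain ⟨h1, h2⟩ := hw
      obtain ⟨m1, rfl⟩ : ∃ m1, m = m1 + 1 := ⟨m - 1, by omega⟩
      rw [show 2 * (m1 + 1) - 2 = 2 * m1 by omega] at h2
      have := ih h2 ha
      rw [← del_alt (m := m1) (i := i) (by omega)] at this
      exact this
    | c i ns =>
      obtain ⟨h1, h2⟩ := hw
      have hne : ns ≠ [] := by
        rintro rfl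
        exact absurd ha.1.2.1 (by simp)
      have e : alt m (i + 1) = dr2 ns (par i) := by
        rw [alt_lt (by omega), par_succ, dr2, if_pos ha.1.2.2]
      exact ParW_append (n := 2 * m) (ch_below hne h1 (alt_lt (by omega)) e)
        (ch_par hne h1 (alt_lt (by omega)) e) (ih h2 ha.2)

theorem seif_expand {w : List Bs} (hw : Wd 0 w) (ha : Allc w) :
    seif (expand w) ≤ cc (rd w) + sml w := by
  have h1 := expand_below (m := 0) hw ha
  have h2 := expand_par (m := 0) hw ha
  rw [alt_zero] at h1 h2
  refine seif_le h2 h1 ?_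
  rw [N_expand ha, (good_cc (R := R1) (rd_wd hw)).1, ← pow_add, add_comm]

/-! ### alternation -/

/-- alternation with the labels at the bottom -/
def AltTo : OWord → (ℕ → Bool) → (ℕ → Bool) → (ℕ → Bool) → Prop
  | [], _, s, s' => s' = s
  | birth i b :: w, d, s, s' => ∃ x, AltTo w (insD i b d) (ins i x s) s'
  | death i :: w, d, s, s' => s i = s (i + 1) ∧ AltTo w (delD i d) (del i s) s'
  | pos i :: w, d, s, s' => s i = !d i ∧ s (i + 1) = d (i + 1) ∧
      AltTo w (swpD i d) (upd i (!d (i + 1)) (d i) s) s'
  | neg i :: w, d, s, s' => s i = d i ∧ s (i + 1) = !d (i + 1) ∧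
      AltTo w (swpD i d) (upd i (d (i + 1)) (!d i) s) s'

theorem AltTo_from {w : OWord} {d s s' : ℕ → Bool} (h : AltTo w d s s') : AltFrom w d s := by
  induction w generalizing d s with
  | nil => trivial
  | cons p w ih =>
    cases p with
    | birth i b =>
      obtain ⟨x, hx⟩ := h
      exact ⟨x, ih hx⟩
    | death i => exact ⟨h.1, ih h.2⟩
    | pos i => exact ⟨h.1, h.2.1, ih h.2.2⟩
    | neg i => exact ⟨h.1, h.2.1, ih h.2.2⟩

theorem AltTo_append {u w : OWord} {n : ℕ} {d s s1 s' : ℕ → Bool} {r : ℕ × (ℕ → Bool)}
    (hb : below u n d = some r) (hu : AltTo u d s s1) (hw : AltTo w r.2 s1 s') :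
    AltTo (u ++ w) d s s' := by
  induction u generalizing n d s with
  | nil =>
    obtain rfl := bl_nil hb
    obtain rfl : s1 = s := hu
    exact hw
  | cons p u ih =>
    obtain ⟨r1, h1, h2⟩ := bl_cons hb
    cases p with
    | birth i b =>
      obtain ⟨-, rfl⟩ := bl_birth h1
      obtain ⟨x, hx⟩ := hu
      exact ⟨x, ih h2 hx⟩
    | death i =>
      obtain ⟨-, -, rfl⟩ := bl_death h1
      exact ⟨hu.1, ih h2 hu.2⟩
    | pos i =>
      obtain ⟨-, rfl⟩ := bl_pos h1
      exact ⟨hu.1, hu.2.1, ih h2 hu.2.2⟩
    | neg i =>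
      obtain ⟨-, rfl⟩ := bl_neg h1
      exact ⟨hu.1, hu.2.1, ih h2 hu.2.2⟩

theorem upd_same {i : ℕ} {a b : Bool} {s : ℕ → Bool} (h1 : s i = a) (h2 : s (i + 1) = b) :
    upd i a b s = s := by
  funext k
  simp only [upd]
  split_ifs with h3 h4
  · rw [h3, h1]
  · rw [h4, h2]
  · rfl

theorem rep_alt {s : Bool} {i : ℕ} {d u : ℕ → Bool} (hd : d i = d (i + 1))
    (h1 : u i = xor (d i) s) (h2 : u (i + 1) = !(xor (d i) s)) (k : ℕ) :
    AltTo (List.replicate k (cx s i)) d u u := by
  induction k with
  | zero => rfl
  | succ k ih =>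
    rw [List.replicate_succ]
    cases s
    · rw [Bool.xor_false] at h1 h2
      refine ⟨h1, by rw [h2, hd], ?_⟩
      rw [swp_same hd, upd_same (by rw [h1, hd]) h2]
      exact ih
    · rw [Bool.xor_true] at h1 h2
      rw [Bool.not_not] at h2
      refine ⟨h1, by rw [h2, hd], ?_⟩
      rw [swp_same hd, upd_same (by rw [h1, hd]) h2]
      exact ih

theorem ch_alt {s : Bool} {l : List ℕ} (hl : l ≠ []) {i n : ℕ} {b : Bool} (hi : i + 2 ≤ n)
    {d u : ℕ → Bool} (hd : d i = b) (hd' : d (i + 1) = dr2 l b) (h1 : u i = xor b s)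
    (h2 : u (i + 1) = !(xor (dr2 l b) s)) : AltTo (ch s l i b) d u u := by
  induction l generalizing i n b d u with
  | nil => exact absurd rfl hl
  | cons k l ih =>
    cases l with
    | nil =>
      have e : dr2 [k] b = b := rfl
      rw [e] at hd' h2
      refine rep_alt ?_ ?_ ?_ k
      · rw [hd, hd']
      · rw [hd, h1]
      · rw [hd, h2]
    | cons k' l =>
      have hp : insD (i + 1) b d i = insD (i + 1) b d (i + 1) := by
        rw [ins_l, ins_lt (by omega), hd]
      have hb : insD (i + 1) b d i = b := by rw [ins_lt (by omega), hd]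
      have h3 : insD (i + 1) b d (i + 2) = !b := by
        rw [show i + 2 = (i + 1) + 1 by omega, ins_r]
      have h4 : insD (i + 1) b d (i + 2 + 1) = dr2 (k' :: l) (!b) := by
        rw [show i + 2 + 1 = (i + 1) + 2 by omega, ins_ge (le_refl _), hd', dr2_tail]
      set x : Bool := !(xor b s) with hx
      set u1 := ins (i + 1) x u with hu1
      have g0 : u1 i = xor b s := by
        rw [hu1]
        simp only [ins]
        rw [if_pos (by omega), h1]
      have g1 : u1 (i + 1) = x := ins_at _ _ _
      have g2 : u1 (i + 2) = xor (!b) s := by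
        rw [hu1, show i + 2 = i + 1 + 1 by ring, ins_at1, hx]
        cases b <;> cases s <;> rfl
      have g3 : u1 (i + 2 + 1) = !(xor (dr2 (k' :: l) (!b)) s) := by
        rw [hu1]
        simp only [ins]
        rw [if_neg (by omega), if_neg (by omega), ← dr2_tail, ← h2]
        rfl
      rw [ch]
      refine ⟨x, ?_⟩
      refine AltTo_append (n := n + 2) (rep_below (by omega) hp k)
        (rep_alt hp (by rw [hb]; exact g0) (by rw [hb]; exact g1) k) ?_
      refine AltTo_append (n := n + 2) (ch_below (by simp) (by omega) h3 h4)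
        (ih (by simp) (n := n + 2) (by omega) h3 h4 g2 g3) ?_
      refine ⟨?_, ?_⟩
      · rw [ins_at, ins_at1]
      · show u = del (i + 1) (ins (i + 1) x u)
        rw [del_ins']

theorem ins_const (i : ℕ) (x : Bool) : ins i x (fun _ => x) = fun _ => x := by
  funext k
  simp only [ins]
  split_ifs <;> rfl

theorem del_const (i : ℕ) (x : Bool) : del i (fun _ => x) = fun _ => x := by
  funext k
  simp only [del]
  split_ifs <;> rfl

theorem expand_alt {w : List Bs} {m : ℕ} (hw : Wd (2 * m) w) (ha : Allc w) :
    AltTo (expand w) (alt m) (fun _ => true) (fun _ => true) := by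
  induction w generalizing m with
  | nil => rfl
  | cons p w ih =>
    cases p with
    | b i =>
      obtain ⟨h1, h2⟩ := hw
      rw [show 2 * m + 2 = 2 * (m + 1) by ring] at h2
      have := ih h2 ha
      rw [← ins_alt h1] at this
      refine ⟨true, ?_⟩
      rw [ins_const]
      exact this
    | d i =>
      obtain ⟨h1, h2⟩ := hw
      obtain ⟨m1, rfl⟩ : ∃ m1, m = m1 + 1 := ⟨m - 1, by omega⟩
      rw [show 2 * (m1 + 1) - 2 = 2 * m1 by omega] at h2
      have := ih h2 ha
      rw [← del_alt (m := m1) (i := i) (by omega)] at this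
      exact ⟨rfl, by rw [del_const]; exact this⟩
    | c i ns =>
      obtain ⟨h1, h2⟩ := hw
      have hne : ns ≠ [] := by
        rintro rfl
        exact absurd ha.1.2.1 (by simp)
      have e : alt m (i + 1) = dr2 ns (par i) := by
        rw [alt_lt (by omega), par_succ, dr2, if_pos ha.1.2.2]
      refine AltTo_append (n := 2 * m) (ch_below hne h1 (alt_lt (by omega)) e)
        (ch_alt hne h1 (alt_lt (by omega)) e ?_ ?_) (ih h2 ha.2)
      · cases par i <;> rfl
      · rw [dr2, if_pos ha.1.2.2]
        cases par i <;> rfl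

/-- the diagrams of chains are alternating -/
theorem alternating_expand {w : List Bs} (hw : Wd 0 w) (ha : Allc w) :
    Alternating (expand w) := by
  have := AltTo_from (expand_alt (m := 0) hw ha)
  rw [alt_zero] at this
  exact ⟨_, this⟩

end

end Run7.h849
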