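import Pool.Agent.Helper454.Wh.Defs

/-!
# The definitions used in the statement

1. Circuits and the cycle index of a graph, Seifert circles, the Seifert graph, alternating
   diagrams, closed braids.
2. Diagrams made of base circles and chains.

Oriented link diagrams are the sliced diagrams of `Pool.Agent.Helper454.Wh.Defs`: lists of maxima
`birth i b`, minima `death i` and crossings `pos i`, `neg i`, read from top to bottom; in `pos i`
the strand from top right to bottom left is the upper one, in `neg i` the other one.
-/

set_option autoImplicit false

namespace Run7.h849

open Pool.Agent.Helper454.Wh (insD delD swpD noD dirs OPiece OWord below)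
open Pool.Agent.Helper454.Wh.OPiece (birth death pos neg)

/-! ### multigraphs and the cycle index -/

/-- Graphs, multiple edges and loops allowed: `edges` is the set of the edges, an edge `e` joins
`src e` and `tgt e`. -/
structure MG (V E : Type) where
  edges : Set E
  src : E → V
  tgt : E → V

/-- `C` is the set of the edges of a cycle: of the edges `e 0, ..., e (n - 1)`, all different, where
`e j` joins `v j` and `v (j + 1)`, and `v 0, ..., v (n - 1)` are different and `v n = v 0`. -/
def MG.Circuit {V E : Type} (G : MG V E) (C : Set E) : Prop :=
  ∃ (n : ℕ) (v : ℕ → V) (e : ℕ → E), 0 < n ∧ v n = v 0 ∧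
    (∀ j < n, e j ∈ G.edges ∧ ((G.src (e j) = v j ∧ G.tgt (e j) = v (j + 1)) ∨
      (G.tgt (e j) = v j ∧ G.src (e j) = v (j + 1)))) ∧
    (∀ j < n, ∀ k < n, v j = v k → j = k) ∧ (∀ j < n, ∀ k < n, e j = e k → j = k) ∧
    C = {x | ∃ j < n, e j = x}

/-- The cycle index: the greatest number of edges in a set `X` which contains less than one half
of the edges of every circuit. -/
noncomputable def MG.ind {V E : Type} (G : MG V E) : ℕ :=
  sSup {k | ∃ X : Set E, X ⊆ G.edges ∧ X.ncard = k ∧
    ∀ C, G.Circuit C → 2 * (X ∩ C).ncard < C.ncard}

/-! ### Seifert circles -/

/-- the piece number `e.1` of `D` is a crossing of the strands `e.2` and `e.2 + 1` -/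
def IsCr (D : OWord) (e : ℕ × ℕ) : Prop := D[e.1]? = some (pos e.2) ∨ D[e.1]? = some (neg e.2)

/-- The pair `(t, k)` stands for the point of the strand `k` just above the piece number `t` of
`D` (or at the bottom, for `t = D.length`). Such a pair is a point of `D` if there are more than
`k` strands at this level. -/
def IsPt (D : OWord) (p : ℕ × ℕ) : Prop :=
  p.1 ≤ D.length ∧ ∃ s, below (D.take p.1) 0 noD = some s ∧ p.2 < s.1

/-- Two points are joined by a piece of `D` after all crossings have been smoothed in the way
which respects the directions: at a crossing of two strands with the same direction, each of them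
goes straight down, otherwise there are an arc above and an arc below. -/
inductive Sm (D : OWord) : ℕ × ℕ → ℕ × ℕ → Prop
  | birthArc (t i : ℕ) (b : Bool) : D[t]? = some (birth i b) → Sm D (t + 1, i) (t + 1, i + 1)
  | birthLeft (t i k : ℕ) (b : Bool) : D[t]? = some (birth i b) → k < i → Sm D (t, k) (t + 1, k)
  | birthRight (t i k : ℕ) (b : Bool) : D[t]? = some (birth i b) → i ≤ k →
      Sm D (t, k) (t + 1, k + 2)
  | deathArc (t i : ℕ) : D[t]? = some (death i) → Sm D (t, i) (t, i + 1)
  | deathLeft (t i k : ℕ) : D[t]? = some (death i) → k < i → Sm D (t, k) (t + 1, k)
  | deathRight (t i k : ℕ) : D[t]? = some (death i) → i ≤ k → Sm D (t, k + 2) (t + 1, k)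
  | crossOther (t i k : ℕ) : IsCr D (t, i) → k ≠ i → k ≠ i + 1 → Sm D (t, k) (t + 1, k)
  | crossPar (t i k : ℕ) : IsCr D (t, i) → dirs (D.take t) i = dirs (D.take t) (i + 1) →
      (k = i ∨ k = i + 1) → Sm D (t, k) (t + 1, k)
  | crossTop (t i : ℕ) : IsCr D (t, i) → dirs (D.take t) i ≠ dirs (D.take t) (i + 1) →
      Sm D (t, i) (t, i + 1)
  | crossBot (t i : ℕ) : IsCr D (t, i) → dirs (D.take t) i ≠ dirs (D.take t) (i + 1) →
      Sm D (t + 1, i) (t + 1, i + 1)

/-- the Seifert circle through a point, as a set of points -/
def circ (D : OWord) (p : ℕ × ℕ) : Set (ℕ × ℕ) := {q | Relation.EqvGen (Sm D) p q}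

/-- the number of the Seifert circles of `D` -/
noncomputable def seif (D : OWord) : ℕ := {c | ∃ p, IsPt D p ∧ c = circ D p}.ncard

/-- The Seifert graph: the vertices are the Seifert circles, the edges are the crossings; a
crossing joins the Seifert circle through its top left corner and the one through its bottom right
corner. -/
def sgr (D : OWord) : MG (Set (ℕ × ℕ)) (ℕ × ℕ) where
  edges := {e | IsCr D e}
  src e := circ D e
  tgt e := circ D (e.1 + 1, e.2 + 1)

/-! ### alternating diagrams -/

/-- two new values at the places `i` and `i + 1` -/
def upd (i : ℕ) (a b : Bool) (s : ℕ → Bool) : ℕ → Bool := fun k =>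
  if k = i then a else if k = i + 1 then b else s k

/-- Reading a diagram from above: the strands have the directions `d` and labels `s`. The label of
a point says whether the next crossing which is met from there, in the direction of the strand, is
passed on the upper strand (`true`) or on the lower strand (`false`). It has to be `true` just before
an upper passage and `false` just after it, and the other way for a lower passage. -/
def AltFrom : OWord → (ℕ → Bool) → (ℕ → Bool) → Prop
  | [], _, _ => True
  | birth i b :: w, d, s => ∃ x, AltFrom w (insD i b d)
      (fun k => if k < i then s k else if k < i + 2 then x else s (k - 2))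
  | death i :: w, d, s => s i = s (i + 1) ∧ AltFrom w (delD i d)
      (fun k => if k < i then s k else s (k + 2))
  | pos i :: w, d, s => s i = !d i ∧ s (i + 1) = d (i + 1) ∧
      AltFrom w (swpD i d) (upd i (!d (i + 1)) (d i) s)
  | neg i :: w, d, s => s i = d i ∧ s (i + 1) = !d (i + 1) ∧
      AltFrom w (swpD i d) (upd i (d (i + 1)) (!d i) s)

/-- alternating diagrams -/
def Alternating (D : OWord) : Prop := ∃ s, AltFrom D noD s

/-! ### closed braids -/

/-- the crossing of the strands `i` and `i + 1`: `pos i` for `s = true`, `neg i` for `s = false` -/
def cx (s : Bool) (i : ℕ) : OPiece := if s then pos i else neg i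

/-- A closed braid: `m` strands directed downwards, with the crossings of the braid word `α`
(`(i, true)`: the positive crossing of the strands `i` and `i + 1`, `(i, false)`: the negative
one), closed by `m` nested arcs on the right. -/
def clo (m : ℕ) (α : List (ℕ × Bool)) : OWord :=
  (List.range m).map (fun j => birth j true) ++ α.map (fun g => cx g.2 g.1) ++
    (List.range m).reverse.map death

/-- a braid word on `m` strands -/
def BraidWord (m : ℕ) (α : List (ℕ × Bool)) : Prop := ∀ g ∈ α, g.1 + 1 < m

/-! ### chains and the diagrams made of them -/

/-- The strands `i` and `i + 1`, with the direction `b` for the first one, joined by a chain: the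
numbers in the list are the numbers of the crossings of consecutive twisted bands; between two bands
there is a small circle (`birth (i + 1)` ... `death (i + 1)`). All crossings have the same sign:
they are positive for `s = true`. -/
def ch (s : Bool) : List ℕ → ℕ → Bool → OWord
  | [], _, _ => []
  | [n], i, _ => List.replicate n (cx s i)
  | n :: m :: l, i, b => birth (i + 1) b :: (List.replicate n (cx s i) ++
      (ch s (m :: l) (i + 2) (!b) ++ [death (i + 1)]))

/-- Base diagrams, read from top to bottom: `b i` is a maximum with the new strands `i` and
`i + 1`, `d i` is a minimum which joins the strands `i` and `i + 1`, and `c i ns` stands for a chain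
between the strands `i` and `i + 1`. The base circles are the curves made of the maxima and
minima. -/
inductive Bs : Type
  | b (i : ℕ) : Bs
  | d (i : ℕ) : Bs
  | c (i : ℕ) (ns : List ℕ) : Bs

/-- the base diagram fits below `n` strands, and has no strands at its bottom -/
def Wd : ℕ → List Bs → Prop
  | n, [] => n = 0
  | n, .b i :: w => i ≤ n ∧ Wd (n + 2) w
  | n, .d i :: w => i + 2 ≤ n ∧ Wd (n - 2) w
  | n, .c i _ :: w => i + 2 ≤ n ∧ Wd n w

/-- the condition on the numbers of the crossings of the bands of a chain: the number of the bands
is even and not zero, and every band has at least one crossing -/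
def Cok (ns : List ℕ) : Prop := (∀ n ∈ ns, 1 ≤ n) ∧ 2 ≤ ns.length ∧ ns.length % 2 = 0

/-- all chains satisfy this condition -/
def Allc : List Bs → Prop
  | [] => True
  | .b _ :: w => Allc w
  | .d _ :: w => Allc w
  | .c _ ns :: w => Cok ns ∧ Allc w

/-- even positions are directed downwards -/
def par (i : ℕ) : Bool := i % 2 == 0

/-- The diagram given by a base diagram: the base strands in even positions are directed
downwards, the others upwards; the chains in even positions have negative crossings, the others
positive crossings. -/
def expand : List Bs → OWord
  | [] => []
  | .b i :: w => birth i (par i) :: expand w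
  | .d i :: w => death i :: expand w
  | .c i ns :: w => ch (!par i) ns i (par i) ++ expand w

/-- the number of the bands with at least two crossings -/
def hv (ns : List ℕ) : ℕ := ns.countP (fun n => decide (2 ≤ n))

/-- light chains: at most half of the bands have at least two crossings -/
def light (ns : List ℕ) : Bool := decide (2 * hv ns ≤ ns.length)

/-- two new strands of the colour `x` -/
def ins (i : ℕ) (x : Bool) (s : ℕ → Bool) : ℕ → Bool := fun k =>
  if k < i then s k else if k < i + 2 then x else s (k - 2)

/-- two strands disappear -/
def del (i : ℕ) (s : ℕ → Bool) : ℕ → Bool := fun k => if k < i then s k else s (k + 2)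

/-- the colour `false` everywhere -/
def z0 : ℕ → Bool := fun _ => false

/-- The base circles (and the open arcs, if a part of a base diagram is considered) can be coloured
with two colours such that the strands have the colours `s` at the top and `s'` at the bottom and
every light chain joins strands of equal colours. -/
def Rc : List Bs → (ℕ → Bool) → (ℕ → Bool) → Prop
  | [], s, s' => s' = s
  | .b i :: w, s, s' => ∃ x, Rc w (ins i x s) s'
  | .d i :: w, s, s' => s i = s (i + 1) ∧ Rc w (del i s) s'
  | .c i ns :: w, s, s' => (light ns = true → s i = s (i + 1)) ∧ Rc w s s'

/-- Consider the graph whose vertices are the base circles and whose edges are the light chains.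
The condition: a chain for which less than half of the bands have at least two crossings is never a
bridge of this graph, that is, in every colouring of the base circles in which all other light
chains join equal colours it joins equal colours, too. Here `u` gives the colours at the level of the
chain. -/
def NBr (w : List Bs) : Prop :=
  ∀ (x : List Bs) (i : ℕ) (ns : List ℕ) (y : List Bs), w = x ++ .c i ns :: y →
    2 * hv ns < ns.length → ∀ u s, Rc x z0 u → Rc y u s → u i = u (i + 1)

end Run7.h849
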