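import Mathlib
import Pool.Agent.Run7.h849.Dfn

/-!
# Two-colourings of crossingless sliced diagrams

Words in maxima `b i` and minima `d i`; the number `N w s` of the two-colourings of the curves of `w`
which have the colours `s` at the top; how it changes when two strands are reconnected.
-/

set_option autoImplicit false

namespace Run7.h849

/-- a maximum or a minimum -/
inductive Pc : Type
  | b (i : ℕ) : Pc
  | d (i : ℕ) : Pc

/-- the number of strands below -/
def Pc.wd : Pc → ℕ → Option ℕ
  | .b i, n => if i ≤ n then some (n + 2) else none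
  | .d i, n => if i + 2 ≤ n then some (n - 2) else none

/-- the number of strands below -/
def cwd : List Pc → ℕ → Option ℕ
  | [], n => some n
  | p :: w, n => (p.wd n).bind (cwd w)

/-- the sum of two colourings -/
def xo (s t : ℕ → Bool) : ℕ → Bool := fun k => xor (s k) (t k)

/-- the number of colourings of `w` with the colours `s` at the top -/
def N : List Pc → (ℕ → Bool) → ℕ
  | [], _ => 1
  | .b i :: w, s => N w (ins i false s) + N w (ins i true s)
  | .d i :: w, s => if s i = s (i + 1) then N w (del i s) else 0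

/-- the colourings of the strands at the bottom -/
def ends : List Pc → (ℕ → Bool) → List (ℕ → Bool)
  | [], s => [s]
  | .b i :: w, s => ends w (ins i false s) ++ ends w (ins i true s)
  | .d i :: w, s => if s i = s (i + 1) then ends w (del i s) else []

/-- some colouring of `w` has the colours `s` at the top and `s'` at the bottom -/
def Rch : List Pc → (ℕ → Bool) → (ℕ → Bool) → Prop
  | [], s, s' => s' = s
  | .b i :: w, s, s' => ∃ x, Rch w (ins i x s) s'
  | .d i :: w, s, s' => s i = s (i + 1) ∧ Rch w (del i s) s'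

theorem mem_ends {w : List Pc} {s s' : ℕ → Bool} : s' ∈ ends w s ↔ Rch w s s' := by
  induction w generalizing s with
  | nil => simp [ends, Rch]
  | cons p w ih =>
    cases p with
    | b i =>
      simp only [ends, Rch, List.mem_append, ih]
      constructor
      · rintro (h | h)
        · exact ⟨false, h⟩
        · exact ⟨true, h⟩
      · rintro ⟨x, h⟩
        cases x
        · exact Or.inl h
        · exact Or.inr h
    | d i =>
      simp only [ends, Rch]
      split_ifs with h
      · simp [ih, h]
      · simp [h]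

theorem N_ne {w : List Pc} {s : ℕ → Bool} : N w s ≠ 0 ↔ ∃ s', Rch w s s' := by
  induction w generalizing s with
  | nil => simp [N, Rch]
  | cons p w ih =>
    cases p with
    | b i =>
      have h1 := ih (s := ins i false s)
      have h2 := ih (s := ins i true s)
      simp only [N, Rch]
      constructor
      · intro h
        by_cases h3 : N w (ins i false s) = 0
        · obtain ⟨s', h4⟩ := h2.1 (by omega)
          exact ⟨s', true, h4⟩
        · obtain ⟨s', h4⟩ := h1.1 h3
          exact ⟨s', false, h4⟩
      · rintro ⟨s', x, h⟩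
        cases x
        · have := h1.2 ⟨s', h⟩
          omega
        · have := h2.2 ⟨s', h⟩
          omega
    | d i =>
      simp only [N, Rch]
      split_ifs with h
      · rw [ih]
        simp [h]
      · simp [h]

theorem N_append (u w : List Pc) (s : ℕ → Bool) :
    N (u ++ w) s = ((ends u s).map (N w)).sum := by
  induction u generalizing s with
  | nil => simp [ends]
  | cons p u ih =>
    cases p with
    | b i => simp [ends, N, ih]
    | d i =>
      simp only [List.cons_append, ends, N]
      split_ifs with h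
      · exact ih _
      · simp

theorem N_congr {w w' : List Pc} (h : ∀ s, N w s = N w' s) (u : List Pc) (s : ℕ → Bool) :
    N (u ++ w) s = N (u ++ w') s := by
  rw [N_append, N_append]
  congr 1
  exact List.map_congr_left fun t _ => h t

theorem Rch_append {u w : List Pc} {s s' : ℕ → Bool} :
    Rch (u ++ w) s s' ↔ ∃ t, Rch u s t ∧ Rch w t s' := by
  induction u generalizing s with
  | nil => simp [Rch]
  | cons p u ih =>
    cases p with
    | b i =>
      simp only [List.cons_append, Rch, ih]
      constructor
      · rintro ⟨x, t, h1, h2⟩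
        exact ⟨t, ⟨x, h1⟩, h2⟩
      · rintro ⟨t, ⟨x, h1⟩, h2⟩
        exact ⟨x, t, h1, h2⟩
    | d i =>
      simp only [List.cons_append, Rch, ih]
      constructor
      · rintro ⟨h, t, h1, h2⟩
        exact ⟨t, ⟨h, h1⟩, h2⟩
      · rintro ⟨t, ⟨h, h1⟩, h2⟩
        exact ⟨h, t, h1, h2⟩

/-! ### local identities -/

theorem del_ins' (i : ℕ) (x : Bool) (s : ℕ → Bool) : del i (ins i x s) = s := by
  funext k
  simp only [del, ins]
  split_ifs <;> first | rfl | omega

theorem ins_at (i : ℕ) (x : Bool) (s : ℕ → Bool) : ins i x s i = x := by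
  simp [ins]

theorem ins_at1 (i : ℕ) (x : Bool) (s : ℕ → Bool) : ins i x s (i + 1) = x := by
  simp [ins]

theorem ins_del {i : ℕ} {s : ℕ → Bool} (h : s i = s (i + 1)) : ins i (s i) (del i s) = s := by
  funext k
  simp only [del, ins]
  split_ifs with h1 h2 h3
  · rfl
  · rcases (by omega : k = i ∨ k = i + 1) with rfl | rfl
    · rfl
    · exact h
  · omega
  · congr 1
    omega

theorem xo_ins (i : ℕ) (x y : Bool) (s t : ℕ → Bool) :
    xo (ins i x s) (ins i y t) = ins i (xor x y) (xo s t) := by
  funext k
  simp only [xo, ins]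
  split_ifs <;> rfl

theorem xo_del (i : ℕ) (s t : ℕ → Bool) : xo (del i s) (del i t) = del i (xo s t) := by
  funext k
  simp only [xo, del]
  split_ifs <;> rfl

theorem xo_z0 : xo z0 z0 = z0 := by
  funext k
  rfl

theorem xo_eq_iff {i : ℕ} {s t : ℕ → Bool} (h : t i = t (i + 1)) :
    (xo s t i = xo s t (i + 1)) ↔ (s i = s (i + 1)) := by
  simp only [xo, h]
  cases s i <;> cases s (i + 1) <;> cases t (i + 1) <;> simp

theorem xo_ne_iff {i : ℕ} {s t : ℕ → Bool} (h : t i ≠ t (i + 1)) :
    (xo s t i = xo s t (i + 1)) ↔ (s i ≠ s (i + 1)) := by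
  simp only [xo]
  revert h
  cases s i <;> cases s (i + 1) <;> cases t i <;> cases t (i + 1) <;> simp

/-- adding a colouring of `x` permutes the colourings of `x` -/
theorem sum_xo {x : List Pc} {s t u : ℕ → Bool} (hu : u ∈ ends x t) (g : (ℕ → Bool) → ℕ) :
    ((ends x s).map (fun v => g (xo v u))).sum = ((ends x (xo s t)).map g).sum := by
  induction x generalizing s t with
  | nil =>
    simp only [ends, List.mem_singleton] at hu
    subst hu
    simp [ends]
  | cons p x ih =>
    cases p with
    | b i =>
      simp only [ends, List.mem_append, List.map_append, List.sum_append] at hu ⊢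
      rcases hu with hu | hu
      · rw [ih (s := ins i false s) hu, ih (s := ins i true s) hu, xo_ins, xo_ins]
        rfl
      · rw [ih (s := ins i false s) hu, ih (s := ins i true s) hu, xo_ins, xo_ins, add_comm]
        rfl
    | d i =>
      simp only [ends] at hu ⊢
      by_cases h : t i = t (i + 1)
      · rw [if_pos h] at hu
        by_cases h2 : s i = s (i + 1)
        · rw [if_pos h2, if_pos ((xo_eq_iff h).2 h2), ih hu, xo_del]
        · rw [if_neg h2, if_neg (fun h3 => h2 ((xo_eq_iff h).1 h3))]
          rfl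
      · rw [if_neg h] at hu
        exact absurd hu (by simp)

/-- adding a colouring of `y` does not change the number of the colourings -/
theorem N_xo {y : List Pc} {s t : ℕ → Bool} (h : N y t ≠ 0) : N y (xo s t) = N y s := by
  induction y generalizing s t with
  | nil => rfl
  | cons p y ih =>
    cases p with
    | b i =>
      simp only [N] at h ⊢
      by_cases h1 : N y (ins i false t) = 0
      · have h2 : N y (ins i true t) ≠ 0 := by omega
        have e1 := ih (s := ins i false s) h2
        have e2 := ih (s := ins i true s) h2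
        rw [xo_ins] at e1 e2
        rw [← e1, ← e2, add_comm]
        rfl
      · have e1 := ih (s := ins i false s) h1
        have e2 := ih (s := ins i true s) h1
        rw [xo_ins] at e1 e2
        rw [← e1, ← e2]
        rfl
    | d i =>
      simp only [N] at h ⊢
      split_ifs at h with h1
      · by_cases h2 : s i = s (i + 1)
        · rw [if_pos ((xo_eq_iff h1).2 h2), if_pos h2, ← xo_del, ih h]
        · rw [if_neg h2, if_neg (fun h3 => h2 ((xo_eq_iff h1).1 h3))]
      · exact absurd rfl h

/-- the piece `K` -/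
def KK (i : ℕ) : List Pc := [.d i, .b i]

/-- the sum over the colourings with equal colours at `i` -/
def SA (x y : List Pc) (i : ℕ) : ℕ :=
  ((ends x z0).map (fun u => if u i = u (i + 1) then N y u else 0)).sum

def SB (x y : List Pc) (i : ℕ) : ℕ :=
  ((ends x z0).map (fun u => if u i = u (i + 1) then 0 else N y u)).sum

/-- the other colour for both strands -/
def flp (i : ℕ) (u : ℕ → Bool) : ℕ → Bool := ins i (!(u i)) (del i u)

def SC (x y : List Pc) (i : ℕ) : ℕ :=
  ((ends x z0).map (fun u => if u i = u (i + 1) then N y (flp i u) else 0)).sum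

theorem N_SAB (x y : List Pc) (i : ℕ) : N (x ++ y) z0 = SA x y i + SB x y i := by
  rw [N_append, SA, SB, ← List.sum_map_add]
  congr 1
  refine List.map_congr_left fun u _ => ?_
  split_ifs <;> simp

theorem N_SAC (x y : List Pc) (i : ℕ) : N (x ++ KK i ++ y) z0 = SA x y i + SC x y i := by
  rw [List.append_assoc, N_append, SA, SC, ← List.sum_map_add]
  congr 1
  refine List.map_congr_left fun u _ => ?_
  simp only [KK, List.cons_append, List.nil_append, N]
  split_ifs with h
  · have e : ins i (u i) (del i u) = u := ins_del h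
    cases hu : u i with
    | false =>
      rw [hu] at e
      rw [e, flp, hu]
      rfl
    | true =>
      rw [hu] at e
      rw [e, flp, hu, add_comm]
      rfl
  · rfl

theorem SB_of {x y : List Pc} {i : ℕ} {u : ℕ → Bool} (hu : u ∈ ends x z0)
    (hi : u i ≠ u (i + 1)) (hy : N y u ≠ 0) : SB x y i = SA x y i := by
  have h := sum_xo (s := z0) hu (fun v => if v i = v (i + 1) then N y v else 0)
  rw [xo_z0] at h
  rw [SA, ← h, SB]
  congr 1
  refine List.map_congr_left fun v _ => ?_
  by_cases h1 : v i = v (i + 1)
  · rw [if_pos h1, if_neg (fun h2 => (xo_ne_iff hi).1 h2 h1)]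
  · rw [if_neg h1, if_pos ((xo_ne_iff hi).2 h1), N_xo hy]

theorem flp_xo {i : ℕ} {u v : ℕ → Bool} (hu : u i = u (i + 1)) (hv : v i = v (i + 1)) :
    flp i (xo v u) = xo v (flp i u) := by
  funext k
  simp only [flp, xo, ins, del]
  split_ifs with h1 h2 h3
  · rfl
  · rcases (by omega : k = i ∨ k = i + 1) with rfl | rfl
    · cases v k <;> cases u k <;> rfl
    · rw [← hv]
      cases v i <;> cases u i <;> rfl
  · omega
  · rw [show k - 2 + 2 = k by omega]

theorem SC_of {x y : List Pc} {i : ℕ} {u : ℕ → Bool} (hu : u ∈ ends x z0)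
    (hi : u i = u (i + 1)) (hy : N y (flp i u) ≠ 0) : SC x y i = SA x y i := by
  have h := sum_xo (s := z0) hu (fun v => if v i = v (i + 1) then N y (flp i v) else 0)
  rw [xo_z0] at h
  rw [SC, ← h, SA]
  congr 1
  refine List.map_congr_left fun v _ => ?_
  by_cases h1 : v i = v (i + 1)
  · rw [if_pos ((xo_eq_iff hi).2 h1), if_pos h1, flp_xo hi h1, N_xo hy]
  · rw [if_neg h1, if_neg (fun h2 => h1 ((xo_eq_iff hi).1 h2))]

theorem sum_zero_of {α : Type} {l : List α} {g : α → ℕ} (h : ∀ u ∈ l, g u = 0) :
    (l.map g).sum = 0 := by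
  induction l with
  | nil => rfl
  | cons a l ih =>
    rw [List.map_cons, List.sum_cons, h a (by simp), ih fun u hu => h u (by simp [hu])]

theorem sum_pos_of {α : Type} {l : List α} {g : α → ℕ} {u : α} (hu : u ∈ l) (h : g u ≠ 0) :
    (l.map g).sum ≠ 0 := by
  intro h0
  have : g u ≤ (l.map g).sum := List.single_le_sum (by simp) _ (List.mem_map_of_mem hu)
  omega

theorem SB_zero_or (x y : List Pc) (i : ℕ) : SB x y i = 0 ∨ SB x y i = SA x y i := by
  by_cases h : ∃ u ∈ ends x z0, u i ≠ u (i + 1) ∧ N y u ≠ 0
  · obtain ⟨u, h1, h2, h3⟩ := h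
    exact Or.inr (SB_of h1 h2 h3)
  · left
    refine sum_zero_of fun u hu => ?_
    split_ifs with h1
    · rfl
    · by_contra h2
      exact h ⟨u, hu, h1, h2⟩

theorem SC_zero_or (x y : List Pc) (i : ℕ) : SC x y i = 0 ∨ SC x y i = SA x y i := by
  by_cases h : ∃ u ∈ ends x z0, u i = u (i + 1) ∧ N y (flp i u) ≠ 0
  · obtain ⟨u, h1, h2, h3⟩ := h
    exact Or.inr (SC_of h1 h2 h3)
  · left
    refine sum_zero_of fun u hu => ?_
    split_ifs with h1
    · by_contra h2
      exact h ⟨u, hu, h1, h2⟩
    · rfl

theorem pow_flip {A B C c c' : ℕ} (h1 : A + B = 2 ^ c) (h2 : A + C = 2 ^ c')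
    (hB : B = 0 ∨ B = A) (hC : C = 0 ∨ C = A) (hp : c % 2 ≠ c' % 2) :
    (B ≠ 0 → c = c' + 1) ∧ (B = 0 → c' = c + 1) := by
  have inj : ∀ a b : ℕ, 2 ^ a = 2 ^ b → a = b := fun a b h => Nat.pow_right_injective (le_refl 2) h
  rcases hB with rfl | rfl
  · rcases hC with rfl | rfl
    · exact absurd (congrArg (· % 2) (inj c c' (by omega))) hp
    · refine ⟨fun h => absurd rfl h, fun _ => ?_⟩
      refine inj _ _ ?_
      rw [pow_succ]
      omega
  · rcases hC with rfl | rfl
    · refine ⟨fun _ => ?_, fun h => ?_⟩
      · refine inj _ _ ?_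
        rw [pow_succ]
        omega
      · subst h
        exact absurd h1 (by positivity)
    · exact absurd (congrArg (· % 2) (inj c c' (by omega))) hp

/-- reconnecting two strands changes the number of curves by `1`, and it is known which case
occurs -/
theorem flip_core {x y : List Pc} {i c c' : ℕ} (h1 : N (x ++ y) z0 = 2 ^ c)
    (h2 : N (x ++ KK i ++ y) z0 = 2 ^ c') (hp : c % 2 ≠ c' % 2) :
    ((∃ u s, Rch x z0 u ∧ Rch y u s ∧ u i ≠ u (i + 1)) → c = c' + 1) ∧
    ((∀ u s, Rch x z0 u → Rch y u s → u i = u (i + 1)) → c' = c + 1) := by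
  rw [N_SAB x y i] at h1
  rw [N_SAC x y i] at h2
  obtain ⟨f1, f2⟩ := pow_flip h1 h2 (SB_zero_or x y i) (SC_zero_or x y i) hp
  constructor
  · rintro ⟨u, s, h3, h4, h5⟩
    refine f1 (sum_pos_of (mem_ends.2 h3) ?_)
    rw [if_neg h5]
    exact N_ne.2 ⟨s, h4⟩
  · intro h
    refine f2 (sum_zero_of fun u hu => ?_)
    split_ifs with h3
    · rfl
    · by_contra h4
      obtain ⟨s, h5⟩ := N_ne.1 h4
      exact h3 (h u s (mem_ends.1 hu) h5)

end Run7.h849
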