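import Pool.Agent.Run7.h849.Ix

/-!
# The Murasugi-Przytycki conjecture for diagrams of chains
-/

set_option autoImplicit false

namespace Run7.h849

open Pool.Agent.Helper454.Wh (insD delD swpD noD dirs OPiece OWord below OClosed OIsotopic)
open Pool.Agent.Helper454.Wh.OPiece (birth death pos neg)
open Pool.Agent.Helper454.Wh.Homf

noncomputable section

theorem balance {x y : List Bs} (ha : Allc y) :
    2 * (sml y : ℤ) - 2 * cX x y = wts y + cL y - 2 * cT x y := by
  induction y generalizing x with
  | nil => rfl
  | cons p y ih =>
    cases p with
    | b i => exact ih ha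
    | d i => exact ih ha
    | c i ns =>
      have h := ih (x := x ++ [Bs.c i ns]) ha.2
      have h2 := ha.1.2
      have h3 := mgn_le x i y
      have h4 := hv_le ns
      rw [sml, cX, wts, cL, cT, rr, wt]
      cases hl : light ns
      · rw [light, decide_eq_false_iff_not] at hl
        simp only [Bool.false_eq_true, if_false]
        push_cast
        omega
      · rw [light, decide_eq_true_eq] at hl
        simp only [if_true]
        push_cast
        omega

/-- The inequality `s(D) - ind(D) ≤ m` for all closed braids with `m` strands isotopic to a diagram
of chains. -/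
theorem main {w : List Bs} (hw : Wd 0 w) (ha : Allc w) (hb : NBr w) {m : ℕ}
    {α : List (ℕ × Bool)} (hα : BraidWord m α) (hi : OIsotopic (expand w) (clo m α)) :
    seif (expand w) ≤ m + (sgr (expand w)).ind := by
  have h1 := lower hw ha hb hα hi
  have h2 := count_ineq (x := []) (y := w) (n := 0) rfl rfl hw
  have h3 := seif_expand hw ha
  have h4 := ind_expand hw ha
  have h5 := balance (x := []) ha
  simp only [rq, List.nil_append] at h2
  omega

theorem closed_expand {w : List Bs} (hw : Wd 0 w) (ha : Allc w) : OClosed (expand w) := by
  have h1 := expand_below (m := 0) hw ha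
  rw [alt_zero] at h1
  rw [OClosed, h1]
  rfl

end

end Run7.h849
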