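import Pool.Agent.Run7.h849.Cnt

/-!
# A lower bound for the index of a diagram of chains
-/

set_option autoImplicit false

namespace Run7.h849

open Pool.Agent.Helper454.Wh (insD delD swpD noD dirs OPiece OWord below OClosed)
open Pool.Agent.Helper454.Wh.OPiece (birth death pos neg)
open Pool.Agent.Helper454.Wh.Homf

noncomputable section

set_option linter.unusedSectionVars false
set_option linter.unusedVariables false

/-- the sum over the crossings of one twisted band -/
def sr (φ : ℕ × ℕ → ℕ) (t i : ℕ) : ℕ → ℕ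
  | 0 => 0
  | n + 1 => φ (t, i) + sr φ (t + 1) i n

/-- the sums for the bands of a chain -/
def sS (φ : ℕ × ℕ → ℕ) : List ℕ → ℕ → ℕ → List ℕ
  | [], _, _ => []
  | [n], i, t => [sr φ t i n]
  | n :: m :: l, i, t => sr φ (t + 1) i n :: sS φ (m :: l) (i + 2) (t + 1 + n)

/-- the sum for the last band -/
def sl (φ : ℕ × ℕ → ℕ) : List ℕ → ℕ → ℕ → ℕ
  | [], _, _ => 0
  | [n], i, t => sr φ t i n
  | n :: m :: l, i, t => sl φ (m :: l) (i + 2) (t + 1 + n)

/-- the sum for the first band -/
def sf (φ : ℕ × ℕ → ℕ) : List ℕ → ℕ → ℕ → ℕ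
  | [], _, _ => 0
  | [n], i, t => sr φ t i n
  | n :: _ :: _, i, t => sr φ (t + 1) i n

theorem sl_mem (φ : ℕ × ℕ → ℕ) {l : List ℕ} (hl : l ≠ []) (i t : ℕ) :
    sl φ l i t ∈ sS φ l i t := by
  induction l generalizing i t with
  | nil => exact absurd rfl hl
  | cons n l ih =>
    cases l with
    | nil => simp [sl, sS]
    | cons m l =>
      rw [sl, sS]
      exact List.mem_cons_of_mem _ (ih (by simp) _ _)

theorem sf_mem (φ : ℕ × ℕ → ℕ) {l : List ℕ} (hl : l ≠ []) (i t : ℕ) :
    sf φ l i t ∈ sS φ l i t := by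
  cases l with
  | nil => exact absurd rfl hl
  | cons n l =>
    cases l with
    | nil => simp [sf, sS]
    | cons m l =>
      rw [sf, sS]
      exact List.mem_cons_self

theorem sS_length (φ : ℕ × ℕ → ℕ) (l : List ℕ) (i t : ℕ) : (sS φ l i t).length = l.length := by
  induction l generalizing i t with
  | nil => rfl
  | cons n l ih =>
    cases l with
    | nil => rfl
    | cons m l => rw [sS, List.length_cons, ih, List.length_cons (as := m :: l)]

theorem tot_rep (φ : ℕ × ℕ → ℕ) (s : Bool) (i n t : ℕ) :
    tot φ (List.replicate n (cx s i)) t = sr φ t i n := by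
  induction n generalizing t with
  | zero => rfl
  | succ n ih =>
    rw [List.replicate_succ, sr, ← ih]
    cases s
    · rfl
    · rfl

theorem tot_ch (φ : ℕ × ℕ → ℕ) (s : Bool) (l : List ℕ) (i t : ℕ) (b : Bool) :
    tot φ (ch s l i b) t = (sS φ l i t).sum := by
  induction l generalizing i t b with
  | nil => rfl
  | cons n l ih =>
    cases l with
    | nil => rw [ch, tot_rep, sS]; simp
    | cons m l =>
      rw [ch, tot, tot_append, tot_append, tot_rep, ih, List.length_replicate, sS, List.sum_cons]
      simp [tot]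

theorem Tj_rep (γ : ℕ × ℕ → ℕ) (s : Bool) (i n t : ℕ) (u : ℕ → Bool) :
    Tj γ (List.replicate n (cx s i)) t u u (if u i = u (i + 1) then 0 else sr γ t i n) := by
  induction n generalizing t with
  | zero => exact ⟨rfl, by simp [sr]⟩
  | succ n ih =>
    rw [List.replicate_succ, sr]
    have key : (if u i = u (i + 1) then 0 else γ (t, i) + sr γ (t + 1) i n) =
        (if u i = u (i + 1) then 0 else γ (t, i)) +
          (if u i = u (i + 1) then 0 else sr γ (t + 1) i n) := by
      split_ifs <;> rfl
    cases s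
    · exact ⟨_, ih (t + 1), key⟩
    · exact ⟨_, ih (t + 1), key⟩

theorem ins_two {i : ℕ} {x : Bool} {u : ℕ → Bool} :
    ins (i + 1) x u i = u i ∧ ins (i + 1) x u (i + 1) = x ∧ ins (i + 1) x u (i + 2) = x ∧
      ins (i + 1) x u (i + 2 + 1) = u (i + 1) := by
  refine ⟨?_, ins_at _ _ _, ins_at1 _ _ _, ?_⟩
  · simp only [ins]
    rw [if_pos (by omega)]
  · simp only [ins]
    rw [if_neg (by omega), if_neg (by omega)]
    rfl

/-- a colouring of a chain from a colouring of its tail -/
theorem Tj_ch_cons {γ : ℕ × ℕ → ℕ} {s : Bool} {n m : ℕ} {l : List ℕ} {i t : ℕ} {b : Bool}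
    {u : ℕ → Bool} (x : Bool) {c : ℕ}
    (h : Tj γ (ch s (m :: l) (i + 2) (!b)) (t + 1 + n) (ins (i + 1) x u) (ins (i + 1) x u) c) :
    Tj γ (ch s (n :: m :: l) i b) t u u ((if u i = x then 0 else sr γ (t + 1) i n) + c) := by
  rw [ch]
  refine ⟨x, ?_⟩
  have h1 := Tj_rep γ s i n (t + 1) (ins (i + 1) x u)
  rw [ins_two.1, ins_two.2.1] at h1
  refine Tj_append h1 ?_
  rw [List.length_replicate, ← add_zero c]
  refine Tj_append h ⟨?_, ?_, rfl⟩
  · rw [ins_two.2.1]
    exact ins_two.2.2.1.symm
  · rw [del_ins']

theorem Tj_ch_last (γ : ℕ × ℕ → ℕ) (s : Bool) {l : List ℕ} (hl : l ≠ []) (i t : ℕ) (b : Bool)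
    (u : ℕ → Bool) : Tj γ (ch s l i b) t u u (if u i = u (i + 1) then 0 else sl γ l i t) := by
  induction l generalizing i t b u with
  | nil => exact absurd rfl hl
  | cons n l ih =>
    cases l with
    | nil => exact Tj_rep γ s i n t u
    | cons m l =>
      have h := ih (by simp) (i + 2) (t + 1 + n) (!b) (ins (i + 1) (u i) u)
      rw [ins_two.2.2.1, ins_two.2.2.2] at h
      have := Tj_ch_cons (u i) h
      rw [if_pos rfl, zero_add] at this
      exact this

theorem Tj_ch_first (γ : ℕ × ℕ → ℕ) (s : Bool) {l : List ℕ} (hl : l ≠ []) (i t : ℕ) (b : Bool)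
    (u : ℕ → Bool) : Tj γ (ch s l i b) t u u (if u i = u (i + 1) then 0 else sf γ l i t) := by
  induction l generalizing i t b u with
  | nil => exact absurd rfl hl
  | cons n l ih =>
    cases l with
    | nil => exact Tj_rep γ s i n t u
    | cons m l =>
      have h := ih (by simp) (i + 2) (t + 1 + n) (!b) (ins (i + 1) (u (i + 1)) u)
      rw [ins_two.2.2.1, ins_two.2.2.2, if_pos rfl] at h
      have := Tj_ch_cons (u (i + 1)) h
      rw [add_zero] at this
      exact this

/-- the sums for all bands have the same parity -/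
theorem par_bands {γ : ℕ × ℕ → ℕ} {s : Bool} {l : List ℕ} (hl : l ≠ []) {i t : ℕ} {b : Bool}
    {u : ℕ → Bool} (hu : u i = u (i + 1))
    (h : ∀ c, Tj γ (ch s l i b) t u u c → c % 2 = 0) :
    ∀ r ∈ sS γ l i t, r % 2 = sl γ l i t % 2 := by
  induction l generalizing i t b u with
  | nil => exact absurd rfl hl
  | cons n l ih =>
    cases l with
    | nil =>
      intro r hr
      rw [sS, List.mem_singleton] at hr
      rw [hr, sl]
    | cons m l =>
      have ht := ih (by simp) (i := i + 2) (t := t + 1 + n) (b := !b)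
        (u := ins (i + 1) (u i) u) (by rw [ins_two.2.2.1, ins_two.2.2.2, hu]) fun c hc => by
          have := h _ (Tj_ch_cons (u i) hc)
          rwa [if_pos rfl, zero_add] at this
      intro r hr
      rw [sS, List.mem_cons] at hr
      rw [sl]
      rcases hr with rfl | hr
      · have h1 := Tj_ch_first γ s (l := m :: l) (by simp) (i + 2) (t + 1 + n) (!b)
          (ins (i + 1) (!(u i)) u)
        rw [ins_two.2.2.1, ins_two.2.2.2, if_neg (by rw [← hu]; cases u i <;> simp)] at h1
        have h2 := h _ (Tj_ch_cons (!(u i)) h1)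
        rw [if_neg (by cases u i <;> simp)] at h2
        have h3 := ht _ (sf_mem γ (l := m :: l) (by simp) (i + 2) (t + 1 + n))
        omega
      · exact ht r hr

/-! ### the chosen crossings of a chain -/

/-- the chosen crossings: the first `r` single crossings -/
def slP : ℕ → List ℕ → ℕ → ℕ → ℕ × ℕ → Prop
  | _, [], _, _, _ => False
  | r, [n], i, t, e => n = 1 ∧ 0 < r ∧ e = (t, i)
  | r, n :: m :: l, i, t, e =>
    if e.1 < t + 1 + n then n = 1 ∧ 0 < r ∧ e = (t + 1, i)
    else slP (if n = 1 then r - 1 else r) (m :: l) (i + 2) (t + 1 + n) e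

theorem ind1_congr {P Q : ℕ × ℕ → Prop} {e : ℕ × ℕ} (h : P e ↔ Q e) : ind1 P e = ind1 Q e := by
  unfold ind1
  by_cases hP : P e
  · rw [if_pos hP, if_pos (h.1 hP)]
  · rw [if_neg hP, if_neg fun q => hP (h.2 q)]

theorem slP_lt {r n m : ℕ} {l : List ℕ} {i t : ℕ} {e : ℕ × ℕ} (h : e.1 < t + 1 + n) :
    slP r (n :: m :: l) i t e ↔ (n = 1 ∧ 0 < r ∧ e = (t + 1, i)) := by
  show (if e.1 < t + 1 + n then n = 1 ∧ 0 < r ∧ e = (t + 1, i)
    else slP (if n = 1 then r - 1 else r) (m :: l) (i + 2) (t + 1 + n) e) ↔ _
  rw [if_pos h]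

theorem slP_ge {r n m : ℕ} {l : List ℕ} {i t : ℕ} {e : ℕ × ℕ} (h : t + 1 + n ≤ e.1) :
    slP r (n :: m :: l) i t e ↔
      slP (if n = 1 then r - 1 else r) (m :: l) (i + 2) (t + 1 + n) e := by
  show (if e.1 < t + 1 + n then n = 1 ∧ 0 < r ∧ e = (t + 1, i)
    else slP (if n = 1 then r - 1 else r) (m :: l) (i + 2) (t + 1 + n) e) ↔ _
  rw [if_neg (by omega)]

/-- the number of the single crossings -/
def sg (ns : List ℕ) : ℕ := ns.countP (fun n => decide (n = 1))

theorem sr_congr {φ ψ : ℕ × ℕ → ℕ} {t i n : ℕ} (h : ∀ j, t ≤ j → j < t + n → φ (j, i) = ψ (j, i)) :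
    sr φ t i n = sr ψ t i n := by
  induction n generalizing t with
  | zero => rfl
  | succ n ih =>
    rw [sr, sr, h t le_rfl (by omega), ih fun j h1 h2 => h j (by omega) (by omega)]

theorem sr_zero {φ : ℕ × ℕ → ℕ} {t i n : ℕ} (h : ∀ j, t ≤ j → j < t + n → φ (j, i) = 0) :
    sr φ t i n = 0 := by
  induction n generalizing t with
  | zero => rfl
  | succ n ih => rw [sr, h t le_rfl (by omega), ih fun j h1 h2 => h j (by omega) (by omega)]

open Classical in
theorem sr_one (P : ℕ × ℕ → Prop) (r t i n : ℕ) :
    sr (ind1 (fun e => (n = 1 ∧ 0 < r ∧ e = (t, i)) ∧ P e)) t i n =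
      if n = 1 ∧ 0 < r then sr (ind1 P) t i n else 0 := by
  by_cases h : n = 1 ∧ 0 < r
  · obtain ⟨rfl, hr⟩ := h
    rw [if_pos ⟨rfl, hr⟩]
    simp [sr, ind1, hr]
  · rw [if_neg h]
    refine sr_zero fun j _ _ => ?_
    rw [ind1, if_neg]
    rintro ⟨⟨h1, h2, -⟩, -⟩
    exact h ⟨h1, h2⟩

theorem sg_cons (n : ℕ) (l : List ℕ) : sg (n :: l) = (if n = 1 then 1 else 0) + sg l := by
  by_cases h : n = 1
  · rw [sg, List.countP_cons_of_pos (by simpa using h), if_pos h, sg, add_comm]
  · rw [sg, List.countP_cons_of_neg (by simpa using h), if_neg h, sg, zero_add]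

/-- the sum over the chosen crossings -/
theorem tot_sel {P : ℕ × ℕ → Prop} {s : Bool} {l : List ℕ} {r i t p : ℕ} {b : Bool} (hp : p < 2)
    (h : ∀ q ∈ sS (ind1 P) l i t, q % 2 = p) (hl : l ≠ []) :
    tot (ind1 (fun e => slP r l i t e ∧ P e)) (ch s l i b) t = p * min r (sg l) := by
  classical
  induction l generalizing r i t b with
  | nil => exact absurd rfl hl
  | cons n l ih =>
    have e1 : ∀ {t : ℕ}, sr (ind1 P) t i n % 2 = p →
        (if n = 1 ∧ 0 < r then sr (ind1 P) t i n else 0) = if n = 1 ∧ 0 < r then p else 0 := by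
      intro t h
      split_ifs with h1
      · obtain ⟨rfl, -⟩ := h1
        simp only [sr, ind1] at h ⊢
        split_ifs at h ⊢ <;> omega
      · rfl
    cases l with
    | nil =>
      rw [ch, tot_rep]
      have e0 := sr_one P r t i n
      simp only [slP]
      rw [e0, e1 (h _ (by simp [sS])), sg_cons]
      simp only [sg, List.countP_nil, add_zero]
      by_cases h1 : n = 1
      · by_cases h2 : 0 < r
        · rw [if_pos ⟨h1, h2⟩, if_pos h1, Nat.min_eq_right (by omega), mul_one]
        · rw [if_neg (fun h => h2 h.2), if_pos h1, show r = 0 by omega]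
          simp
      · rw [if_neg (fun h => h1 h.1), if_neg h1]
        simp
    | cons m l =>
      rw [ch, tot, tot_append, tot_append, tot_rep, List.length_replicate]
      have f1 : sr (ind1 (fun e => slP r (n :: m :: l) i t e ∧ P e)) (t + 1) i n =
          if n = 1 ∧ 0 < r then p else 0 := by
        rw [← e1 (t := t + 1) (h _ (by simp [sS])), ← sr_one P r (t + 1) i n]
        refine sr_congr fun j h1 h2 => ind1_congr ?_
        rw [slP_lt (show (j, i).1 < t + 1 + n by simp only; omega)]
      have f2 : tot (ind1 (fun e => slP r (n :: m :: l) i t e ∧ P e)) (ch s (m :: l) (i + 2) !b)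
          (t + 1 + n) = p * min (if n = 1 then r - 1 else r) (sg (m :: l)) := by
        rw [← ih (r := if n = 1 then r - 1 else r) (i := i + 2) (t := t + 1 + n) (b := !b)
          (fun q hq => h q (by rw [sS]; exact List.mem_cons_of_mem _ hq)) (by simp)]
        refine tot_congr fun j k h1 h2 => ind1_congr ?_
        rw [slP_ge (show t + 1 + n ≤ (j, k).1 by simp only; omega)]
      rw [f1, f2, sg_cons n]
      have f3 : ∀ t', tot (ind1 (fun e => slP r (n :: m :: l) i t e ∧ P e)) [death (i + 1)] t' =
          0 := fun _ => rfl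
      rw [f3, add_zero]
      by_cases h1 : n = 1
      · by_cases h2 : 0 < r
        · rw [if_pos ⟨h1, h2⟩, if_pos h1, if_pos h1]
          have : min r (1 + sg (m :: l)) = 1 + min (r - 1) (sg (m :: l)) := by omega
          rw [this]
          ring
        · rw [if_neg (fun h => h2 h.2), if_pos h1, if_pos h1, show r = 0 by omega]
          simp
      · rw [if_neg (fun h => h1 h.1), if_neg h1, if_neg h1]
        simp

/-- the number of the chosen crossings -/
theorem tot_sel1 {s : Bool} {l : List ℕ} {r i t : ℕ} {b : Bool} (hl : l ≠ []) :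
    tot (ind1 (fun e => slP r l i t e)) (ch s l i b) t = min r (sg l) := by
  classical
  induction l generalizing r i t b with
  | nil => exact absurd rfl hl
  | cons n l ih =>
    cases l with
    | nil =>
      rw [ch, tot_rep]
      have e0 := sr_one (fun _ => True) r t i n
      simp only [and_true] at e0
      simp only [slP]
      rw [e0, sg_cons]
      simp only [sg, List.countP_nil, add_zero]
      by_cases h1 : n = 1
      · subst h1
        by_cases h2 : 0 < r
        · rw [if_pos ⟨rfl, h2⟩, if_pos rfl, Nat.min_eq_right (by omega)]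
          simp [sr, ind1]
        · rw [if_neg (fun h => h2 h.2), if_pos rfl, show r = 0 by omega]
          simp
      · rw [if_neg (fun h => h1 h.1), if_neg h1]
        simp
    | cons m l =>
      rw [ch, tot, tot_append, tot_append, tot_rep, List.length_replicate]
      have f1 : sr (ind1 (fun e => slP r (n :: m :: l) i t e)) (t + 1) i n =
          if n = 1 ∧ 0 < r then 1 else 0 := by
        have e0 := sr_one (fun _ => True) r (t + 1) i n
        simp only [and_true] at e0
        have e1 : sr (ind1 (fun e => slP r (n :: m :: l) i t e)) (t + 1) i n =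
            sr (ind1 (fun e => n = 1 ∧ 0 < r ∧ e = (t + 1, i))) (t + 1) i n := by
          refine sr_congr fun j h1 h2 => ind1_congr ?_
          rw [slP_lt (show (j, i).1 < t + 1 + n by simp only; omega)]
        rw [e1, e0]
        by_cases h1 : n = 1 ∧ 0 < r
        · rw [if_pos h1, if_pos h1, h1.1]
          simp [sr, ind1]
        · rw [if_neg h1, if_neg h1]
      have f2 : tot (ind1 (fun e => slP r (n :: m :: l) i t e)) (ch s (m :: l) (i + 2) !b)
          (t + 1 + n) = min (if n = 1 then r - 1 else r) (sg (m :: l)) := by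
        rw [← ih (r := if n = 1 then r - 1 else r) (i := i + 2) (t := t + 1 + n) (b := !b)
          (by simp)]
        refine tot_congr fun j k h1 h2 => ind1_congr ?_
        rw [slP_ge (show t + 1 + n ≤ (j, k).1 by simp only; omega)]
      rw [f1, f2, sg_cons n]
      have f3 : ∀ t', tot (ind1 (fun e => slP r (n :: m :: l) i t e)) [death (i + 1)] t' = 0 :=
        fun _ => rfl
      rw [f3, add_zero]
      by_cases h1 : n = 1
      · by_cases h2 : 0 < r
        · rw [if_pos ⟨h1, h2⟩, if_pos h1, if_pos h1]
          omega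
        · rw [if_neg (fun h => h2 h.2), if_pos h1, if_pos h1, show r = 0 by omega]
          simp
      · rw [if_neg (fun h => h1 h.1), if_neg h1, if_neg h1]
        simp

/-! ### the chosen crossings of a diagram -/

/-- the number of the crossings chosen in a chain -/
def rr (x : List Bs) (i : ℕ) (ns : List ℕ) (y : List Bs) : ℕ :=
  if light ns then ns.length / 2 - 1 + mgn x i y else ns.length - hv ns

/-- the number of the pieces of a chain -/
def lc (ns : List ℕ) (i : ℕ) : ℕ := (ch (!par i) ns i (par i)).length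

/-- the chosen crossings -/
def XX : List Bs → List Bs → ℕ → ℕ × ℕ → Prop
  | _, [], _, _ => False
  | x, .b i :: y, t, e => XX (x ++ [.b i]) y (t + 1) e
  | x, .d i :: y, t, e => XX (x ++ [.d i]) y (t + 1) e
  | x, .c i ns :: y, t, e =>
    if e.1 < t + lc ns i then slP (rr x i ns y) ns i t e
    else XX (x ++ [.c i ns]) y (t + lc ns i) e

theorem XX_lt {x y : List Bs} {i t : ℕ} {ns : List ℕ} {e : ℕ × ℕ} (h : e.1 < t + lc ns i) :
    XX x (.c i ns :: y) t e ↔ slP (rr x i ns y) ns i t e := by
  show (if e.1 < t + lc ns i then slP (rr x i ns y) ns i t e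
    else XX (x ++ [.c i ns]) y (t + lc ns i) e) ↔ _
  rw [if_pos h]

theorem XX_ge {x y : List Bs} {i t : ℕ} {ns : List ℕ} {e : ℕ × ℕ} (h : t + lc ns i ≤ e.1) :
    XX x (.c i ns :: y) t e ↔ XX (x ++ [.c i ns]) y (t + lc ns i) e := by
  show (if e.1 < t + lc ns i then slP (rr x i ns y) ns i t e
    else XX (x ++ [.c i ns]) y (t + lc ns i) e) ↔ _
  rw [if_neg (by omega)]

/-- the number of the chosen crossings -/
def cX : List Bs → List Bs → ℕ
  | _, [] => 0
  | x, .b i :: y => cX (x ++ [.b i]) y
  | x, .d i :: y => cX (x ++ [.d i]) y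
  | x, .c i ns :: y => rr x i ns y + cX (x ++ [.c i ns]) y

theorem mgn_le (x : List Bs) (i : ℕ) (y : List Bs) : mgn x i y ≤ 1 := by
  rw [mgn]
  split_ifs <;> omega

theorem hv_sg {ns : List ℕ} (h : ∀ n ∈ ns, 1 ≤ n) : hv ns + sg ns = ns.length := by
  induction ns with
  | nil => rfl
  | cons n ns ih =>
    have := ih fun m hm => h m (by simp [hm])
    have hn := h n (by simp)
    rw [sg_cons, List.length_cons]
    by_cases h1 : n = 1
    · rw [if_pos h1, hv, List.countP_cons_of_neg (by simp [h1]), ← hv]
      omega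
    · rw [if_neg h1, hv, List.countP_cons_of_pos (by simp; omega), ← hv]
      omega

theorem hv_le (ns : List ℕ) : hv ns ≤ ns.length := List.countP_le_length

theorem rr_le {ns : List ℕ} (h : Cok ns) (x : List Bs) (i : ℕ) (y : List Bs) :
    min (rr x i ns y) (sg ns) = rr x i ns y := by
  obtain ⟨h1, h2, h3⟩ := h
  have e := hv_sg h1
  have e2 := mgn_le x i y
  refine Nat.min_eq_left ?_
  rw [rr]
  split_ifs with hl
  · rw [light, decide_eq_true_eq] at hl
    omega
  · omega

theorem Cok_ne {ns : List ℕ} (h : Cok ns) : ns ≠ [] := by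
  rintro rfl
  exact absurd h.2.1 (by simp)

theorem tot_XX {x y : List Bs} {t : ℕ} (ha : Allc y) :
    tot (ind1 (XX x y t)) (expand y) t = cX x y := by
  induction y generalizing x t with
  | nil => rfl
  | cons p y ih =>
    cases p with
    | b i => exact ih ha
    | d i => exact ih ha
    | c i ns =>
      rw [expand, tot_append, cX, ← ih (x := x ++ [Bs.c i ns]) (t := t + lc ns i) ha.2]
      have e1 : tot (ind1 (XX x (.c i ns :: y) t)) (ch (!par i) ns i (par i)) t =
          rr x i ns y := by
        rw [← rr_le ha.1 x i y, ← tot_sel1 (s := !par i) (r := rr x i ns y) (i := i) (t := t)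
          (b := par i) (Cok_ne ha.1)]
        exact tot_congr fun j k h1 h2 => ind1_congr (XX_lt h2)
      rw [e1]
      congr 1
      exact tot_congr fun j k h1 h2 => ind1_congr (XX_ge h1)

theorem sum_ge {l : List ℕ} {p : ℕ} (hp : p < 2) (h : ∀ q ∈ l, q % 2 = p) :
    p * l.length ≤ l.sum := by
  induction l with
  | nil => simp
  | cons a l ih =>
    have h1 := ih fun q hq => h q (by simp [hq])
    have h2 := h a (by simp)
    rw [List.length_cons, List.sum_cons, mul_add, mul_one]
    have : p ≤ a := by
      rcases (by omega : p = 0 ∨ p = 1) with rfl | rfl <;> omega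
    omega

/-- colourings which are constant -/
theorem Tj_zero (γ : ℕ × ℕ → ℕ) (w : OWord) (t : ℕ) : Tj γ w t z0 z0 0 := by
  induction w generalizing t with
  | nil => exact ⟨rfl, rfl⟩
  | cons p w ih =>
    have e1 : ∀ i, ins i false z0 = z0 := fun i => ins_const i false
    have e2 : ∀ i, del i z0 = z0 := fun i => del_const i false
    cases p with
    | birth i b => exact ⟨false, by rw [e1]; exact ih _⟩
    | death i => exact ⟨rfl, by rw [e2]; exact ih _⟩
    | pos i => exact ⟨0, ih _, by simp [z0]⟩
    | neg i => exact ⟨0, ih _, by simp [z0]⟩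

/-- colourings of the base diagram give colourings of the diagram -/
theorem Tj_expand {γ : ℕ × ℕ → ℕ} {y : List Bs} (ha : Allc y) {t : ℕ} {u s' : ℕ → Bool}
    (h : Rch (rd y) u s') (h0 : tot γ (expand y) t = 0) : Tj γ (expand y) t u s' 0 := by
  induction y generalizing t u with
  | nil => exact ⟨h, rfl⟩
  | cons p y ih =>
    cases p with
    | b i =>
      obtain ⟨x, hx⟩ := h
      exact ⟨x, ih ha hx h0⟩
    | d i => exact ⟨h.1, ih ha h.2 h0⟩
    | c i ns =>
      rw [expand, tot_append] at h0
      have h1 : tot γ (ch (!par i) ns i (par i)) t = 0 := by omega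
      have h2 := Tj_ch_last γ (!par i) (Cok_ne ha.1) i t (par i) u
      have h3 : sl γ ns i t = 0 := by
        rw [tot_ch] at h1
        have := List.single_le_sum (fun _ _ => Nat.zero_le _) _ (sl_mem γ (Cok_ne ha.1) i t)
        omega
      rw [h3, ite_self] at h2
      exact Tj_append h2 (ih ha.2 h (by omega))

theorem expand_append (x y : List Bs) : expand (x ++ y) = expand x ++ expand y := by
  induction x with
  | nil => rfl
  | cons p x ih =>
    cases p with
    | b i => rw [List.cons_append, expand, expand, ih]; rfl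
    | d i => rw [List.cons_append, expand, expand, ih]; rfl
    | c i ns => rw [List.cons_append, expand, expand, ih, List.append_assoc]

/-- the bands of a chain -/
theorem par_chain {w x y : List Bs} {i : ℕ} {ns : List ℕ} {C : Set (ℕ × ℕ)} (hw : Wd 0 w)
    (ha : Allc w) (hC : (sgr (expand w)).Circuit C) (e : w = x ++ .c i ns :: y) (hn : Cok ns) :
    ∀ q ∈ sS (ind1 (· ∈ C)) ns i (expand x).length,
      q % 2 = sl (ind1 (· ∈ C)) ns i (expand x).length % 2 := by
  have h1 := expand_below (m := 0) hw ha
  have h2 := expand_par (m := 0) hw ha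
  rw [alt_zero] at h1 h2
  refine par_bands (s := !par i) (b := par i) (u := z0) (Cok_ne hn) rfl fun c hc => ?_
  refine circuit_even h2 h1 hC (c := c) (s' := z0) ?_
  have h3 := Tj_append (Tj_append (Tj_zero (ind1 (· ∈ C)) (expand x) 0)
    (by rw [zero_add]; exact hc)) (Tj_zero (ind1 (· ∈ C)) (expand y) _)
  rw [zero_add, add_zero, List.append_assoc] at h3
  rw [e, expand_append]
  exact h3

/-- the chains in which the inequality for a circuit is an equality -/
def EqC (γ : ℕ × ℕ → ℕ) : List Bs → List Bs → ℕ → Prop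
  | _, [], _ => True
  | x, .b i :: y, t => EqC γ (x ++ [.b i]) y (t + 1)
  | x, .d i :: y, t => EqC γ (x ++ [.d i]) y (t + 1)
  | x, .c i ns :: y, t => (tot γ (ch (!par i) ns i (par i)) t = 0 ∨
      (sl γ ns i t % 2 = 1 ∧ light ns = true ∧ mg x i y)) ∧
      EqC γ (x ++ [.c i ns]) y (t + lc ns i)

theorem circ_ineq {w : List Bs} {C : Set (ℕ × ℕ)} (hw : Wd 0 w) (ha : Allc w)
    (hC : (sgr (expand w)).Circuit C) {x y : List Bs} (e : w = x ++ y) (hy : Allc y) {t : ℕ}
    (ht : t = (expand x).length) :
    2 * tot (ind1 (fun e => XX x y t e ∧ e ∈ C)) (expand y) t ≤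
        tot (ind1 (· ∈ C)) (expand y) t ∧
      (tot (ind1 (· ∈ C)) (expand y) t ≤
        2 * tot (ind1 (fun e => XX x y t e ∧ e ∈ C)) (expand y) t →
        EqC (ind1 (· ∈ C)) x y t) := by
  induction y generalizing x t with
  | nil => exact ⟨by simp [expand, tot], fun _ => trivial⟩
  | cons p y ih =>
    cases p with
    | b i =>
      exact ih (x := x ++ [.b i]) (t := t + 1) (by simp [e]) hy
        (by rw [expand_append, List.length_append, ht]; rfl)
    | d i =>
      exact ih (x := x ++ [.d i]) (t := t + 1) (by simp [e]) hy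
        (by rw [expand_append, List.length_append, ht]; rfl)
    | c i ns =>
      have hl : (expand (x ++ [.c i ns])).length = t + lc ns i := by
        rw [expand_append, List.length_append, ht]
        simp [expand, lc]
      obtain ⟨i1, i2⟩ := ih (x := x ++ [.c i ns]) (t := t + lc ns i) (by simp [e]) hy.2 hl.symm
      have hpar := par_chain hw ha hC e hy.1
      rw [← ht] at hpar
      set p := sl (ind1 (· ∈ C)) ns i t % 2 with hp
      have hp2 : p < 2 := Nat.mod_lt _ (by norm_num)
      have e1 : tot (ind1 (fun e => XX x (.c i ns :: y) t e ∧ e ∈ C))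
          (ch (!par i) ns i (par i)) t = p * rr x i ns y := by
        rw [← rr_le hy.1 x i y, ← tot_sel (P := (· ∈ C)) (s := !par i) (r := rr x i ns y)
          (i := i) (t := t) (b := par i) hp2 hpar (Cok_ne hy.1)]
        refine tot_congr fun j k h1 h2 => ind1_congr ?_
        rw [XX_lt (show (j, k).1 < t + lc ns i from h2)]
      have e2 : tot (ind1 (fun e => XX x (.c i ns :: y) t e ∧ e ∈ C)) (expand y)
          (t + lc ns i) = tot (ind1 (fun e => XX (x ++ [.c i ns]) y (t + lc ns i) e ∧ e ∈ C))
          (expand y) (t + lc ns i) := by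
        refine tot_congr fun j k h1 h2 => ind1_congr ?_
        rw [XX_ge (show t + lc ns i ≤ (j, k).1 from h1)]
      have e3 : p * ns.length ≤ tot (ind1 (· ∈ C)) (ch (!par i) ns i (par i)) t := by
        rw [tot_ch, ← sS_length (ind1 (· ∈ C)) ns i t]
        exact sum_ge hp2 hpar
      have e4 : tot (ind1 (fun e => XX x (.c i ns :: y) t e ∧ e ∈ C)) (expand (.c i ns :: y)) t =
          p * rr x i ns y + tot (ind1 (fun e => XX (x ++ [.c i ns]) y (t + lc ns i) e ∧ e ∈ C))
          (expand y) (t + lc ns i) := by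
        rw [expand, tot_append, e1]
        congr 1
      have e5 : tot (ind1 (· ∈ C)) (expand (.c i ns :: y)) t =
          tot (ind1 (· ∈ C)) (ch (!par i) ns i (par i)) t +
          tot (ind1 (· ∈ C)) (expand y) (t + lc ns i) := by
        rw [expand, tot_append]
        rfl
      have e6 := mgn_le x i y
      have e7 := hy.1.2
      have e8 := hv_le ns
      have h2r : 2 * rr x i ns y ≤ ns.length := by
        rw [rr]
        split_ifs with hl
        · omega
        · rw [light, decide_eq_true_eq] at hl
          omega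
      rw [e4, e5]
      rcases (by omega : p = 0 ∨ p = 1) with hp0 | hp0
      · rw [hp0, zero_mul, zero_add]
        refine ⟨by omega, fun h => ⟨Or.inl (by omega), i2 (by omega)⟩⟩
      · rw [hp0, one_mul] at e3 ⊢
        refine ⟨by omega, fun h => ⟨Or.inr ⟨by rw [← hp]; exact hp0, ?_⟩, i2 (by omega)⟩⟩
        have h3 : ns.length ≤ 2 * rr x i ns y := by omega
        rw [rr] at h3
        split_ifs at h3 with hl
        · refine ⟨hl, ?_⟩
          by_contra hm
          rw [mgn, if_neg hm] at h3
          omega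
        · rw [light, decide_eq_true_eq] at hl
          omega

/-- the last chain of a circuit leads to a contradiction -/
theorem circ_zero {w : List Bs} {C : Set (ℕ × ℕ)} (hw : Wd 0 w) (ha : Allc w)
    (hC : (sgr (expand w)).Circuit C) {x y : List Bs} (e : w = x ++ y) (hy : Allc y) {t : ℕ}
    (ht : t = (expand x).length)
    (hx : ∀ u, Rc x z0 u → Tj (ind1 (· ∈ C)) (expand x) 0 z0 u 0)
    (hE : EqC (ind1 (· ∈ C)) x y t) : tot (ind1 (· ∈ C)) (expand y) t = 0 := by
  have Rc_append : ∀ {a b : List Bs} {s s' : ℕ → Bool}, Rc (a ++ b) s s' →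
      ∃ v, Rc a s v ∧ Rc b v s' := by
    intro a b s s' h
    induction a generalizing s with
    | nil => exact ⟨s, rfl, h⟩
    | cons p a ih =>
      cases p with
      | b i =>
        obtain ⟨x, hx⟩ := h
        obtain ⟨v, h1, h2⟩ := ih hx
        exact ⟨v, ⟨x, h1⟩, h2⟩
      | d i =>
        obtain ⟨v, h1, h2⟩ := ih h.2
        exact ⟨v, ⟨h.1, h1⟩, h2⟩
      | c i ns =>
        obtain ⟨v, h1, h2⟩ := ih h.2
        exact ⟨v, ⟨h.1, h1⟩, h2⟩
  induction y generalizing x t with
  | nil => rfl
  | cons p y ih =>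
    cases p with
    | b i =>
      refine ih (x := x ++ [.b i]) (t := t + 1) (by simp [e]) hy
        (by rw [expand_append, List.length_append, ht]; rfl) ?_ hE
      intro u hu
      obtain ⟨v, h1, x', h2⟩ := Rc_append hu
      rw [expand_append]
      refine Tj_append (w := expand [Bs.b i]) (s' := u) (c2 := 0) (hx v h1) ?_
      exact ⟨x', h2, rfl⟩
    | d i =>
      refine ih (x := x ++ [.d i]) (t := t + 1) (by simp [e]) hy
        (by rw [expand_append, List.length_append, ht]; rfl) ?_ hE
      intro u hu
      obtain ⟨v, h1, h2, h3⟩ := Rc_append hu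
      rw [expand_append]
      refine Tj_append (w := expand [Bs.d i]) (s' := u) (c2 := 0) (hx v h1) ?_
      exact ⟨h2, h3, rfl⟩
    | c i ns =>
      obtain ⟨hE1, hE2⟩ := hE
      have hl : (expand (x ++ [.c i ns])).length = t + lc ns i := by
        rw [expand_append, List.length_append, ht]
        simp [expand, lc]
      have hsl : tot (ind1 (· ∈ C)) (ch (!par i) ns i (par i)) t = 0 →
          sl (ind1 (· ∈ C)) ns i t = 0 := by
        intro h0
        rw [tot_ch] at h0
        have := List.single_le_sum (fun _ _ => Nat.zero_le _) _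
          (sl_mem (ind1 (· ∈ C)) (Cok_ne hy.1) i t)
        omega
      have h0 := ih (x := x ++ [.c i ns]) (t := t + lc ns i) (by simp [e]) hy.2 hl.symm
        (by
          intro u hu
          obtain ⟨v, h1, h2, h3⟩ := Rc_append hu
          obtain rfl : u = v := h3
          have h4 := Tj_ch_last (ind1 (· ∈ C)) (!par i) (Cok_ne hy.1) i t (par i) u
          have h5 : (if u i = u (i + 1) then 0 else sl (ind1 (· ∈ C)) ns i t) = 0 := by
            rcases hE1 with h6 | ⟨-, h6, -⟩
            · rw [hsl h6, ite_self]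
            · rw [if_pos (h2 h6)]
          rw [h5] at h4
          rw [expand_append]
          refine Tj_append (c2 := 0) (hx u h1) ?_
          rw [zero_add, ← ht, expand, expand, List.append_nil]
          exact h4) hE2
      have e5 : tot (ind1 (· ∈ C)) (expand (.c i ns :: y)) t =
          tot (ind1 (· ∈ C)) (ch (!par i) ns i (par i)) t +
          tot (ind1 (· ∈ C)) (expand y) (t + lc ns i) := by
        rw [expand, tot_append]
        rfl
      rw [e5, h0, add_zero]
      rcases hE1 with h6 | ⟨h6, -, u, s', h7, h8, h9⟩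
      · exact h6
      · exfalso
        have h10 := Tj_ch_last (ind1 (· ∈ C)) (!par i) (Cok_ne hy.1) i t (par i) u
        rw [if_neg h9] at h10
        have h11 := Tj_append (Tj_append (hx u h7) (by rw [zero_add, ← ht]; exact h10))
          (c2 := 0) (s' := s') (w := expand y) (by
            refine Tj_expand hy.2 h8 ?_
            rw [zero_add, List.length_append, ← ht]
            exact h0)
        rw [zero_add, add_zero, List.append_assoc] at h11
        have k1 := expand_below (m := 0) hw ha
        have k2 := expand_par (m := 0) hw ha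
        rw [alt_zero] at k1 k2
        have h12 : Tj (ind1 (· ∈ C)) (expand w) 0 z0 s' (sl (ind1 (· ∈ C)) ns i t) := by
          rw [e, expand_append]
          exact h11
        have := circuit_even k2 k1 hC h12
        omega

/-- the lower bound for the index -/
theorem ind_expand {w : List Bs} (hw : Wd 0 w) (ha : Allc w) :
    cX [] w ≤ (sgr (expand w)).ind := by
  have hfin : {e | IsCr (expand w) e}.Finite := by
    have := (ncard_tot (fun _ => True) (expand w)).1
    simpa using this
  refine le_csSup ?_ ?_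
  · refine ⟨{e | IsCr (expand w) e}.ncard, ?_⟩
    rintro k ⟨X, h1, rfl, -⟩
    exact Set.ncard_le_ncard h1 hfin
  · refine ⟨{e | IsCr (expand w) e ∧ XX [] w 0 e}, fun e he => he.1, ?_, ?_⟩
    · rw [(ncard_tot _ _).2, tot_XX ha]
    · intro C hC
      obtain ⟨hC1, hC2⟩ := circuit_sub hC
      have e1 : {e | IsCr (expand w) e ∧ XX [] w 0 e} ∩ C =
          {e | IsCr (expand w) e ∧ (XX [] w 0 e ∧ e ∈ C)} := by
        ext e
        simp only [Set.mem_inter_iff, Set.mem_ofPred_eq]
        tauto
      have e2 : C = {e | IsCr (expand w) e ∧ e ∈ C} := by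
        ext e
        simp only [Set.mem_ofPred_eq]
        exact ⟨fun h => ⟨hC1 e h, h⟩, fun h => h.2⟩
      have e3 : C.ncard = tot (ind1 (· ∈ C)) (expand w) 0 := by
        rw [← (ncard_tot _ _).2, ← e2]
      rw [e1, (ncard_tot _ _).2, e3]
      obtain ⟨i1, i2⟩ := circ_ineq hw ha hC (x := []) (y := w) rfl ha (t := 0) rfl
      by_contra h
      have h0 := circ_zero hw ha hC (x := []) (y := w) rfl ha (t := 0) rfl
        (by
          rintro u hu
          obtain rfl : u = z0 := hu
          exact ⟨rfl, rfl⟩) (i2 (by omega))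
      rw [h0] at e3
      have hfC : C.Finite := hfin.subset hC1
      rw [Set.ncard_eq_zero hfC] at e3
      exact absurd e3 hC2.ne_empty

end

end Run7.h849
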