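import Pool.Agent.Run7.h849.Abs

/-!
# Leading terms of Laurent polynomials in two variables
-/

set_option autoImplicit false

namespace Run7.h849

open Finset

noncomputable section

/-- exponents, ordered lexicographically -/
abbrev Gx : Type := ℤ ×ₗ ℤ

/-- Laurent polynomials in two variables -/
abbrev Rg : Type := AddMonoidAlgebra ℤ Gx

/-- all exponents are at most `a` -/
def TopL (p : Rg) (a : Gx) : Prop := ∀ k, a < k → p.coeff k = 0

/-- the leading exponent is `a`, and the leading coefficient is `1` or `-1` -/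
def Ld (p : Rg) (a : Gx) : Prop := TopL p a ∧ (p.coeff a = 1 ∨ p.coeff a = -1)

theorem TopL.mono {p : Rg} {a b : Gx} (h : TopL p a) (hab : a ≤ b) : TopL p b :=
  fun k hk => h k (lt_of_le_of_lt hab hk)

theorem TopL.zero (a : Gx) : TopL 0 a := fun _ _ => rfl

theorem TopL.add {p q : Rg} {a : Gx} (hp : TopL p a) (hq : TopL q a) : TopL (p + q) a := by
  intro k hk
  rw [AddMonoidAlgebra.coeff_add, Finsupp.add_apply, hp k hk, hq k hk, add_zero]

theorem TopL.neg {p : Rg} {a : Gx} (hp : TopL p a) : TopL (-p) a := by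
  intro k hk
  rw [AddMonoidAlgebra.coeff_neg, Finsupp.neg_apply, hp k hk, neg_zero]

theorem TopL.sum {κ : Type} {s : Finset κ} {f : κ → Rg} {a : Gx} (h : ∀ i ∈ s, TopL (f i) a) :
    TopL (∑ i ∈ s, f i) a := by
  classical
  induction s using Finset.induction_on with
  | empty => exact TopL.zero a
  | insert i s hi ih =>
    rw [sum_insert hi]
    exact (h i (mem_insert_self _ _)).add (ih fun j hj => h j (mem_insert_of_mem hj))

theorem TopL.coeff_mul {p q : Rg} {a b : Gx} (hp : TopL p a) (hq : TopL q b) :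
    (p * q).coeff (a + b) = p.coeff a * q.coeff b := by
  classical
  rw [AddMonoidAlgebra.coeff_mul, Finsupp.sum]
  rw [Finset.sum_eq_single a]
  · rw [Finsupp.sum, Finset.sum_eq_single b]
    · rw [if_pos rfl]
    · intro c hc hne
      rw [if_neg (fun h => hne (add_left_cancel h))]
    · intro hb
      rw [if_pos rfl, Finsupp.notMem_support_iff.1 hb, mul_zero]
  · intro c hc hne
    rw [Finsupp.sum]
    refine Finset.sum_eq_zero fun e he => ?_
    split_ifs with h
    · rcases lt_or_gt_of_ne hne with h1 | h1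
      · have h3 : b < e := by
          by_contra h2
          exact absurd h (add_lt_add_of_lt_of_le h1 (not_lt.1 h2)).ne
        rw [hq e h3, mul_zero]
      · rw [hp c h1, zero_mul]
    · rfl
  · intro ha
    rw [Finsupp.sum]
    refine Finset.sum_eq_zero fun e he => ?_
    rw [Finsupp.notMem_support_iff.1 ha]
    split_ifs <;> simp

theorem TopL.mul {p q : Rg} {a b : Gx} (hp : TopL p a) (hq : TopL q b) : TopL (p * q) (a + b) := by
  intro k hk
  have h1 : a < k - b := lt_sub_iff_add_lt.2 hk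
  have h := (hp.mono h1.le).coeff_mul hq
  rw [sub_add_cancel, hp _ h1, zero_mul] at h
  exact h

theorem Ld.mul {p q : Rg} {a b : Gx} (hp : Ld p a) (hq : Ld q b) : Ld (p * q) (a + b) := by
  refine ⟨hp.1.mul hq.1, ?_⟩
  rw [hp.1.coeff_mul hq.1]
  rcases hp.2 with h1 | h1 <;> rcases hq.2 with h2 | h2 <;> rw [h1, h2] <;> simp

theorem Ld.add {p q : Rg} {a b : Gx} (hp : Ld p a) (hq : TopL q b) (h : b < a) :
    Ld (p + q) a := by
  refine ⟨hp.1.add (hq.mono h.le), ?_⟩
  rw [AddMonoidAlgebra.coeff_add, Finsupp.add_apply, hq a h, add_zero]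
  exact hp.2

theorem Ld.neg {p : Rg} {a : Gx} (hp : Ld p a) : Ld (-p) a := by
  refine ⟨hp.1.neg, ?_⟩
  rw [AddMonoidAlgebra.coeff_neg, Finsupp.neg_apply]
  rcases hp.2 with h | h <;> rw [h] <;> simp

/-- monomials -/
def mo (v u : ℤ) : Rg := AddMonoidAlgebra.single (toLex (v, u)) 1

theorem mo_add (v u v' u' : ℤ) : mo (v + v') (u + u') = mo v u * mo v' u' := by
  rw [mo, mo, mo, AddMonoidAlgebra.single_mul_single, one_mul]
  rfl

theorem mo_zero : mo 0 0 = 1 := rfl

theorem Ld_mo (v u : ℤ) : Ld (mo v u) (toLex (v, u)) := by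
  refine ⟨fun k hk => ?_, ?_⟩
  · rw [mo, AddMonoidAlgebra.coeff_single, Finsupp.single_apply, if_neg hk.ne]
  · rw [mo, AddMonoidAlgebra.coeff_single, Finsupp.single_apply, if_pos rfl]
    exact Or.inl rfl

theorem Ld_one : Ld 1 0 := Ld_mo 0 0

theorem Ld.pow {p : Rg} {v u : ℤ} (hp : Ld p (toLex (v, u))) (n : ℕ) :
    Ld (p ^ n) (toLex (n * v, n * u)) := by
  induction n with
  | zero =>
    rw [pow_zero, Nat.cast_zero, zero_mul, zero_mul]
    exact Ld_one
  | succ n ih =>
    rw [pow_succ]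
    have e : toLex (((n + 1 : ℕ) : ℤ) * v, ((n + 1 : ℕ) : ℤ) * u) =
        toLex ((n : ℤ) * v, (n : ℤ) * u) + toLex (v, u) := by
      rw [← toLex_add, Prod.mk_add_mk]
      push_cast
      rw [add_mul, add_mul, one_mul, one_mul]
    rw [e]
    exact ih.mul hp

theorem Ld.prod {κ : Type} {s : Finset κ} {f : κ → Rg} {a : κ → Gx}
    (h : ∀ i ∈ s, Ld (f i) (a i)) : Ld (∏ i ∈ s, f i) (∑ i ∈ s, a i) := by
  classical
  induction s using Finset.induction_on with
  | empty => exact Ld_one
  | insert i s hi ih =>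
    rw [prod_insert hi, sum_insert hi]
    exact (h i (mem_insert_self _ _)).mul (ih fun j hj => h j (mem_insert_of_mem hj))

theorem lx_sum {κ : Type} (s : Finset κ) (f g : κ → ℤ) :
    ∑ i ∈ s, (toLex (f i, g i) : Gx) = toLex (∑ i ∈ s, f i, ∑ i ∈ s, g i) := by
  classical
  induction s using Finset.induction_on with
  | empty => rfl
  | insert i s hi ih =>
    rw [sum_insert hi, sum_insert hi, sum_insert hi, ih]
    rfl

/-! ### state sums -/

section ss
variable {ι : Type} [DecidableEq ι] {R : Type} [CommRing R]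

/-- the weight of a state -/
def pw (κ l : ι → R) (E A : Finset ι) : R := ∏ k ∈ E, if k ∈ A then κ k else l k

theorem pw_notMem {κ l : ι → R} {E A : Finset ι} {e : ι} (he : e ∉ E) (hA : e ∉ A) :
    pw κ l (insert e E) A = l e * pw κ l E A := by
  rw [pw, prod_insert he, if_neg hA]
  rfl

theorem pw_mem {κ l : ι → R} {E A : Finset ι} {e : ι} (he : e ∉ E) :
    pw κ l (insert e E) (insert e A) = κ e * pw κ l E A := by
  rw [pw, prod_insert he, if_pos (mem_insert_self _ _), pw]
  congr 1
  refine prod_congr rfl fun k hk => ?_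
  have : k ≠ e := fun h => he (h ▸ hk)
  simp only [mem_insert, this, false_or]

/-- the value of `F`, with `δ K - 1` in the elements of `F` -/
def Gf (δ : R) (f : Finset ι → R) (F : Finset ι) : R :=
  ∑ A ∈ F.powerset, pw (fun _ => δ) (fun _ => -1) F A * f A

theorem Gf_insert (δ : R) (f : Finset ι → R) {F : Finset ι} {e : ι} (he : e ∉ F) :
    Gf δ f (insert e F) = -Gf δ f F + δ * Gf δ (fun A => f (insert e A)) F := by
  rw [Gf, sum_powerset_insert he, Gf, Gf, mul_sum, ← sum_neg_distrib]
  congr 1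
  · refine sum_congr rfl fun A hA => ?_
    rw [pw_notMem he (fun h => he (mem_powerset.1 hA h))]
    ring
  · refine sum_congr rfl fun A hA => ?_
    rw [pw_mem he]
    ring

/-- the state sum in the other basis -/
theorem ss_eq (δ : R) (κ l π : ι → R) (E : Finset ι) (h : ∀ e ∈ E, δ * l e = π e - κ e)
    (f : Finset ι → R) :
    δ ^ E.card * ∑ A ∈ E.powerset, pw κ l E A * f A = ∑ F ∈ E.powerset, pw κ π E F * Gf δ f F := by
  induction E using Finset.induction_on generalizing f with
  | empty => simp [pw, Gf]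
  | insert e E he ih =>
    have h1 := h e (mem_insert_self _ _)
    have ih := ih fun k hk => h k (mem_insert_of_mem hk)
    have e1 : ∑ A ∈ E.powerset, pw κ l (insert e E) A * f A =
        l e * ∑ A ∈ E.powerset, pw κ l E A * f A := by
      rw [mul_sum]
      refine sum_congr rfl fun A hA => ?_
      rw [pw_notMem he (fun h => he (mem_powerset.1 hA h))]
      ring
    have e2 : ∑ A ∈ E.powerset, pw κ l (insert e E) (insert e A) * f (insert e A) =
        κ e * ∑ A ∈ E.powerset, pw κ l E A * f (insert e A) := by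
      rw [mul_sum]
      refine sum_congr rfl fun A hA => ?_
      rw [pw_mem he]
      ring
    have e3 : ∑ F ∈ E.powerset, pw κ π (insert e E) F * Gf δ f F =
        π e * ∑ F ∈ E.powerset, pw κ π E F * Gf δ f F := by
      rw [mul_sum]
      refine sum_congr rfl fun A hA => ?_
      rw [pw_notMem he (fun h => he (mem_powerset.1 hA h))]
      ring
    have e4 : ∑ F ∈ E.powerset, pw κ π (insert e E) (insert e F) * Gf δ f (insert e F) =
        κ e * (-∑ F ∈ E.powerset, pw κ π E F * Gf δ f F +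
          δ * ∑ F ∈ E.powerset, pw κ π E F * Gf δ (fun A => f (insert e A)) F) := by
      rw [mul_sum, ← sum_neg_distrib, ← sum_add_distrib, mul_sum]
      refine sum_congr rfl fun A hA => ?_
      rw [pw_mem he, Gf_insert δ f (fun h => he (mem_powerset.1 hA h))]
      ring
    rw [sum_powerset_insert he, sum_powerset_insert he, e1, e2, e3, e4, ← ih f,
      ← ih (fun A => f (insert e A)), card_insert_of_notMem he]
    linear_combination (δ ^ E.card * ∑ A ∈ E.powerset, pw κ l E A * f A) * h1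

theorem Gf_zero (δ : R) (f : Finset ι → R) {F : Finset ι} {e : ι} (he : e ∈ F)
    (h : ∀ A ⊆ F.erase e, δ * f (insert e A) = f A) : Gf δ f F = 0 := by
  rw [← insert_erase he, Gf_insert δ f (notMem_erase _ _), Gf, Gf, mul_sum, ← sum_neg_distrib,
    ← sum_add_distrib]
  refine sum_eq_zero fun A hA => ?_
  have := h A (mem_powerset.1 hA)
  linear_combination (pw (fun _ => δ) (fun _ => -1) (F.erase e) A) * this

end ss

section ld
variable {ι : Type} [DecidableEq ι]

theorem pw_top {F A : Finset ι} (hA : A ⊆ F) {δ : Rg} (hδ : Ld δ (toLex (1, 0))) :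
    Ld (pw (fun _ => δ) (fun _ => -1) F A) (toLex ((A.card : ℤ), 0)) := by
  have h : ∀ k ∈ F, Ld (if k ∈ A then δ else -1) (toLex ((if k ∈ A then 1 else 0 : ℤ), 0)) := by
    intro k hk
    split_ifs
    · exact hδ
    · exact Ld_one.neg
  have := Ld.prod h
  rw [lx_sum] at this
  have e : ∑ k ∈ F, (if k ∈ A then 1 else 0 : ℤ) = A.card := by
    rw [sum_ite_mem, inter_eq_right.2 hA]
    simp
  rw [e, sum_const_zero] at this
  exact this

variable {ν : Finset ι → ℕ} {E Q : Finset ι}

/-- the main lemma about leading terms -/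
theorem Spm.lead (h : Spm ν E Q) {c : Finset ι → ℕ} (hν : ∀ A, ν A = A.card + c A)
    {dv du : ι → ℤ} (hW : ∀ e ∈ E, e ∉ Q → dv e ≤ -2 ∧ du e < 0)
    (hQ : ∀ e ∈ Q, 0 < du e)
    (hI : ∀ e ∈ Q, 0 < dv e → ν (Q.filter (fun e => 0 ≤ dv e)) =
      ν ((Q.filter (fun e => 0 ≤ dv e)).erase e) + 2)
    {δ : Rg} (hδ : Ld δ (toLex (1, 0))) {κ π : ι → Rg} {bv bu : ι → ℤ}
    (hκ : ∀ e ∈ E, Ld (κ e) (toLex (bv e + dv e, bu e + du e)))
    (hπ : ∀ e ∈ E, Ld (π e) (toLex (bv e, bu e))) :
    ∃ X : Gx, (∑ F ∈ E.powerset, pw κ π E F * Gf δ (fun A => δ ^ c A) F).coeff X ≠ 0 ∧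
      (ν (Q.filter (fun e => 0 ≤ dv e)) : ℤ) + ∑ e ∈ Q.filter (fun e => 0 ≤ dv e), dv e +
        ∑ e ∈ E, bv e ≤ (ofLex X).1 := by
  obtain ⟨F0, hF0Q, hF0, hbest, hlev⟩ := h.best hW hQ hI
  have hpw : ∀ F ⊆ E, Ld (pw κ π E F)
      (toLex (∑ e ∈ E, bv e + ∑ e ∈ F, dv e, ∑ e ∈ E, bu e + ∑ e ∈ F, du e)) := by
    intro F hF
    have h1 : ∀ k ∈ E, Ld (if k ∈ F then κ k else π k)
        (toLex (bv k + (if k ∈ F then dv k else 0), bu k + (if k ∈ F then du k else 0))) := by
      intro k hk
      split_ifs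
      · exact hκ k hk
      · rw [add_zero, add_zero]
        exact hπ k hk
    have := Ld.prod h1
    rw [lx_sum, sum_add_distrib, sum_add_distrib, sum_ite_mem, sum_ite_mem,
      inter_eq_right.2 hF] at this
    exact this
  have hterm : ∀ F A : Finset ι, A ⊆ F → Ld (pw (fun _ => δ) (fun _ => -1) F A * δ ^ c A)
      (toLex ((ν A : ℤ), 0)) := by
    intro F A hA
    have h1 := (pw_top hA hδ).mul (hδ.pow (c A))
    have e : toLex ((A.card : ℤ), (0 : ℤ)) + toLex ((c A : ℤ) * 1, (c A : ℤ) * 0) =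
        toLex ((ν A : ℤ), 0) := by
      rw [← toLex_add, Prod.mk_add_mk, hν]
      push_cast
      simp
    rw [e] at h1
    exact h1
  have hle : ∀ a b : ℤ, a ≤ b → (toLex (a, (0 : ℤ)) : Gx) ≤ toLex (b, 0) := by
    intro a b hab
    rw [Prod.Lex.toLex_le_toLex]
    rcases lt_or_eq_of_le hab with h | h
    · exact Or.inl h
    · exact Or.inr ⟨h, le_rfl⟩
  have hlt : ∀ a b : ℤ, a < b → (toLex (a, (0 : ℤ)) : Gx) < toLex (b, 0) := by
    intro a b hab
    rw [Prod.Lex.toLex_lt_toLex]
    exact Or.inl hab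
  have hG : ∀ F ⊆ E, TopL (Gf δ (fun A => δ ^ c A) F) (toLex ((ν F : ℤ), 0)) := by
    intro F hF
    refine TopL.sum fun A hA => ?_
    rw [mem_powerset] at hA
    refine (hterm F A hA).1.mono (hle _ _ ?_)
    exact_mod_cast h.mono hA hF
  have hG0 : Ld (Gf δ (fun A => δ ^ c A) F0) (toLex ((ν F0 : ℤ), 0)) := by
    rw [Gf, ← sum_erase_add _ _ (mem_powerset_self F0), add_comm]
    by_cases h0 : F0 = ∅
    · subst h0
      have h1 := hterm ∅ ∅ (Subset.refl _)
      have : (powerset (∅ : Finset ι)).erase ∅ = ∅ := by simp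
      rw [this, sum_empty, add_zero]
      exact h1
    · refine (hterm F0 F0 (Subset.refl _)).add (b := toLex ((ν F0 : ℤ) - 2, 0)) ?_
        (hlt _ _ (by omega))
      refine TopL.sum fun A hA => ?_
      rw [mem_erase, mem_powerset] at hA
      obtain ⟨e, he, heA⟩ : ∃ e ∈ F0, e ∉ A := by
        by_contra hcon
        refine hA.1 (Subset.antisymm hA.2 fun x hx => ?_)
        by_contra hxA
        exact hcon ⟨x, hx, hxA⟩
      have h1 := hF0 e he
      have h2 : ν A ≤ ν (F0.erase e) := h.mono (fun x hx => mem_erase.2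
        ⟨fun hxe => heA (hxe ▸ hx), hA.2 hx⟩) (((erase_subset _ _).trans hF0Q).trans h.sub)
      refine (hterm F0 A hA.2).1.mono (hle _ _ ?_)
      omega
  set B : Gx := toLex (∑ e ∈ E, bv e, ∑ e ∈ E, bu e) with hB
  have hwt : ∀ F : Finset ι, toLex (∑ e ∈ E, bv e + ∑ e ∈ F, dv e, ∑ e ∈ E, bu e + ∑ e ∈ F, du e) +
      toLex ((ν F : ℤ), (0 : ℤ)) = B + Dw ν dv du F := by
    intro F
    rw [hB, Dw, ← toLex_add, ← toLex_add, Prod.mk_add_mk, Prod.mk_add_mk]
    congr 2
    · ring
    · ring
  refine ⟨B + Dw ν dv du F0, ?_, ?_⟩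
  · have hF0E : F0 ∈ E.powerset := mem_powerset.2 (hF0Q.trans h.sub)
    rw [← sum_erase_add _ _ hF0E, AddMonoidAlgebra.coeff_add, Finsupp.add_apply]
    have h1 : (∑ F ∈ E.powerset.erase F0, pw κ π E F * Gf δ (fun A => δ ^ c A) F).coeff
        (B + Dw ν dv du F0) = 0 := by
      rw [AddMonoidAlgebra.coeff_sum, Finsupp.finsetSum_apply]
      refine sum_eq_zero fun F hF => ?_
      rw [mem_erase, mem_powerset] at hF
      by_cases hb : Bl ν (F ∩ Q)
      · have h2 := (hpw F hF.2).1.mul (hG F hF.2)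
        rw [hwt] at h2
        exact h2 _ (add_lt_add_of_le_of_lt le_rfl (hbest F hF.2 hF.1 hb))
      · simp only [Bl, not_forall] at hb
        obtain ⟨e, he, hne⟩ := hb
        have heF := (mem_inter.1 he).1
        have heQ := (mem_inter.1 he).2
        have hFQ : F ∩ Q ⊆ Q := inter_subset_right
        have h3 : ν (F ∩ Q) = ν ((F ∩ Q).erase e) := by
          have := h.p1 ((F ∩ Q).erase e) (((erase_subset _ _).trans hFQ).trans h.sub) e
            (h.sub heQ) (notMem_erase _ _)
          rw [insert_erase he] at this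
          omega
        have h4 : Gf δ (fun A => δ ^ c A) F = 0 := by
          refine Gf_zero δ _ heF fun A hA => ?_
          have heA : e ∉ A := fun h => notMem_erase e F (hA h)
          have hAE : A ⊆ E := (hA.trans (erase_subset _ _)).trans hF.2
          have hAQ : A ∩ Q ⊆ (F ∩ Q).erase e := by
            intro x hx
            rw [mem_inter] at hx
            have := hA hx.1
            rw [mem_erase] at this ⊢
            exact ⟨this.1, mem_inter.2 ⟨this.2, hx.2⟩⟩
          have h5 : ν (insert e (A ∩ Q)) = ν (A ∩ Q) := by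
            have h6 := h.p1 (A ∩ Q) (inter_subset_left.trans hAE) e (h.sub heQ)
              (fun h => heA (mem_inter.1 h).1)
            have h7 := h.p2 (A ∩ Q) ((F ∩ Q).erase e) hAQ ((erase_subset _ _).trans hFQ) e heQ
              (notMem_erase _ _)
            rw [insert_erase he] at h7
            omega
          have h8 := h.p3 A hAE e heQ heA h5
          rw [hν, hν, card_insert_of_notMem heA] at h8
          rw [← pow_succ']
          congr 1
          omega
        rw [h4, mul_zero]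
        rfl
    rw [h1, zero_add]
    have h2 := (hpw F0 (hF0Q.trans h.sub)).mul hG0
    rw [hwt] at h2
    rcases h2.2 with h3 | h3 <;> rw [h3] <;> norm_num
  · have e : (ofLex (B + Dw ν dv du F0)).1 = ∑ e ∈ E, bv e + ((ν F0 : ℤ) + ∑ e ∈ F0, dv e) := rfl
    rw [e]
    omega

end ld

end

end Run7.h849
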