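import Pool.Agent.Run7.h849.Blk
import Pool.Agent.Run7.h849.Bz

/-!
# Closed braids: the inequality of Morton, Franks and Williams
-/

set_option autoImplicit false

namespace Run7.h849.Z

open Run7.h849
open Pool.Agent.Helper454.Wh (insD delD swpD noD OPiece OWord below forget OClosed OStep OIsotopic)
open Pool.Agent.Helper454.Wh.OPiece (birth death pos neg)
open Pool.Agent.Helper454.Wh.Homf
open Pool.Agent.Helper454.Wh.Homf.Par

noncomputable section

set_option linter.unusedSectionVars false
set_option linter.unusedVariables false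

/-! ### the normal form in a Hecke algebra -/

section hecke
variable {A : Type} [Ring A]

/-- the subring generated by `c` and the first `k` generators -/
def Hk (g : ℕ → A) (c : A) (k : ℕ) : Subring A :=
  Subring.closure {x | x = c ∨ ∃ i, i < k ∧ x = g i}

/-- the elements in which the generator `k` occurs at most once -/
def Mk (g : ℕ → A) (c : A) (k : ℕ) : AddSubgroup A :=
  AddSubgroup.closure {x | x ∈ Hk g c k ∨ ∃ y ∈ Hk g c k, ∃ w ∈ Hk g c k, x = y * g k * w}

theorem Hk_mono (g : ℕ → A) (c : A) {k l : ℕ} (h : k ≤ l) : Hk g c k ≤ Hk g c l :=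
  Subring.closure_mono fun x hx => hx.imp id fun ⟨i, hi, e⟩ => ⟨i, by omega, e⟩

theorem Hk_gen (g : ℕ → A) (c : A) {i k : ℕ} (h : i < k) : g i ∈ Hk g c k :=
  Subring.subset_closure (Or.inr ⟨i, h, rfl⟩)

theorem Hk_c (g : ℕ → A) (c : A) (k : ℕ) : c ∈ Hk g c k :=
  Subring.subset_closure (Or.inl rfl)

theorem Hk_comm {g : ℕ → A} {c : A} (hcc : ∀ x, c * x = x * c) {k j : ℕ}
    (hc : ∀ i < k, g i * g j = g j * g i) {x : A} (hx : x ∈ Hk g c k) : x * g j = g j * x := by
  refine Subring.closure_induction (p := fun x _ => x * g j = g j * x) ?_ ?_ ?_ ?_ ?_ ?_ hx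
  · rintro x (rfl | ⟨i, hi, rfl⟩)
    · exact hcc _
    · exact hc i hi
  · simp
  · simp
  · intro x y _ _ h1 h2
    rw [add_mul, mul_add, h1, h2]
  · intro x _ h1
    rw [neg_mul, mul_neg, h1]
  · intro x y _ _ h1 h2
    rw [mul_assoc, h2, ← mul_assoc, h1, mul_assoc]

theorem Mk_of {g : ℕ → A} {c : A} {k : ℕ} {x : A} (hx : x ∈ Hk g c k) : x ∈ Mk g c k :=
  AddSubgroup.subset_closure (Or.inl hx)

theorem Mk_of2 {g : ℕ → A} {c : A} {k : ℕ} {y w : A} (hy : y ∈ Hk g c k) (hw : w ∈ Hk g c k) :
    y * g k * w ∈ Mk g c k :=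
  AddSubgroup.subset_closure (Or.inr ⟨y, hy, w, hw, rfl⟩)

theorem Mk_c {g : ℕ → A} {c : A} {k : ℕ} {m : A} (hm : m ∈ Mk g c k) : m * c ∈ Mk g c k := by
  refine AddSubgroup.closure_induction (p := fun m _ => m * c ∈ Mk g c k) ?_ ?_ ?_ ?_ hm
  · rintro m (hm | ⟨y, hy, w, hw, rfl⟩)
    · exact Mk_of (mul_mem hm (Hk_c g c k))
    · rw [mul_assoc]
      exact Mk_of2 hy (mul_mem hw (Hk_c g c k))
  · rw [zero_mul]; exact zero_mem _
  · intro x y _ _ h1 h2
    rw [add_mul]; exact add_mem h1 h2
  · intro x _ h1
    rw [neg_mul]; exact neg_mem h1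

theorem hecke {g : ℕ → A} {c : A} (hcc : ∀ x, c * x = x * c) {n : ℕ}
    (hq : ∀ i < n, g i * g i = 1 + c * g i)
    (hf : ∀ i j, i + 2 ≤ j → j < n → g i * g j = g j * g i)
    (hb : ∀ i, i + 1 < n → g i * g (i + 1) * g i = g (i + 1) * g i * g (i + 1)) (k : ℕ)
    (hk : k < n) : ∀ x ∈ Hk g c (k + 1), x ∈ Mk g c k := by
  induction k with
  | zero =>
    have key : ∀ x ∈ Hk g c 1, ∀ m ∈ Mk g c 0, m * x ∈ Mk g c 0 := by
      intro x hx
      refine Subring.closure_induction (p := fun x _ => ∀ m ∈ Mk g c 0, m * x ∈ Mk g c 0)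
        ?_ ?_ ?_ ?_ ?_ ?_ hx
      · rintro x (rfl | ⟨i, hi, rfl⟩) m hm
        · exact Mk_c hm
        obtain rfl : i = 0 := by omega
        have hc : ∀ w ∈ Hk g c 0, w * g 0 = g 0 * w := fun w hw =>
          Hk_comm hcc (fun i hi => absurd hi (by omega)) hw
        refine AddSubgroup.closure_induction (p := fun m _ => m * g 0 ∈ Mk g c 0) ?_ ?_ ?_ ?_ hm
        · rintro m (hm | ⟨y, hy, w, hw, rfl⟩)
          · have := Mk_of2 hm (one_mem (Hk g c 0))
            rwa [mul_one] at this
          · rw [mul_assoc, hc w hw, mul_assoc y, ← mul_assoc (g 0), hq 0 hk, add_mul, one_mul,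
              mul_add]
            refine add_mem (Mk_of (mul_mem hy hw)) ?_
            rw [show y * (c * g 0 * w) = y * c * g 0 * w by noncomm_ring]
            exact Mk_of2 (mul_mem hy (Hk_c g c 0)) hw
        · rw [zero_mul]; exact zero_mem _
        · intro x y _ _ h1 h2
          rw [add_mul]; exact add_mem h1 h2
        · intro x _ h1
          rw [neg_mul]; exact neg_mem h1
      · intro m _
        rw [mul_zero]; exact zero_mem _
      · intro m hm
        rwa [mul_one]
      · intro x y _ _ h1 h2 m hm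
        rw [mul_add]; exact add_mem (h1 m hm) (h2 m hm)
      · intro x _ h1 m hm
        rw [mul_neg]; exact neg_mem (h1 m hm)
      · intro x y _ _ h1 h2 m hm
        rw [← mul_assoc]; exact h2 _ (h1 m hm)
    intro x hx
    have := key x hx 1 (Mk_of (one_mem _))
    rwa [one_mul] at this
  | succ k ih =>
    have ih := ih (by omega)
    have key : ∀ x ∈ Hk g c (k + 2), ∀ m ∈ Mk g c (k + 1), m * x ∈ Mk g c (k + 1) := by
      intro x hx
      refine Subring.closure_induction
        (p := fun x _ => ∀ m ∈ Mk g c (k + 1), m * x ∈ Mk g c (k + 1))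
        ?_ ?_ ?_ ?_ ?_ ?_ hx
      · rintro x (rfl | ⟨i, hi, rfl⟩) m hm
        · exact Mk_c hm
        refine AddSubgroup.closure_induction (p := fun m _ => m * g i ∈ Mk g c (k + 1))
          ?_ ?_ ?_ ?_ hm
        · rcases (by omega : i < k + 1 ∨ i = k + 1) with hi | rfl
          · rintro m (hm | ⟨y, hy, w, hw, rfl⟩)
            · exact Mk_of (mul_mem hm (Hk_gen g c hi))
            · rw [mul_assoc]
              exact Mk_of2 hy (mul_mem hw (Hk_gen g c hi))
          · rintro m (hm | ⟨y, hy, w, hw, rfl⟩)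
            · have := Mk_of2 hm (one_mem (Hk g c (k + 1)))
              rwa [mul_one] at this
            · -- `y g w g` with `w ∈ M_k`
              have hc : ∀ u ∈ Hk g c k, u * g (k + 1) = g (k + 1) * u := fun u hu =>
                Hk_comm hcc (fun i hi => hf i (k + 1) (by omega) hk) hu
              refine AddSubgroup.closure_induction
                (p := fun w _ => y * g (k + 1) * w * g (k + 1) ∈ Mk g c (k + 1)) ?_ ?_ ?_ ?_
                (ih w hw)
              · rintro w (hw | ⟨u, hu, t, ht, rfl⟩)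
                · rw [mul_assoc, hc w hw, mul_assoc y, ← mul_assoc (g (k + 1)), hq _ hk, add_mul,
                    one_mul, mul_add]
                  refine add_mem (Mk_of (mul_mem hy (Hk_mono g c (by omega) hw))) ?_
                  rw [show y * (c * g (k + 1) * w) = y * c * g (k + 1) * w by noncomm_ring]
                  exact Mk_of2 (mul_mem hy (Hk_c g c _)) (Hk_mono g c (by omega) hw)
                · have e : y * g (k + 1) * (u * g k * t) * g (k + 1) =
                      (y * u * g k) * g (k + 1) * (g k * t) := by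
                    have b := hb k hk
                    calc y * g (k + 1) * (u * g k * t) * g (k + 1)
                        = y * (g (k + 1) * u) * g k * (t * g (k + 1)) := by noncomm_ring
                      _ = y * (u * g (k + 1)) * g k * (g (k + 1) * t) := by
                          rw [hc u hu, hc t ht]
                      _ = y * u * (g (k + 1) * g k * g (k + 1)) * t := by noncomm_ring
                      _ = y * u * (g k * g (k + 1) * g k) * t := by rw [b]
                      _ = _ := by noncomm_ring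
                  rw [e]
                  exact Mk_of2 (mul_mem (mul_mem hy (Hk_mono g c (by omega) hu))
                    (Hk_gen g c (by omega))) (mul_mem (Hk_gen g c (by omega))
                    (Hk_mono g c (by omega) ht))
              · simp only [mul_zero, zero_mul]; exact zero_mem _
              · intro a b _ _ h1 h2
                rw [mul_add, add_mul]; exact add_mem h1 h2
              · intro a _ h1
                rw [mul_neg, neg_mul]; exact neg_mem h1
        · rw [zero_mul]; exact zero_mem _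
        · intro x y _ _ h1 h2
          rw [add_mul]; exact add_mem h1 h2
        · intro x _ h1
          rw [neg_mul]; exact neg_mem h1
      · intro m _
        rw [mul_zero]; exact zero_mem _
      · intro m hm
        rwa [mul_one]
      · intro x y _ _ h1 h2 m hm
        rw [mul_add]; exact add_mem (h1 m hm) (h2 m hm)
      · intro x _ h1 m hm
        rw [mul_neg]; exact neg_mem (h1 m hm)
      · intro x y _ _ h1 h2 m hm
        rw [← mul_assoc]; exact h2 _ (h1 m hm)
    intro x hx
    have := key x hx 1 (Mk_of (one_mem _))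
    rwa [one_mul] at this

end hecke

/-! ### closed braids -/

/-- the directions of the strands of a closed braid -/
def dn (m : ℕ) : ℕ → Bool := fun k => decide (k < m)

theorem dn_ins (m : ℕ) : insD m true (dn m) = dn (m + 1) := by
  funext k
  simp only [insD, dn]
  split_ifs with h1 h2 h3
  · rw [decide_eq_true h1, decide_eq_true (by omega)]
  · rw [decide_eq_true (by omega)]
  · rw [decide_eq_false (by omega)]
    rfl
  · rw [decide_eq_false (by omega), decide_eq_false (by omega)]

theorem dn_del (m : ℕ) : delD m (dn (m + 1)) = dn m := by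
  funext k
  simp only [delD, dn]
  split_ifs with h1
  · rw [decide_eq_true (by omega), decide_eq_true h1]
  · rw [decide_eq_false (by omega), decide_eq_false h1]

theorem dn_zero : dn 0 = noD := by
  funext k
  simp [dn, noD]

theorem dn_lt {m k : ℕ} (h : k < m) : dn m k = true := decide_eq_true h
theorem dn_ge {m k : ℕ} (h : m ≤ k) : dn m k = false := decide_eq_false (by omega)

section gnr
variable {R : Type} [CommRing R] [Par R]

/-- the state below the maxima -/
def bv (R : Type) [CommRing R] [Par R] : ℕ → V R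
  | 0 => v0 R
  | m + 1 => B m true (bv R m)

/-- the functional of the minima -/
def dd (R : Type) [CommRing R] [Par R] : ℕ → V R →ₗ[R] R
  | 0 => Finsupp.lapply []
  | m + 1 => (dd R m).comp (D m m)

theorem bv_mem (m : ℕ) : bv R m ∈ W (R := R) m (dn m) := by
  induction m with
  | zero =>
    rw [dn_zero]
    exact v0_mem
  | succ m ih =>
    rw [← dn_ins]
    exact B_memW ih (by omega) true

theorem births_op (m : ℕ) : lv 0 ((List.range m).map (fun j => birth j true)) = m ∧
    opW R 0 ((List.range m).map (fun j => birth j true)) (v0 R) = bv R m := by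
  induction m with
  | zero => exact ⟨rfl, rfl⟩
  | succ m ih =>
    rw [List.range_succ, List.map_append, lv_append, opW_append, ih.1, ih.2]
    exact ⟨rfl, rfl⟩

theorem deaths_op (m : ℕ) (u : V R) :
    opW R m ((List.range m).reverse.map death) u [] = dd R m u := by
  induction m generalizing u with
  | zero => rfl
  | succ m ih =>
    rw [List.range_succ, List.reverse_append, List.reverse_singleton, List.map_append, opW_append]
    exact ih _

theorem gen_mem {m i : ℕ} (h : i + 1 < m) {v : V R} (hv : v ∈ W (R := R) m (dn m)) :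
    X m true i v ∈ W (R := R) m (dn m) := by
  have := crmem (R := R) true (i := i) (m := m) (by omega) hv
  rwa [swp_same (by rw [dn_lt (by omega), dn_lt h])] at this

/-- the states with `m` strands downwards -/
def WT (R : Type) [CommRing R] [Par R] (m : ℕ) : Type := ↥(W (R := R) m (dn m))

instance (m : ℕ) : AddCommGroup (WT R m) :=
  inferInstanceAs (AddCommGroup ↥(W (R := R) m (dn m)))

instance (m : ℕ) : Module R (WT R m) :=
  inferInstanceAs (Module R ↥(W (R := R) m (dn m)))

/-- the state as a vector -/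
def vl {m : ℕ} : WT R m →ₗ[R] V R where
  toFun v := v.1
  map_add' _ _ := rfl
  map_smul' _ _ := rfl

theorem vl_mem {m : ℕ} (v : WT R m) : vl v ∈ W (R := R) m (dn m) := v.2

theorem vl_inj {m : ℕ} {v w : WT R m} (h : vl v = vl w) : v = w := Subtype.ext h

/-- a vector as a state -/
def mkW {m : ℕ} (v : V R) (h : v ∈ W (R := R) m (dn m)) : WT R m := ⟨v, h⟩

theorem vl_mk {m : ℕ} (v : V R) (h : v ∈ W (R := R) m (dn m)) : vl (mkW v h) = v := rfl

theorem vl_add {m : ℕ} (v w : WT R m) : (vl (v + w) : V R) = vl v + vl w := rfl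

theorem vl_smul {m : ℕ} (r : R) (v : WT R m) : (vl (r • v) : V R) = r • vl v := rfl

/-- the generators of the Hecke algebra -/
def gen (R : Type) [CommRing R] [Par R] (m i : ℕ) : Module.End R (WT R m) :=
  if h : i + 1 < m then
    { toFun := fun v => mkW (X m true i (vl v)) (gen_mem h (vl_mem v))
      map_add' := fun v w => vl_inj (by
        simp only [vl_mk, vl_add]
        exact (X m true i).map_add _ _)
      map_smul' := fun r v => vl_inj (by
        simp only [vl_mk, vl_smul, RingHom.id_apply]
        exact (X m true i).map_smul _ _) }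
  else 1

theorem gen_coe {m i : ℕ} (h : i + 1 < m) (v : WT R m) :
    vl (gen R m i v) = X m true i (vl v) := by
  rw [gen, dif_pos h]
  rfl

/-- the multiplication by `z` -/
def cz (R : Type) [CommRing R] [Par R] (m : ℕ) : Module.End R (WT R m) := (z : R) • 1

theorem cz_apply {m : ℕ} (v : WT R m) : cz R m v = (z : R) • v := rfl

theorem cz_comm {m : ℕ} (x : Module.End R (WT R m)) : cz R m * x = x * cz R m := by
  rw [cz, smul_mul_assoc, mul_smul_comm, one_mul, mul_one]

theorem ze_true : ze R true = z := rfl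

theorem gen_sq {m i : ℕ} (h : i + 1 < m) :
    gen R m i * gen R m i = 1 + cz R m * gen R m i := by
  refine LinearMap.ext fun v => vl_inj ?_
  obtain ⟨m, rfl⟩ : ∃ m', m = m' + 1 := ⟨m - 1, by omega⟩
  have e := X_sq (R := R) (s := true) (m := m) (i := i) (by omega)
    (by rw [dn_lt h, dn_lt (by omega)]) (vl_mem v)
  rw [ze_true] at e
  rw [Module.End.mul_apply, LinearMap.add_apply, Module.End.one_apply, Module.End.mul_apply,
    cz_apply, map_add, map_smul, gen_coe h, gen_coe h]
  exact e

theorem gen_far {m i j : ℕ} (hij : i + 2 ≤ j) (h : j + 1 < m) :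
    gen R m i * gen R m j = gen R m j * gen R m i := by
  refine LinearMap.ext fun v => vl_inj ?_
  obtain ⟨m, rfl⟩ : ∃ m', m = m' + 1 := ⟨m - 1, by omega⟩
  rw [Module.End.mul_apply, Module.End.mul_apply, gen_coe h, gen_coe (show i + 1 < m + 1 by omega),
    gen_coe h, gen_coe (show i + 1 < m + 1 by omega)]
  exact (allRel m).1.xx true true i j (Nat.zero_le _) hij (by omega) _ (W_le (vl_mem v))

theorem gen_braid {m i : ℕ} (h : i + 2 < m) :
    gen R m i * gen R m (i + 1) * gen R m i =
      gen R m (i + 1) * gen R m i * gen R m (i + 1) := by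
  refine LinearMap.ext fun v => vl_inj ?_
  obtain ⟨m, rfl⟩ : ∃ m', m = m' + 1 := ⟨m - 1, by omega⟩
  have h1 : i + 1 + 1 < m + 1 := by omega
  have h2 : i + 1 < m + 1 := by omega
  simp only [Module.End.mul_apply, gen_coe h1, gen_coe h2]
  exact (allRel m).1.third i (Nat.zero_le _) (by omega) _ (W_le (vl_mem v))

/-- `y` and `y'` commute with the last maximum and the last minimum -/
def Itw (k : ℕ) (y : Module.End R (WT R (k + 2))) (y' : Module.End R (WT R (k + 1))) : Prop :=
  (∀ (v : WT R (k + 1)) (w : WT R (k + 2)), vl w = B (k + 1) true (vl v) →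
    vl (y w) = B (k + 1) true (vl (y' v))) ∧
  (∀ (v : WT R (k + 1)) (w : WT R (k + 2)), vl v = D (k + 1) (k + 1) (vl w) →
    vl (y' v) = D (k + 1) (k + 1) (vl (y w)))

/-- the elements of the smaller algebra commute with the last maximum and the last minimum -/
theorem intertwine (k : ℕ) {y : Module.End R (WT R (k + 2))}
    (hy : y ∈ Hk (gen R (k + 2)) (cz R (k + 2)) k) :
    ∃ y' ∈ Hk (gen R (k + 1)) (cz R (k + 1)) k, Itw k y y' := by
  refine Subring.closure_induction
    (p := fun y _ => ∃ y' ∈ Hk (gen R (k + 1)) (cz R (k + 1)) k, Itw k y y')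
    ?_ ?_ ?_ ?_ ?_ ?_ hy
  · rintro y (rfl | ⟨i, hi, rfl⟩)
    · refine ⟨cz R (k + 1), Hk_c _ _ _, ?_, ?_⟩
      · intro v w hw
        rw [cz_apply, cz_apply, map_smul, map_smul, hw, map_smul]
      · intro v w hv
        rw [cz_apply, cz_apply, map_smul, map_smul, hv, map_smul]
    refine ⟨gen R (k + 1) i, Hk_gen _ _ hi, ?_, ?_⟩
    · intro v w hw
      rw [gen_coe (show i + 1 < k + 2 by omega), gen_coe (show i + 1 < k + 1 by omega), hw]
      exact (allRel (k + 1)).1.bx true (k + 1) i (Nat.zero_le _) (by omega) (by omega) true _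
        (W_le (vl_mem v))
    · intro v w hv
      rw [gen_coe (show i + 1 < k + 2 by omega), gen_coe (show i + 1 < k + 1 by omega), hv]
      exact (DX2 true (i := i) (j := k + 1) (by omega) (by omega)
        (by rw [dn_ge (by omega), dn_lt (by omega)]; rfl) (vl_mem w)).symm
  · refine ⟨0, zero_mem _, ?_, ?_⟩
    · intro v w _
      simp
    · intro v w _
      simp
  · refine ⟨1, one_mem _, ?_, ?_⟩
    · intro v w h
      exact h
    · intro v w h
      exact h
  · rintro x y _ _ ⟨x', hx, h1, h2⟩ ⟨y', hy, h3, h4⟩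
    refine ⟨x' + y', add_mem hx hy, ?_, ?_⟩
    · intro v w h
      simp only [LinearMap.add_apply, map_add, h1 v w h, h3 v w h]
    · intro v w h
      simp only [LinearMap.add_apply, map_add, h2 v w h, h4 v w h]
  · rintro x _ ⟨x', hx, h1, h2⟩
    refine ⟨-x', neg_mem hx, ?_, ?_⟩
    · intro v w h
      simp only [LinearMap.neg_apply, map_neg, h1 v w h]
    · intro v w h
      simp only [LinearMap.neg_apply, map_neg, h2 v w h]
  · rintro x y _ _ ⟨x', hx, h1, h2⟩ ⟨y', hy, h3, h4⟩
    refine ⟨x' * y', mul_mem hx hy, ?_, ?_⟩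
    · intro v w h
      exact h1 (y' v) (y w) (h3 v w h)
    · intro v w h
      exact h2 (y' v) (y w) (h4 v w h)

/-- the state below the maxima -/
def bw (R : Type) [CommRing R] [Par R] (m : ℕ) : WT R m := mkW (bv R m) (bv_mem m)

/-- without strands and generators only scalars are left -/
theorem scal {S : AddSubgroup R} (Sz : ∀ r ∈ S, (z : R) * r ∈ S) {m : ℕ}
    {g : ℕ → Module.End R (WT R m)} {x : Module.End R (WT R m)} (hx : x ∈ Hk g (cz R m) 0)
    (f : V R →ₗ[R] R) : ∀ v : WT R m, (f (vl v) ∈ S) → f (vl (x v)) ∈ S := by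
  refine Subring.closure_induction
    (p := fun x _ => ∀ v : WT R m, (f (vl v) ∈ S) → f (vl (x v)) ∈ S)
    ?_ ?_ ?_ ?_ ?_ ?_ hx
  · rintro x (rfl | ⟨i, hi, rfl⟩) v hv
    · rw [cz_apply, map_smul, map_smul, smul_eq_mul]
      exact Sz _ hv
    · omega
  · intro v _
    simp
  · intro v hv
    exact hv
  · intro x y _ _ h1 h2 v hv
    rw [LinearMap.add_apply, map_add, map_add]
    exact add_mem (h1 v hv) (h2 v hv)
  · intro x _ h1 v hv
    rw [LinearMap.neg_apply, map_neg, map_neg]
    exact neg_mem (h1 v hv)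
  · intro x y _ _ h1 h2 v hv
    exact h1 _ (h2 v hv)

theorem trace_Bd {S : ℕ → AddSubgroup R} (S1 : (1 : R) ∈ S 0)
    (Sz : ∀ m, ∀ r ∈ S m, (z : R) * r ∈ S m)
    (Sd : ∀ m, ∀ r ∈ S m, (dl : R) * r ∈ S (m + 1)) (Sa : ∀ m, ∀ r ∈ S m, (a : R) * r ∈ S (m + 1))
    (k : ℕ) : ∀ x ∈ Hk (gen R (k + 1)) (cz R (k + 1)) k,
      dd R (k + 1) (vl (x (bw R (k + 1)))) ∈ S (k + 1) := by
  induction k with
  | zero =>
    intro x hx
    refine scal (Sz 1) hx (dd R 1) _ ?_
    have e2 : dd R 1 (vl (bw R 1)) = dl := by
      show D 0 0 (B 0 true (v0 R)) [] = dl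
      rw [D_B (d := noD) (by omega) true v0_mem, Finsupp.smul_apply, v0, Finsupp.single_eq_same,
        smul_eq_mul, mul_one]
    show dd R 1 _ ∈ S 1
    rw [e2]
    have := Sd 0 1 S1
    rwa [mul_one] at this
  | succ k ih =>
    intro x hx
    have hM := hecke (g := gen R (k + 2)) (c := cz R (k + 2)) (n := k + 1) cz_comm
      (fun i hi => gen_sq (by omega))
      (fun i j hij hj => gen_far hij (by omega)) (fun i hi => gen_braid (by omega)) k (by omega) x
      hx
    refine AddSubgroup.closure_induction (p := fun x _ =>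
      dd R (k + 2) (vl (x (bw R (k + 2)))) ∈ S (k + 2)) ?_ ?_ ?_ ?_ hM
    · rintro x (hx | ⟨y, hy, w, hw, rfl⟩)
      · obtain ⟨x', hx', h1, -⟩ := intertwine k hx
        have e := h1 (bw R (k + 1)) (bw R (k + 2)) rfl
        rw [e]
        show dd R (k + 1) (D (k + 1) (k + 1) _) ∈ S (k + 2)
        rw [D_B (by omega) true (vl_mem _), map_smul, smul_eq_mul]
        exact Sd _ _ (ih x' hx')
      · obtain ⟨w', hw', h1, -⟩ := intertwine k hw
        obtain ⟨y', hy', -, h2⟩ := intertwine k hy
        have e := h1 (bw R (k + 1)) (bw R (k + 2)) rfl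
        have e2 : D (k + 1) (k + 1) (vl (gen R (k + 2) k (w (bw R (k + 2))))) =
            (a : R) • vl (w' (bw R (k + 1))) := by
          rw [gen_coe (by omega), e]
          exact curlL (s := true) (b := true) (by omega) (dn_lt (by omega)) (vl_mem _)
        have e3 := h2 ((a : R) • w' (bw R (k + 1)))
          (gen R (k + 2) k (w (bw R (k + 2)))) (by rw [e2, map_smul])
        show dd R (k + 1) (D (k + 1) (k + 1) (vl (y (gen R (k + 2) k (w (bw R (k + 2))))))) ∈
          S (k + 2)
        rw [← e3, map_smul, map_smul, map_smul, smul_eq_mul]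
        exact Sa _ _ (ih (y' * w') (mul_mem hy' hw'))
    · simp only [LinearMap.zero_apply, map_zero]
      exact zero_mem _
    · intro a b _ _ h1 h2
      simp only [LinearMap.add_apply, map_add]
      exact add_mem h1 h2
    · intro a _ h1
      simp only [LinearMap.neg_apply, map_neg]
      exact neg_mem h1

/-- the operator of a braid word is in the algebra -/
theorem braid_op {m : ℕ} {α : List (ℕ × Bool)} (h : BraidWord m α) :
    ∃ x ∈ Hk (gen R m) (cz R m) (m - 1), lv m (α.map (fun g => cx g.2 g.1)) = m ∧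
      ∀ v : WT R m, opW R m (α.map (fun g => cx g.2 g.1)) (vl v) = vl (x v) := by
  induction α with
  | nil => exact ⟨1, one_mem _, rfl, fun v => rfl⟩
  | cons g α ih =>
    obtain ⟨x, hx, h1, h2⟩ := ih fun g hg => h g (by simp [hg])
    obtain ⟨i, s⟩ := g
    have hi : i + 1 < m := h (i, s) (by simp)
    have key : ∃ y ∈ Hk (gen R m) (cz R m) (m - 1), ∀ v : WT R m, X m s i (vl v) = vl (y v) := by
      cases s
      · refine ⟨gen R m i - cz R m, sub_mem (Hk_gen _ _ (by omega)) (Hk_c _ _ _), fun v => ?_⟩
        rw [LinearMap.sub_apply, map_sub, gen_coe hi, cz_apply, map_smul]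
        obtain ⟨m, rfl⟩ : ∃ m', m = m' + 1 := ⟨m - 1, by omega⟩
        have e := X_par (R := R) (s := true) (m := m) (i := i) (by omega)
          (by rw [dn_lt hi, dn_lt (by omega)]) (vl_mem v)
        rw [ze_true] at e
        rw [e, add_sub_cancel_right]
        rfl
      · exact ⟨gen R m i, Hk_gen _ _ (by omega), fun v => (gen_coe hi v).symm⟩
    obtain ⟨y, hy, h3⟩ := key
    refine ⟨x * y, mul_mem hx hy, ?_, fun v => ?_⟩
    · rw [List.map_cons, lv, nx_cx, h1]
    · rw [List.map_cons, opW_cons, pc_cx, nx_cx, h3, h2]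
      rfl

theorem ev_clo {S : ℕ → AddSubgroup R} (S1 : (1 : R) ∈ S 0)
    (Sz : ∀ m, ∀ r ∈ S m, (z : R) * r ∈ S m)
    (Sd : ∀ m, ∀ r ∈ S m, (dl : R) * r ∈ S (m + 1)) (Sa : ∀ m, ∀ r ∈ S m, (a : R) * r ∈ S (m + 1))
    {m : ℕ} {α : List (ℕ × Bool)} (h : BraidWord m α) : ev R (clo m α) ∈ S m := by
  obtain ⟨x, hx, h1, h2⟩ := braid_op (R := R) h
  have e : ev R (clo m α) = dd R m (vl (x (bw R m))) := by
    rw [ev, clo, opW_append, opW_append, lv_append, (births_op (R := R) m).1,
      (births_op (R := R) m).2, h1, deaths_op]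
    exact congrArg (dd R m) (h2 (bw R m))
  rw [e]
  rcases m with _ | m
  · refine scal (Sz 0) hx (dd R 0) _ ?_
    have : dd R 0 (vl (bw R 0)) = 1 := by
      show (v0 R) [] = 1
      exact Finsupp.single_eq_same
    rw [this]
    exact S1
  · exact trace_Bd S1 Sz Sd Sa m x hx

end gnr

end

end Run7.h849.Z
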