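import Pool.Agent.Run7.h849.Red

/-!
# The combinatorics of the chains in the plane

Base diagrams are words in maxima, minima and chains; in a crossingless state every chain is either
left alone or reconnected.
-/

set_option autoImplicit false

namespace Run7.h849

noncomputable section

/-- one reconnection of a vertex -/
def rs (b : Bool) (i : ℕ) : List Pc := if b then KK i else []

theorem rs_wd {b : Bool} {i n : ℕ} (h : i + 2 ≤ n) : cwd (rs b i) n = some n := by
  cases b
  · rfl
  · refine cwd_d.2 ⟨h, cwd_b.2 ⟨by omega, ?_⟩⟩
    rw [show n - 2 + 2 = n by omega]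
    rfl

/-- without the chains -/
def rd : List Bs → List Pc
  | [] => []
  | .b i :: w => .b i :: rd w
  | .d i :: w => .d i :: rd w
  | .c _ _ :: w => rd w

/-- the light chains at the places `i` with `i % 2 = q` are reconnected -/
def rq (q : ℕ) : List Bs → List Pc
  | [] => []
  | .b i :: w => .b i :: rq q w
  | .d i :: w => .d i :: rq q w
  | .c i ns :: w => rs (light ns && decide (i % 2 = q)) i ++ rq q w

/-- the colours of the regions -/
def F (s : ℕ → Bool) : ℕ → Bool
  | 0 => false
  | g + 1 => xor (F s g) (s g)

/-- the colours of the strands given by the colours of the regions -/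
def tr (q : ℕ) (s : ℕ → Bool) : ℕ → Bool := fun j => if j % 2 = q then F s j else F s (j + 1)

theorem F_ins_le {i g : ℕ} (h : g ≤ i) (x : Bool) (s : ℕ → Bool) : F (ins i x s) g = F s g := by
  induction g with
  | zero => rfl
  | succ g ih =>
    rw [F, F, ih (by omega)]
    congr 1
    simp only [ins]
    rw [if_pos (by omega)]

theorem F_ins_one (i : ℕ) (x : Bool) (s : ℕ → Bool) :
    F (ins i x s) (i + 1) = xor (F s i) x := by
  rw [F, F_ins_le (le_refl i), ins_at]

theorem F_ins_ge {i g : ℕ} (h : i ≤ g) (x : Bool) (s : ℕ → Bool) :
    F (ins i x s) (g + 2) = F s g := by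
  induction g, h using Nat.le_induction with
  | base =>
    rw [F, F_ins_one, ins_at1, Bool.xor_assoc, Bool.xor_self, Bool.xor_false]
  | succ g hg ih =>
    rw [show g + 1 + 2 = (g + 2) + 1 by ring, F, ih, F]
    congr 1
    simp only [ins]
    rw [if_neg (by omega), if_neg (by omega)]
    rfl

theorem F_del_le {i g : ℕ} (h : g ≤ i) (s : ℕ → Bool) : F (del i s) g = F s g := by
  induction g with
  | zero => rfl
  | succ g ih =>
    rw [F, F, ih (by omega)]
    congr 1
    simp only [del]
    rw [if_pos (by omega)]

theorem F_two {i : ℕ} {s : ℕ → Bool} (h : s i = s (i + 1)) : F s (i + 2) = F s i := by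
  rw [F, F, h, Bool.xor_assoc, Bool.xor_self, Bool.xor_false]

theorem F_del_ge {i g : ℕ} (h : i ≤ g) {s : ℕ → Bool} (hs : s i = s (i + 1)) :
    F (del i s) g = F s (g + 2) := by
  induction g, h using Nat.le_induction with
  | base => rw [F_del_le (le_refl i), F_two hs]
  | succ g hg ih =>
    rw [show g + 1 + 2 = (g + 2) + 1 by ring, F, ih, F]
    congr 1
    simp only [del]
    rw [if_neg (by omega)]

/-- the colour of a new pair of strands -/
def nc (q i : ℕ) (x : Bool) (s : ℕ → Bool) : Bool := if i % 2 = q then F s i else xor (F s i) x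

theorem tr_ins {q : ℕ} (hq : q < 2) (i : ℕ) (x : Bool) (s : ℕ → Bool) :
    tr q (ins i x s) = ins i (nc q i x s) (tr q s) := by
  funext k
  by_cases h1 : k < i
  · have e : ins i (nc q i x s) (tr q s) k = tr q s k := by
      simp only [ins]
      rw [if_pos h1]
    rw [e]
    simp only [tr]
    rw [F_ins_le (by omega : k ≤ i), F_ins_le (by omega : k + 1 ≤ i)]
  · by_cases h2 : k < i + 2
    · have e : ins i (nc q i x s) (tr q s) k = nc q i x s := by
        simp only [ins]
        rw [if_neg h1, if_pos h2]
      rw [e]
      rcases (by omega : k = i ∨ k = i + 1) with rfl | rfl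
      · simp only [tr, nc]
        rw [F_ins_le (le_refl k), F_ins_one]
      · simp only [tr, nc]
        rw [F_ins_ge (le_refl i), F_ins_one]
        by_cases h : i % 2 = q
        · rw [if_neg (by omega), if_pos h]
        · rw [if_pos (by omega), if_neg h]
    · obtain ⟨k, rfl⟩ : ∃ k', k = k' + 2 := ⟨k - 2, by omega⟩
      have e : ins i (nc q i x s) (tr q s) (k + 2) = tr q s k := by
        simp only [ins]
        rw [if_neg h1, if_neg h2]
        rfl
      rw [e]
      simp only [tr]
      rw [F_ins_ge (by omega : i ≤ k), show k + 2 + 1 = (k + 1) + 2 by ring,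
        F_ins_ge (by omega : i ≤ k + 1), show (k + 2) % 2 = k % 2 by omega]

theorem tr_del {q : ℕ} {i : ℕ} {s : ℕ → Bool} (hs : s i = s (i + 1)) :
    tr q (del i s) = del i (tr q s) := by
  funext k
  by_cases h1 : k < i
  · have e : del i (tr q s) k = tr q s k := by
      simp only [del]
      rw [if_pos h1]
    rw [e]
    simp only [tr]
    rw [F_del_le (by omega : k ≤ i), F_del_le (by omega : k + 1 ≤ i)]
  · have e : del i (tr q s) k = tr q s (k + 2) := by
      simp only [del]
      rw [if_neg h1]
    rw [e]
    simp only [tr]
    rw [F_del_ge (by omega : i ≤ k) hs, F_del_ge (by omega : i ≤ k + 1) hs,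
      show (k + 2) % 2 = k % 2 by omega]

theorem tr_eq {q : ℕ} (hq : q < 2) {i : ℕ} {s : ℕ → Bool} (h : i % 2 = q → s i = s (i + 1)) :
    tr q s i = tr q s (i + 1) := by
  simp only [tr]
  by_cases h1 : i % 2 = q
  · rw [if_pos h1, if_neg (by omega), F_two (h h1)]
  · rw [if_neg h1, if_pos (by omega)]

theorem tr_iff {q : ℕ} (hq : q < 2) {i : ℕ} {s : ℕ → Bool} (h1 : i % 2 = q) :
    tr q s i = tr q s (i + 1) ↔ s i = s (i + 1) := by
  constructor
  · intro h
    simp only [tr] at h
    rw [if_pos h1, if_neg (by omega), F, F] at h
    revert h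
    cases F s i <;> cases s i <;> cases s (i + 1) <;> simp
  · intro h
    exact tr_eq hq fun _ => h

theorem tr_z0 (q : ℕ) : tr q z0 = z0 := by
  have : ∀ g, F z0 g = false := by
    intro g
    induction g with
    | zero => rfl
    | succ g ih => rw [F, ih]; rfl
  funext k
  simp only [tr, this]
  split_ifs <;> rfl

theorem Rch_tr {q : ℕ} (hq : q < 2) {w : List Pc} {s s' : ℕ → Bool} (h : Rch w s s') :
    Rch w (tr q s) (tr q s') := by
  induction w generalizing s with
  | nil =>
    rw [Rch] at h ⊢
    rw [h]
  | cons p w ih =>
    cases p with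
    | b i =>
      obtain ⟨x, hx⟩ := h
      have := ih hx
      rw [tr_ins hq] at this
      exact ⟨_, this⟩
    | d i =>
      obtain ⟨h1, h2⟩ := h
      have := ih h2
      rw [tr_del h1] at this
      exact ⟨tr_eq hq fun _ => h1, this⟩

theorem Rch_rs {b : Bool} {i : ℕ} {w : List Pc} {s s' : ℕ → Bool} (h : Rch (rs b i ++ w) s s') :
    (b = true → s i = s (i + 1)) := by
  intro hb
  subst hb
  exact h.1

theorem Rc_tr {q : ℕ} (hq : q < 2) {w : List Bs} {s s' : ℕ → Bool} (h : Rch (rq q w) s s') :
    Rc w (tr q s) (tr q s') := by
  induction w generalizing s with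
  | nil =>
    rw [rq, Rch] at h
    rw [Rc, h]
  | cons p w ih =>
    cases p with
    | b i =>
      obtain ⟨x, hx⟩ := h
      have := ih hx
      rw [tr_ins hq] at this
      exact ⟨_, this⟩
    | d i =>
      obtain ⟨h1, h2⟩ := h
      have := ih h2
      rw [tr_del h1] at this
      exact ⟨tr_eq hq fun _ => h1, this⟩
    | c i ns =>
      rw [rq] at h
      have h0 := Rch_rs h
      cases hb : (light ns && decide (i % 2 = q))
      · rw [hb] at h
        refine ⟨fun hl => ?_, ih h⟩
        rw [hl] at hb
        have : ¬ i % 2 = q := by simpa using hb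
        exact tr_eq hq fun h => absurd h this
      · have h3 := h0 hb
        rw [hb] at h
        obtain ⟨-, x, hx⟩ := h
        have h4 := ih hx
        have hi : i % 2 = q := by
          rw [Bool.and_eq_true, decide_eq_true_eq] at hb
          exact hb.2
        have e : tr q (ins i x (del i s)) = tr q s := by
          have e1 : tr q s i = tr q s (i + 1) := tr_eq hq fun _ => h3
          rw [tr_ins hq, tr_del h3, nc, if_pos hi, F_del_le (le_refl i)]
          have e2 : F s i = tr q s i := by
            simp only [tr]
            rw [if_pos hi]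
          rw [e2, ins_del e1]
        rw [e] at h4
        exact ⟨fun _ => tr_eq hq fun _ => h3, h4⟩

theorem rq_wd {q : ℕ} {w : List Bs} {n : ℕ} (h : Wd n w) : cwd (rq q w) n = some 0 := by
  induction w generalizing n with
  | nil =>
    obtain rfl : n = 0 := h
    rfl
  | cons p w ih =>
    cases p with
    | b i => exact cwd_b.2 ⟨h.1, ih h.2⟩
    | d i => exact cwd_d.2 ⟨h.1, ih h.2⟩
    | c i ns => exact cwd_append_of (rs_wd h.1) (ih h.2)

theorem rd_wd {w : List Bs} {n : ℕ} (h : Wd n w) : cwd (rd w) n = some 0 := by
  induction w generalizing n with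
  | nil =>
    obtain rfl : n = 0 := h
    rfl
  | cons p w ih =>
    cases p with
    | b i => exact cwd_b.2 ⟨h.1, ih h.2⟩
    | d i => exact cwd_d.2 ⟨h.1, ih h.2⟩
    | c i ns => exact ih h.2

theorem rq_append (q : ℕ) (a b : List Bs) : rq q (a ++ b) = rq q a ++ rq q b := by
  induction a with
  | nil => rfl
  | cons p a ih =>
    cases p with
    | b i => rw [List.cons_append, rq, rq, ih]; rfl
    | d i => rw [List.cons_append, rq, rq, ih]; rfl
    | c i ns => rw [List.cons_append, rq, rq, ih, List.append_assoc]

/-! ### counting curves -/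

/-- the chain at `i` between `x` and `y` joins two different components of the light chains before
it -/
def mg (x : List Bs) (i : ℕ) (y : List Bs) : Prop :=
  ∃ u s', Rc x z0 u ∧ Rch (rd y) u s' ∧ u i ≠ u (i + 1)

open Classical in
/-- `1` if `mg` holds, else `0` -/
def mgn (x : List Bs) (i : ℕ) (y : List Bs) : ℕ := if mg x i y then 1 else 0

/-- the number of the light chains of `y`, after `x`, which join different components of the light
chains before them -/
def cT : List Bs → List Bs → ℕ
  | _, [] => 0
  | x, .b i :: y => cT (x ++ [.b i]) y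
  | x, .d i :: y => cT (x ++ [.d i]) y
  | x, .c i ns :: y => (if light ns = true then mgn x i y else 0) + cT (x ++ [.c i ns]) y

/-- the number of the light chains -/
def cL : List Bs → ℕ
  | [] => 0
  | .b _ :: y => cL y
  | .d _ :: y => cL y
  | .c _ ns :: y => (if light ns = true then 1 else 0) + cL y

theorem count_ineq {x y : List Bs} {n : ℕ} (hx : cwd (rq 1 x) 0 = some n)
    (hx' : cwd (rq 0 x) 0 = some n) (hy : Wd n y) :
    cc (rq 1 x ++ rd y) + cc (rq 0 x ++ rd y) + cL y ≤
      cc (rq 1 (x ++ y)) + cc (rq 0 (x ++ y)) + 2 * cT x y := by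
  induction y generalizing x n with
  | nil => simp [rd, cL, cT]
  | cons p y ih =>
    cases p with
    | b i =>
      have := ih (x := x ++ [.b i]) (n := n + 2)
        (by rw [rq_append]; exact cwd_append_of hx (cwd_b.2 ⟨hy.1, rfl⟩))
        (by rw [rq_append]; exact cwd_append_of hx' (cwd_b.2 ⟨hy.1, rfl⟩)) hy.2
      simpa [rq_append, rq, rd, cL, cT] using this
    | d i =>
      have := ih (x := x ++ [.d i]) (n := n - 2)
        (by rw [rq_append]; exact cwd_append_of hx (cwd_d.2 ⟨hy.1, rfl⟩))
        (by rw [rq_append]; exact cwd_append_of hx' (cwd_d.2 ⟨hy.1, rfl⟩)) hy.2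
      simpa [rq_append, rq, rd, cL, cT] using this
    | c i ns =>
      have h1 := ih (x := x ++ [.c i ns]) (n := n)
        (by
          rw [rq_append]
          refine cwd_append_of hx ?_
          rw [rq, rq, List.append_nil]
          exact rs_wd hy.1)
        (by
          rw [rq_append]
          refine cwd_append_of hx' ?_
          rw [rq, rq, List.append_nil]
          exact rs_wd hy.1) hy.2
      rw [List.append_assoc, List.singleton_append] at h1
      rw [rd, cL, cT]
      have key : cc (rq 1 x ++ rd y) + cc (rq 0 x ++ rd y) + (if light ns = true then 1 else 0) ≤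
          cc (rq 1 (x ++ [.c i ns]) ++ rd y) + cc (rq 0 (x ++ [.c i ns]) ++ rd y) +
            2 * (if light ns = true then mgn x i y else 0) := by
        cases hl : light ns
        · simp [rq_append, rq, hl, rs]
        · have hfl : ∀ q, q < 2 → cwd (rq q x) 0 = some n → i % 2 = q →
              cc (rq q x ++ rd y) + 1 ≤ cc (rq q x ++ KK i ++ rd y) +
                2 * mgn x i y := by
            intro q hq hxq hiq
            have hc1 : cwd (rq q x ++ rd y) 0 = some 0 := cwd_append_of hxq (rd_wd hy.2)
            have hc2 : cwd (rq q x ++ KK i ++ rd y) 0 = some 0 :=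
              cwd_append_of (cwd_append_of hxq (rs_wd (b := true) hy.1)) (rd_wd hy.2)
            rw [mgn]
            split_ifs with hm
            · have := flip_pm hc1 hc2
              omega
            · have := (flip_cc hc1 hc2).2 fun u s h3 h4 => by
                by_contra h7
                have h5 := Rc_tr hq h3
                have h6 := Rch_tr hq h4
                rw [tr_z0] at h5
                exact hm ⟨_, _, h5, h6, fun h8 => h7 ((tr_iff hq hiq).1 h8)⟩
              omega
          simp only [rq_append, rq, hl, Bool.true_and, if_true, List.append_nil]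
          rcases Nat.mod_two_eq_zero_or_one i with h | h
          · have := hfl 0 (by omega) hx' h
            simp only [h, decide_true, zero_ne_one, decide_false, rs, if_true,
              Bool.false_eq_true, if_false, List.append_nil]
            omega
          · have := hfl 1 (by omega) hx h
            simp only [h, decide_true, one_ne_zero, decide_false, rs, if_true,
              Bool.false_eq_true, if_false, List.append_nil]
            omega
      omega

end

end Run7.h849
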