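import Pool.Agent.Run7.h849.Lx
import Pool.Agent.Run7.h849.Mz

/-!
# The two rings, the leading terms of the coefficients of the chains, and the upper bound for the
exponents of closed braids
-/

set_option autoImplicit false

namespace Run7.h849

open Pool.Agent.Helper454.Wh (insD delD swpD noD OPiece OWord below forget OClosed OStep OIsotopic)
open Pool.Agent.Helper454.Wh.Homf
open Pool.Agent.Helper454.Wh.Homf.Par

noncomputable section

set_option linter.unusedSectionVars false
set_option linter.unusedVariables false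

/-- the ring for the highest power of `v` (`s = true`) or of `v^{-1}` (`s = false`) -/
def Rt (s : Bool) : Type := Rg

instance (s : Bool) : CommRing (Rt s) := inferInstanceAs (CommRing Rg)

/-- the sign -/
def sg1 (s : Bool) : ℤ := if s then 1 else -1

/-- an element of the ring as a Laurent polynomial -/
def un {s : Bool} (p : Rt s) : Rg := p

/-- a Laurent polynomial as an element of the ring -/
def rt (s : Bool) (p : Rg) : Rt s := p

theorem mo_inv (x y : ℤ) : mo x y * mo (-x) (-y) = 1 := by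
  rw [← mo_add, add_neg_cancel, add_neg_cancel]
  rfl

theorem mo_inv' (x y : ℤ) : mo (-x) (-y) * mo x y = 1 := by
  rw [mul_comm, mo_inv]

instance (s : Bool) : Par (Rt s) where
  a := rt s (mo (-sg1 s) (-sg1 s))
  ai := rt s (mo (sg1 s) (sg1 s))
  z := rt s (mo 0 1)
  zi := rt s (mo 0 (-1))
  dl := rt s (mo 0 (-1) * (mo (-sg1 s) (-sg1 s) - mo (sg1 s) (sg1 s)))
  h1 := mo_inv' _ _
  h2 := by
    show mo 0 1 * (mo 0 (-1) * (mo (-sg1 s) (-sg1 s) - mo (sg1 s) (sg1 s))) =
      mo (-sg1 s) (-sg1 s) - mo (sg1 s) (sg1 s)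
    have := mo_inv 0 1
    rw [neg_zero] at this
    rw [← mul_assoc, this, one_mul]
  h3 := by
    have := mo_inv 0 1
    rw [neg_zero] at this
    exact this

/-! ### bounds for the exponents of `v` -/

/-- the exponents of `v` are at most `m` -/
def Vb (m : ℤ) : AddSubgroup Rg where
  carrier := {r | ∀ k : Gx, m < (ofLex k).1 → r.coeff k = 0}
  zero_mem' := fun k _ => rfl
  add_mem' := fun {a b} ha hb k hk => by
    rw [AddMonoidAlgebra.coeff_add, Finsupp.add_apply, ha k hk, hb k hk, add_zero]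
  neg_mem' := fun {a} ha k hk => by
    rw [AddMonoidAlgebra.coeff_neg, Finsupp.neg_apply, ha k hk, neg_zero]

theorem Vb_mo (x y : ℤ) : mo x y ∈ Vb x := by
  intro k hk
  rw [mo, AddMonoidAlgebra.coeff_single, Finsupp.single_apply, if_neg]
  rintro rfl
  exact absurd hk (lt_irrefl _)

theorem Vb_mul {p q : Rg} {m n : ℤ} (hp : p ∈ Vb m) (hq : q ∈ Vb n) : p * q ∈ Vb (m + n) := by
  classical
  intro k hk
  rw [AddMonoidAlgebra.coeff_mul, Finsupp.sum]
  refine Finset.sum_eq_zero fun a ha => ?_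
  rw [Finsupp.sum]
  refine Finset.sum_eq_zero fun b hb => ?_
  split_ifs with h
  · subst h
    have h1 : (ofLex (a + b)).1 = (ofLex a).1 + (ofLex b).1 := rfl
    rw [h1] at hk
    by_cases h2 : m < (ofLex a).1
    · rw [hp a h2, zero_mul]
    · rw [hq b (by omega), mul_zero]
  · rfl

theorem Vb_mono {m n : ℤ} (h : m ≤ n) {p : Rg} (hp : p ∈ Vb m) : p ∈ Vb n :=
  fun k hk => hp k (by omega)

theorem Vb_pow {p : Rg} {m : ℤ} (hp : p ∈ Vb m) (n : ℕ) : p ^ n ∈ Vb (n * m) := by
  induction n with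
  | zero =>
    rw [pow_zero, Nat.cast_zero, zero_mul]
    exact Vb_mo 0 0
  | succ n ih =>
    rw [pow_succ, Nat.cast_succ, add_mul, one_mul]
    exact Vb_mul ih hp

theorem sg1_le (s : Bool) : sg1 s ≤ 1 ∧ -sg1 s ≤ 1 := by
  cases s <;> simp [sg1]

theorem Vb_dl (s : Bool) : un (dl : Rt s) ∈ Vb 1 := by
  show mo 0 (-1) * (mo (-sg1 s) (-sg1 s) - mo (sg1 s) (sg1 s)) ∈ Vb 1
  have h := sg1_le s
  have := Vb_mul (Vb_mo 0 (-1)) (sub_mem (Vb_mono h.2 (Vb_mo (-sg1 s) (-sg1 s)))
    (Vb_mono h.1 (Vb_mo (sg1 s) (sg1 s))))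
  rwa [zero_add] at this

/-- `Vb m` as a subgroup of the ring -/
def Sb (s : Bool) (m : ℕ) : AddSubgroup (Rt s) := Vb m

theorem ev_Vb {s : Bool} {m : ℕ} {α : List (ℕ × Bool)} (h : BraidWord m α) :
    un (ev (Rt s) (clo m α)) ∈ Vb m := by
  refine Z.ev_clo (S := Sb s) ?_ ?_ ?_ ?_ h
  · exact Vb_mo 0 0
  · intro m r hr
    have := Vb_mul (Vb_mo 0 1) hr
    rw [zero_add] at this
    exact this
  · intro m r hr
    have := Vb_mul (Vb_dl s) hr
    rw [add_comm] at this
    show dl * r ∈ Vb ((m + 1 : ℕ) : ℤ)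
    push_cast
    exact this
  · intro m r hr
    have := Vb_mul (Vb_mono (sg1_le s).2 (Vb_mo (-sg1 s) (-sg1 s))) hr
    rw [add_comm] at this
    show a * r ∈ Vb ((m + 1 : ℕ) : ℤ)
    push_cast
    exact this

theorem Vb_lq (s : Bool) (n : ℤ) : un (lq (Rt s) n) ∈ Vb (n * sg1 s) := by
  induction n using Int.induction_on with
  | zero =>
    rw [lq_zero, zero_mul]
    exact Vb_mo 0 0
  | succ n ih =>
    rw [lq_add, lq_one, add_mul, one_mul]
    exact Vb_mul ih (Vb_mo (sg1 s) (sg1 s))
  | pred n ih =>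
    have e : (-(n : ℤ) - 1) * sg1 s = -(n : ℤ) * sg1 s + -sg1 s := by ring
    rw [e, sub_eq_add_neg, lq_add, lq_neg]
    exact Vb_mul ih (Vb_mo (-sg1 s) (-sg1 s))

/-- one half of the inequality of Morton, Franks and Williams -/
theorem mfw1 (s : Bool) {D : OWord} {m : ℕ} {α : List (ℕ × Bool)} (h : BraidWord m α)
    (hi : OIsotopic D (clo m α)) {X : Gx} (hX : (un (ev (Rt s) D)).coeff X ≠ 0) :
    (ofLex X).1 ≤ m + (wr (clo m α) noD - wr D noD) * sg1 s := by
  have e : hatq (Rt s) D = hatq (Rt s) (clo m α) := hatq_isotopy hi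
  rw [hatq, hatq] at e
  have e2 : ev (Rt s) D = lq (Rt s) (wr (clo m α) noD - wr D noD) * ev (Rt s) (clo m α) := by
    have h1 : lq (Rt s) (-wr D noD) * (lq (Rt s) (wr D noD) * ev (Rt s) D) = ev (Rt s) D := by
      rw [← mul_assoc, ← lq_add, neg_add_cancel, lq_zero, one_mul]
    rw [← h1, e, ← mul_assoc, ← lq_add]
    congr 2
    ring
  have h2 : un (ev (Rt s) D) ∈ Vb ((wr (clo m α) noD - wr D noD) * sg1 s + m) := by
    rw [e2]
    exact Vb_mul (Vb_lq s _) (ev_Vb h)
  by_contra h3
  exact hX (h2 X (by omega))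

/-! ### leading terms -/

theorem Ld_dl (s : Bool) : Ld (un (dl : Rt s)) (toLex (1, 0)) := by
  show Ld (mo 0 (-1) * (mo (-sg1 s) (-sg1 s) - mo (sg1 s) (sg1 s))) (toLex (1, 0))
  have e : (toLex ((1 : ℤ), (0 : ℤ)) : Gx) = toLex (0, -1) + toLex (1, 1) := rfl
  rw [e]
  refine (Ld_mo 0 (-1)).mul ?_
  have hlt : (toLex ((-1 : ℤ), (-1 : ℤ)) : Gx) < toLex (1, 1) := by
    rw [Prod.Lex.toLex_lt_toLex]
    exact Or.inl (by norm_num)
  cases s
  · show Ld (mo 1 1 - mo (-1) (-1)) (toLex (1, 1))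
    rw [sub_eq_add_neg]
    exact (Ld_mo 1 1).add (Ld_mo (-1) (-1)).neg.1 hlt
  · show Ld (mo (-1) (-1) - mo 1 1) (toLex (1, 1))
    rw [sub_eq_add_neg, add_comm]
    exact (Ld_mo 1 1).neg.add (Ld_mo (-1) (-1)).1 hlt

theorem Ld_ze (s s' : Bool) : Ld (un (ze (Rt s) s')) (toLex (0, 1)) := by
  cases s'
  · exact (Ld_mo 0 1).neg
  · exact Ld_mo 0 1

theorem Ld_ka (s s' : Bool) : Ld (un (ka (Rt s) s'))
    (toLex ((if s' = s then -1 else 1 : ℤ), (if s' = s then -1 else 1 : ℤ))) := by
  cases s <;> cases s'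
  · exact Ld_mo (-1) (-1)
  · exact Ld_mo 1 1
  · exact Ld_mo 1 1
  · exact Ld_mo (-1) (-1)

theorem fA_ld (s s' : Bool) (n : ℕ) : TopL (un (fA (Rt s) s' n)) (toLex (0, (n : ℤ) - 1)) ∧
    Ld (un (fA (Rt s) s' (n + 1))) (toLex (0, (n : ℤ))) := by
  induction n with
  | zero => exact ⟨TopL.zero _, Ld_one⟩
  | succ n ih =>
    refine ⟨?_, ?_⟩
    · rw [Nat.cast_succ, add_sub_cancel_right]
      exact ih.2.1
    · show Ld (un (ze (Rt s) s') * un (fA (Rt s) s' (n + 1)) + un (fA (Rt s) s' n)) _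
      have h1 := (Ld_ze s s').mul ih.2
      have e : toLex ((0 : ℤ), (1 : ℤ)) + toLex ((0 : ℤ), (n : ℤ)) =
          toLex ((0 : ℤ), ((n + 1 : ℕ) : ℤ)) := by
        rw [← toLex_add, Prod.mk_add_mk, add_zero, add_comm (1 : ℤ)]
        push_cast
        rfl
      rw [e] at h1
      refine h1.add ih.1 ?_
      rw [Prod.Lex.toLex_lt_toLex]
      right
      refine ⟨rfl, ?_⟩
      push_cast
      linarith

theorem pP_ld (s s' : Bool) {n : ℕ} (hn : 1 ≤ n) : Ld (un (pP (Rt s) s' n))
    (if s' = s then (if n = 1 then toLex (-1, -1) else toLex (1, (n : ℤ) - 2))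
      else toLex (1, (n : ℤ))) := by
  obtain ⟨n, rfl⟩ : ∃ m, n = m + 1 := ⟨n - 1, by omega⟩
  show Ld (un (dl : Rt s) * un (fA (Rt s) s' n) + un (ka (Rt s) s') *
    un (fA (Rt s) s' (n + 1))) _
  have h1 := (Ld_ka s s').mul (fA_ld s s' n).2
  rcases n with _ | n
  · have e0 : un (fA (Rt s) s' 0) = 0 := rfl
    rw [e0, mul_zero, zero_add]
    have e1 : (toLex ((if s' = s then -1 else 1 : ℤ), (if s' = s then -1 else 1 : ℤ)) +
        toLex ((0 : ℤ), ((0 : ℕ) : ℤ)) : Gx) =
        (if s' = s then (if (0 + 1 : ℕ) = 1 then toLex (-1, -1) else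
          toLex (1, ((0 + 1 : ℕ) : ℤ) - 2)) else toLex (1, ((0 + 1 : ℕ) : ℤ))) := by
      by_cases h : s' = s
      · rw [if_pos h, if_pos h, if_pos rfl]
        rfl
      · rw [if_neg h, if_neg h]
        rfl
    rw [e1] at h1
    exact h1
  · have h2 := (Ld_dl s).mul (fA_ld s s' n).2
    by_cases h : s' = s
    · rw [if_pos h, if_neg (by omega)]
      rw [if_pos h] at h1
      have e1 : toLex ((1 : ℤ), (0 : ℤ)) + toLex ((0 : ℤ), (n : ℤ)) =
          toLex ((1 : ℤ), ((n + 1 + 1 : ℕ) : ℤ) - 2) := by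
        rw [← toLex_add, Prod.mk_add_mk]
        push_cast
        congr 2
        ring
      rw [e1] at h2
      refine h2.add h1.1 ?_
      rw [← toLex_add, Prod.mk_add_mk, Prod.Lex.toLex_lt_toLex]
      left
      show (-1 : ℤ) + 0 < 1
      norm_num
    · rw [if_neg h]
      rw [if_neg h] at h1
      have e1 : toLex ((1 : ℤ), (1 : ℤ)) + toLex ((0 : ℤ), ((n + 1 : ℕ) : ℤ)) =
          toLex ((1 : ℤ), ((n + 1 + 1 : ℕ) : ℤ)) := by
        rw [← toLex_add, Prod.mk_add_mk]
        push_cast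
        congr 2
        ring
      rw [e1] at h1
      rw [add_comm]
      refine h1.add h2.1 ?_
      rw [← toLex_add, Prod.mk_add_mk, Prod.Lex.toLex_lt_toLex]
      right
      refine ⟨rfl, ?_⟩
      show (0 : ℤ) + (n : ℤ) < ((n + 1 + 1 : ℕ) : ℤ)
      push_cast
      linarith

/-- the excess of the crossings of the bands -/
def exc (ns : List ℕ) : ℤ := (ns.map (fun n : ℕ => (n : ℤ) - 1)).sum

theorem un_prod {s : Bool} (l : List (Rt s)) : un l.prod = (l.map un).prod := by
  induction l with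
  | nil => rfl
  | cons x l ih =>
    rw [List.prod_cons, List.map_cons, List.prod_cons, ← ih]
    rfl

theorem al_ld (s s' : Bool) {ns : List ℕ} (h : ∀ n ∈ ns, 1 ≤ n) :
    Ld (un (ns.map (fA (Rt s) s')).prod) (toLex (0, exc ns)) := by
  induction ns with
  | nil => exact Ld_one
  | cons n ns ih =>
    rw [List.map_cons, List.prod_cons]
    obtain ⟨n, rfl⟩ : ∃ m, n = m + 1 := ⟨n - 1, by have := h n (by simp); omega⟩
    have h1 := (fA_ld s s' n).2.mul (ih fun n hn => h n (by simp [hn]))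
    have e : toLex ((0 : ℤ), (n : ℤ)) + toLex ((0 : ℤ), exc ns) =
        toLex ((0 : ℤ), exc ((n + 1) :: ns)) := by
      rw [← toLex_add, Prod.mk_add_mk, exc, exc, List.map_cons, List.sum_cons]
      congr 2
      push_cast
      ring
    rw [e] at h1
    exact h1

theorem pi_ld (s s' : Bool) {ns : List ℕ} (h : ∀ n ∈ ns, 1 ≤ n) :
    Ld (un (ns.map (pP (Rt s) s')).prod)
      (toLex ((if s' = s then 2 * (hv ns : ℤ) - ns.length else ns.length),
        (if s' = s then exc ns - ns.length else exc ns + ns.length))) := by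
  induction ns with
  | nil =>
    by_cases h : s' = s
    · rw [if_pos h, if_pos h]
      exact Ld_one
    · rw [if_neg h, if_neg h]
      exact Ld_one
  | cons n ns ih =>
    rw [List.map_cons, List.prod_cons]
    have hn := h n (by simp)
    have h1 := (pP_ld s s' hn).mul (ih fun n hn => h n (by simp [hn]))
    have e : (if s' = s then (if n = 1 then toLex (-1, -1) else toLex (1, (n : ℤ) - 2))
          else toLex (1, (n : ℤ)) : Gx) +
        toLex ((if s' = s then 2 * (hv ns : ℤ) - ns.length else ns.length),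
          (if s' = s then exc ns - ns.length else exc ns + ns.length)) =
        toLex ((if s' = s then 2 * (hv (n :: ns) : ℤ) - (n :: ns).length else (n :: ns).length),
          (if s' = s then exc (n :: ns) - (n :: ns).length
            else exc (n :: ns) + (n :: ns).length)) := by
      have e1 : exc (n :: ns) = (n : ℤ) - 1 + exc ns := by
        rw [exc, List.map_cons, List.sum_cons]
        rfl
      have e2 : (hv (n :: ns) : ℤ) = hv ns + (if n = 1 then 0 else 1) := by
        rw [hv, List.countP_cons, hv]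
        push_cast
        congr 1
        by_cases h1 : n = 1
        · simp [h1]
        · rw [if_neg h1, if_pos (decide_eq_true (by omega))]
      rw [e1, e2, List.length_cons]
      by_cases hs : s' = s
      · simp only [if_pos hs]
        by_cases h1 : n = 1
        · simp only [if_pos h1]
          rw [← toLex_add, Prod.mk_add_mk]
          subst h1
          push_cast
          congr 2 <;> ring
        · simp only [if_neg h1]
          rw [← toLex_add, Prod.mk_add_mk]
          push_cast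
          congr 2 <;> ring
      · simp only [if_neg hs]
        rw [← toLex_add, Prod.mk_add_mk]
        push_cast
        congr 2 <;> ring
    rw [e] at h1
    exact h1

end

end Run7.h849
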