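import Pool.Agent.Run7.h849.Base
import Pool.Agent.Run7.h849.Col

/-!
# The value of a crossingless diagram
-/

set_option autoImplicit false

namespace Run7.h849

open Pool.Agent.Helper454.Wh (insD delD swpD noD OPiece OWord below forget OClosed OStep OIsotopic)
open Pool.Agent.Helper454.Wh.OPiece (birth death pos neg)
open Pool.Agent.Helper454.Wh.Homf
open Pool.Agent.Helper454.Wh.Homf.Par

noncomputable section

set_option linter.unusedSectionVars false
set_option linter.unusedVariables false

theorem par_succ (i : ℕ) : par (i + 1) = !par i := by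
  simp only [par]
  rcases Nat.mod_two_eq_zero_or_one i with h | h
  · have : (i + 1) % 2 = 1 := by omega
    simp [h, this]
  · have : (i + 1) % 2 = 0 := by omega
    simp [h, this]

theorem par_add2 (i : ℕ) : par (i + 2) = par i := by
  rw [show i + 2 = i + 1 + 1 from rfl, par_succ, par_succ, Bool.not_not]

theorem par_sub2 {i : ℕ} (h : 2 ≤ i) : par (i - 2) = par i := by
  rw [← par_add2 (i - 2)]
  congr 1
  omega

/-- alternating directions -/
def alt (m : ℕ) : ℕ → Bool := fun k => if k < 2 * m then par k else false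

theorem alt_zero : alt 0 = noD := by
  funext k
  simp [alt, noD]

theorem alt_lt {m k : ℕ} (h : k < 2 * m) : alt m k = par k := by
  simp [alt, h]

theorem ins_alt {m i : ℕ} (h : i ≤ 2 * m) : insD i (par i) (alt m) = alt (m + 1) := by
  funext k
  simp only [insD, alt]
  by_cases h1 : k < i
  · rw [if_pos h1, if_pos (by omega), if_pos (by omega)]
  · rw [if_neg h1]
    by_cases h2 : k = i
    · subst h2
      rw [if_pos rfl, if_pos (by omega)]
    · rw [if_neg h2]
      by_cases h3 : k = i + 1
      · subst h3
        rw [if_pos rfl, if_pos (by omega), par_succ]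
      · rw [if_neg h3]
        by_cases h4 : k < 2 * (m + 1)
        · rw [if_pos h4, if_pos (by omega), par_sub2 (by omega)]
        · rw [if_neg h4, if_neg (by omega)]

theorem del_alt {m i : ℕ} (h : i ≤ 2 * m) : delD i (alt (m + 1)) = alt m := by
  funext k
  simp only [delD, alt]
  by_cases h1 : k < i
  · rw [if_pos h1, if_pos (by omega), if_pos (by omega)]
  · rw [if_neg h1]
    by_cases h4 : k < 2 * m
    · rw [if_pos (by omega), if_pos h4, par_add2]
    · rw [if_neg (by omega), if_neg h4]

theorem alt_anti {m i : ℕ} (h : i + 1 < 2 * m) : alt m (i + 1) = !alt m i := by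
  rw [alt_lt h, alt_lt (by omega), par_succ]

/-- the oriented piece -/
def toO : Pc → OPiece
  | .b i => birth i (par i)
  | .d i => death i

/-- the oriented diagram -/
def tw (w : List Pc) : OWord := w.map toO

theorem tw_append (u w : List Pc) : tw (u ++ w) = tw u ++ tw w := List.map_append

theorem cwd_append {u w : List Pc} {n k : ℕ} (h : cwd (u ++ w) n = some k) :
    ∃ j, cwd u n = some j ∧ cwd w j = some k := by
  induction u generalizing n with
  | nil => exact ⟨n, rfl, h⟩
  | cons p u ih =>
    simp only [List.cons_append, cwd] at h ⊢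
    obtain ⟨l, h1, h2⟩ := Option.bind_eq_some_iff.1 h
    obtain ⟨j, h3, h4⟩ := ih h2
    exact ⟨j, Option.bind_eq_some_iff.2 ⟨l, h1, h3⟩, h4⟩

theorem cwd_append_of {u w : List Pc} {n j k : ℕ} (h : cwd u n = some j) (h' : cwd w j = some k) :
    cwd (u ++ w) n = some k := by
  induction u generalizing n with
  | nil =>
    obtain rfl : n = j := Option.some.inj h
    exact h'
  | cons p u ih =>
    simp only [List.cons_append, cwd] at h ⊢
    obtain ⟨l, h1, h2⟩ := Option.bind_eq_some_iff.1 h
    exact Option.bind_eq_some_iff.2 ⟨l, h1, ih h2⟩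

theorem cwd_b {i n k : ℕ} {w : List Pc} : cwd (.b i :: w) n = some k ↔
    i ≤ n ∧ cwd w (n + 2) = some k := by
  simp only [cwd, Pc.wd]
  split_ifs with h
  · simp [h]
  · simp [h]

theorem cwd_d {i n k : ℕ} {w : List Pc} : cwd (.d i :: w) n = some k ↔
    i + 2 ≤ n ∧ cwd w (n - 2) = some k := by
  simp only [cwd, Pc.wd]
  split_ifs with h
  · simp [h]
  · simp [h]

/-- the states below a word -/
theorem cwd_below {w : List Pc} {m n : ℕ} (h : cwd w (2 * m) = some n) :
    ∃ m', n = 2 * m' ∧ below (tw w) (2 * m) (alt m) = some (2 * m', alt m') ∧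
      lv m (tw w) = m' := by
  induction w generalizing m with
  | nil => exact ⟨m, (Option.some.inj h).symm, rfl, rfl⟩
  | cons p w ih =>
    cases p with
    | b i =>
      obtain ⟨h1, h2⟩ := cwd_b.1 h
      rw [show 2 * m + 2 = 2 * (m + 1) by ring] at h2
      obtain ⟨m', h3, h4, h5⟩ := ih h2
      refine ⟨m', h3, ?_, h5⟩
      refine bl_cons_of (s' := (2 * (m + 1), alt (m + 1))) ?_ h4
      simp only [toO, OPiece.below]
      rw [if_pos h1, ins_alt h1]
      rfl
    | d i =>
      obtain ⟨h1, h2⟩ := cwd_d.1 h
      obtain ⟨m1, rfl⟩ : ∃ m1, m = m1 + 1 := ⟨m - 1, by omega⟩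
      rw [show 2 * (m1 + 1) - 2 = 2 * m1 by omega] at h2
      obtain ⟨m', h3, h4, h5⟩ := ih h2
      refine ⟨m', h3, ?_, h5⟩
      refine bl_cons_of (s' := (2 * m1, alt m1)) ?_ h4
      simp only [toO, OPiece.below]
      rw [if_pos ⟨h1, alt_anti (by omega)⟩, del_alt (by omega)]
      rfl

/-- the parity of the number of curves -/
def pr : List Pc → ℕ
  | [] => 0
  | .b i :: w => i + pr w
  | .d i :: w => i + 1 + pr w

theorem pr_append (u w : List Pc) : pr (u ++ w) = pr u + pr w := by
  induction u with
  | nil => simp [pr]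
  | cons p u ih =>
    cases p with
    | b i => simp only [List.cons_append, pr, ih]; ring
    | d i => simp only [List.cons_append, pr, ih]; ring

section
variable (R : Type) [CommRing R] [Par R]

/-- `w` consists of `c` curves, in three ways -/
def Good (w : List Pc) (c : ℕ) : Prop :=
  (∀ s, N w s = 2 ^ c) ∧ opW R 0 (tw w) (v0 R) = (dl : R) ^ c • v0 R ∧ c % 2 = pr w % 2

variable {R}

theorem good_step {u l l' y : List Pc} {m k c : ℕ} (hu : cwd u 0 = some (2 * m))
    (hN : ∀ y s, N (l ++ y) s = 2 ^ k * N (l' ++ y) s)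
    (hop : ∀ v ∈ W (R := R) m (alt m), opW R m (tw l) v = (dl : R) ^ k • opW R m (tw l') v)
    (hlv : lv m (tw l) = lv m (tw l')) (hpr : pr l % 2 = (k + pr l') % 2)
    (h : Good R (u ++ l' ++ y) c) : Good R (u ++ l ++ y) (c + k) := by
  obtain ⟨h1, h2, h3⟩ := h
  refine ⟨fun s => ?_, ?_, ?_⟩
  · have := h1 s
    rw [List.append_assoc, N_append] at this ⊢
    rw [List.map_congr_left (fun t _ => hN y t), List.sum_map_mul_left, this, pow_add]
    ring
  · obtain ⟨m', h4, h5, h6⟩ := cwd_below (m := 0) hu
    obtain rfl : m = m' := by omega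
    rw [alt_zero] at h5
    have hv := (opW_mem (R := R) (m := 0) h5 v0_mem).2
    rw [h6] at hv
    rw [tw_append, tw_append, opW_append, opW_append] at h2 ⊢
    rw [lv_append] at h2 ⊢
    rw [h6] at h2 ⊢
    rw [hop _ hv, hlv, map_smul, h2, smul_smul, ← pow_add, add_comm k c]
  · simp only [pr_append] at h3 ⊢
    omega

theorem reduce_aux (L : ℕ)
    (hL : ∀ w : List Pc, w.length < L → cwd w 0 = some 0 → ∃ c, Good R w c) (n : ℕ) :
    ∀ (bs : List ℕ) (j : ℕ) (y : List Pc), bs.length = n →
      (bs.map Pc.b ++ Pc.d j :: y).length ≤ L → cwd (bs.map Pc.b ++ Pc.d j :: y) 0 = some 0 →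
      ∃ c, Good R (bs.map Pc.b ++ Pc.d j :: y) c := by
  induction n with
  | zero =>
    intro bs j y hb hl hc
    obtain rfl := List.length_eq_zero_iff.1 hb
    obtain ⟨h1, -⟩ := cwd_d.1 hc
    omega
  | succ n ih =>
    intro bs j y hb hl hc
    obtain ⟨bs, i, rfl⟩ : ∃ bs' i, bs = bs' ++ [i] :=
      ⟨bs.dropLast, bs.getLast (by rintro rfl; simp at hb), (List.dropLast_append_getLast _).symm⟩
    have hb' : bs.length = n := by simpa using hb
    set u := bs.map Pc.b with hu
    have e1 : (bs ++ [i]).map Pc.b ++ Pc.d j :: y = u ++ [Pc.b i, Pc.d j] ++ y := by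
      simp [hu]
    rw [e1] at hl hc ⊢
    rw [List.append_assoc] at hc
    obtain ⟨n1, h1, h2⟩ := cwd_append hc
    obtain ⟨m, rfl, -, -⟩ := cwd_below (m := 0) h1
    obtain ⟨h3, h4⟩ := cwd_b.1 h2
    obtain ⟨h5, h6⟩ := cwd_d.1 h4
    rw [show 2 * m + 2 - 2 = 2 * m by omega] at h6
    have hl' : u.length + y.length + 2 ≤ L := by
      simp only [List.length_append, List.length_cons, List.length_nil] at hl
      omega
    rcases (by omega : j = i ∨ j = i + 1 ∨ i = j + 1 ∨ i + 2 ≤ j ∨ j + 2 ≤ i) with
      rfl | rfl | rfl | hj | hi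
    · obtain ⟨c, hg⟩ := hL (u ++ [] ++ y) (by simp; omega)
        (by rw [List.append_nil]; exact cwd_append_of h1 h6)
      refine ⟨c + 1, good_step (l := [Pc.b j, Pc.d j]) (l' := []) (k := 1) h1 ?_ ?_ rfl ?_ hg⟩
      · intro y s
        simp only [List.cons_append, List.nil_append, N, ins_at, ins_at1, del_ins', if_true]
        ring
      · intro v hv
        rw [pow_one]
        exact D_B h3 _ hv
      · simp only [pr]
        omega
    · obtain ⟨c, hg⟩ := hL (u ++ [] ++ y) (by simp; omega)
        (by rw [List.append_nil]; exact cwd_append_of h1 h6)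
      refine ⟨c + 0, good_step (l := [Pc.b i, Pc.d (i + 1)]) (l' := []) (k := 0) h1 ?_ ?_ rfl
        ?_ hg⟩
      · intro y s
        have e2 : ∀ x, ins i x s (i + 1 + 1) = s i := by
          intro x
          simp only [ins]
          rw [if_neg (by omega), if_neg (by omega)]
          rfl
        have e3 : del (i + 1) (ins i (s i) s) = s := by
          funext k
          simp only [del, ins]
          split_ifs <;> first | rfl | omega | (congr 1; omega)
        simp only [List.cons_append, List.nil_append, N, ins_at1, e2]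
        cases hs : s i
        · rw [hs] at e3
          simp [e3]
        · rw [hs] at e3
          simp [e3]
      · intro v hv
        rw [pow_zero, one_smul]
        exact (allRel m).2.zig1 i (by omega) (alt m) (par i) (alt_lt (by omega)) v hv
      · simp only [pr]
        omega
    · obtain ⟨c, hg⟩ := hL (u ++ [] ++ y) (by simp; omega)
        (by rw [List.append_nil]; exact cwd_append_of h1 h6)
      refine ⟨c + 0, good_step (l := [Pc.b (j + 1), Pc.d j]) (l' := []) (k := 0) h1 ?_ ?_ rfl
        ?_ hg⟩
      · intro y s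
        have e2 : ∀ x, ins (j + 1) x s j = s j := by
          intro x
          simp [ins]
        have e3 : del j (ins (j + 1) (s j) s) = s := by
          funext k
          simp only [del, ins]
          split_ifs <;> first | rfl | omega | (congr 1; omega)
        simp only [List.cons_append, List.nil_append, N, ins_at, e2]
        cases hs : s j
        · rw [hs] at e3
          simp [e3]
        · rw [hs] at e3
          simp [e3]
      · intro v hv
        rw [pow_zero, one_smul]
        refine (allRel m).2.zig2 j (by omega) (alt m) (par (j + 1)) ?_ v hv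
        rw [alt_lt (by omega), par_succ, Bool.not_not]
      · simp only [pr]
        omega
    · obtain ⟨j', rfl⟩ : ∃ j', j = j' + 2 := ⟨j - 2, by omega⟩
      have hj : i ≤ j' := by omega
      have h7 : cwd (u ++ Pc.d j' :: Pc.b i :: y) 0 = some 0 := by
        refine cwd_append_of h1 (cwd_d.2 ⟨by omega, cwd_b.2 ⟨by omega, ?_⟩⟩)
        rw [show 2 * m - 2 + 2 = 2 * m by omega]
        exact h6
      obtain ⟨c, hg⟩ := ih bs j' (Pc.b i :: y) hb' (by simp [← hu]; omega) h7
      have e2 : bs.map Pc.b ++ Pc.d j' :: Pc.b i :: y = u ++ [Pc.d j', Pc.b i] ++ y := by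
        simp [hu]
      rw [e2] at hg
      refine ⟨c + 0, good_step (l := [Pc.b i, Pc.d (j' + 2)]) (l' := [Pc.d j', Pc.b i]) (k := 0)
        h1 ?_ ?_ ?_ ?_ hg⟩
      · intro y s
        have e3 : ∀ x, ins i x s (j' + 2) = s j' := by
          intro x
          simp only [ins]
          rw [if_neg (by omega), if_neg (by omega)]
          rfl
        have e4 : ∀ x, ins i x s (j' + 2 + 1) = s (j' + 1) := by
          intro x
          simp only [ins]
          rw [if_neg (by omega), if_neg (by omega)]
          rfl
        have e5 : ∀ x, del (j' + 2) (ins i x s) = ins i x (del j' s) := by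
          intro x
          funext k
          simp only [del, ins]
          split_ifs <;> first | rfl | omega | (congr 1; omega)
        simp only [List.cons_append, List.nil_append, N, e3, e4, e5]
        split_ifs <;> simp
      · intro v hv
        rw [pow_zero, one_smul]
        obtain ⟨m, rfl⟩ : ∃ m', m = m' + 1 := ⟨m - 1, by omega⟩
        exact DB1 hj (by omega) (par i) (alt_anti (by omega)) hv
      · show lv m [birth i (par i), death (j' + 2)] = lv m [death j', birth i (par i)]
        simp only [lv, nx]
        omega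
      · simp only [pr]
        omega
    · obtain ⟨i', rfl⟩ : ∃ i', i = i' + 2 := ⟨i - 2, by omega⟩
      have hi : j ≤ i' := by omega
      have h7 : cwd (u ++ Pc.d j :: Pc.b i' :: y) 0 = some 0 := by
        refine cwd_append_of h1 (cwd_d.2 ⟨by omega, cwd_b.2 ⟨by omega, ?_⟩⟩)
        rw [show 2 * m - 2 + 2 = 2 * m by omega]
        exact h6
      obtain ⟨c, hg⟩ := ih bs j (Pc.b i' :: y) hb' (by simp [← hu]; omega) h7
      have e2 : bs.map Pc.b ++ Pc.d j :: Pc.b i' :: y = u ++ [Pc.d j, Pc.b i'] ++ y := by
        simp [hu]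
      rw [e2] at hg
      refine ⟨c + 0, good_step (l := [Pc.b (i' + 2), Pc.d j]) (l' := [Pc.d j, Pc.b i']) (k := 0)
        h1 ?_ ?_ ?_ ?_ hg⟩
      · intro y s
        have e3 : ∀ x, ins (i' + 2) x s j = s j := by
          intro x
          simp only [ins]
          rw [if_pos (by omega)]
        have e4 : ∀ x, ins (i' + 2) x s (j + 1) = s (j + 1) := by
          intro x
          simp only [ins]
          rw [if_pos (by omega)]
        have e5 : ∀ x, del j (ins (i' + 2) x s) = ins i' x (del j s) := by
          intro x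
          funext k
          simp only [del, ins]
          split_ifs <;> first | rfl | omega | (congr 1; omega)
        simp only [List.cons_append, List.nil_append, N, e3, e4, e5]
        split_ifs <;> simp
      · intro v hv
        rw [pow_zero, one_smul]
        obtain ⟨m, rfl⟩ : ∃ m', m = m' + 1 := ⟨m - 1, by omega⟩
        have := DB2 (R := R) (i := j) (j := i') hi (by omega) (par (i' + 2))
          (alt_anti (by omega)) hv
        show D (m + 1) j (B (i' + 2) (par (i' + 2)) v) = B i' (par i') (D m j v)
        rw [this, par_add2]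
      · show lv m [birth (i' + 2) (par (i' + 2)), death j] = lv m [death j, birth i' (par i')]
        simp only [lv, nx]
        omega
      · simp only [pr]
        omega

theorem split_first (w : List Pc) : (∃ bs : List ℕ, w = bs.map Pc.b) ∨
    ∃ (bs : List ℕ) (j : ℕ) (y : List Pc), w = bs.map Pc.b ++ Pc.d j :: y := by
  induction w with
  | nil => exact Or.inl ⟨[], rfl⟩
  | cons p w ih =>
    cases p with
    | b i =>
      rcases ih with ⟨bs, rfl⟩ | ⟨bs, j, y, rfl⟩
      · exact Or.inl ⟨i :: bs, rfl⟩
      · exact Or.inr ⟨i :: bs, j, y, rfl⟩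
    | d i => exact Or.inr ⟨[], i, w, rfl⟩

theorem births_wd (bs : List ℕ) {n k : ℕ} (h : cwd (bs.map Pc.b) n = some k) :
    k = n + 2 * bs.length := by
  induction bs generalizing n with
  | nil => exact (Option.some.inj h).symm
  | cons i bs ih =>
    rw [List.map_cons] at h
    obtain ⟨-, h2⟩ := cwd_b.1 h
    rw [ih h2, List.length_cons]
    ring

/-- every closed crossingless diagram consists of some number of curves -/
theorem exists_good {w : List Pc} (h : cwd w 0 = some 0) : ∃ c, Good R w c := by
  induction hL : w.length using Nat.strong_induction_on generalizing w with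
  | _ L ih =>
    subst hL
    rcases split_first w with ⟨bs, rfl⟩ | ⟨bs, j, y, rfl⟩
    · have := births_wd bs h
      obtain rfl : bs = [] := List.length_eq_zero_iff.1 (by omega)
      exact ⟨0, fun s => rfl, by rw [pow_zero, one_smul]; rfl, rfl⟩
    · exact reduce_aux _ (fun w' hw' hc => ih w'.length hw' hc rfl) bs.length bs j y rfl le_rfl h

end

/-- the number of curves -/
def cc (w : List Pc) : ℕ := Nat.log 2 (N w z0)

theorem good_cc {R : Type} [CommRing R] [Par R] {w : List Pc} (h : cwd w 0 = some 0) :
    Good R w (cc w) := by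
  obtain ⟨c, hc⟩ := exists_good (R := R) h
  have : cc w = c := by
    rw [cc, hc.1, Nat.log_pow (by norm_num)]
  rw [this]
  exact hc

/-- reconnecting two strands -/
theorem flip_cc {x y : List Pc} {i : ℕ} (h : cwd (x ++ y) 0 = some 0)
    (h' : cwd (x ++ KK i ++ y) 0 = some 0) :
    ((∃ u s, Rch x z0 u ∧ Rch y u s ∧ u i ≠ u (i + 1)) → cc (x ++ y) = cc (x ++ KK i ++ y) + 1) ∧
    ((∀ u s, Rch x z0 u → Rch y u s → u i = u (i + 1)) →
      cc (x ++ KK i ++ y) = cc (x ++ y) + 1) := by
  obtain ⟨g1, -, g2⟩ := good_cc (R := R1) h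
  obtain ⟨g3, -, g4⟩ := good_cc (R := R1) h'
  refine flip_core (g1 _) (g3 _) ?_
  have e1 : pr (x ++ KK i ++ y) = pr x + (i + 1 + i) + pr y := by
    simp only [pr_append, KK, pr]
    ring
  rw [e1] at g4
  rw [pr_append] at g2
  omega

/-- reconnecting two strands changes the number of curves by `1` -/
theorem flip_pm {x y : List Pc} {i : ℕ} (h : cwd (x ++ y) 0 = some 0)
    (h' : cwd (x ++ KK i ++ y) 0 = some 0) :
    cc (x ++ y) = cc (x ++ KK i ++ y) + 1 ∨ cc (x ++ KK i ++ y) = cc (x ++ y) + 1 := by
  obtain ⟨h1, h2⟩ := flip_cc h h'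
  by_cases h3 : ∃ u s, Rch x z0 u ∧ Rch y u s ∧ u i ≠ u (i + 1)
  · exact Or.inl (h1 h3)
  · right
    refine h2 fun u s h4 h5 => ?_
    by_contra h6
    exact h3 ⟨u, s, h4, h5, h6⟩

end

end Run7.h849
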