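import Pool.Agent.Run7.h849.Dfn
import Pool.Agent.Run7.h849.Pln

/-!
# Colourings of the Seifert circles
-/

set_option autoImplicit false

namespace Run7.h849

open Pool.Agent.Helper454.Wh (insD delD swpD noD dirs OPiece OWord below)
open Pool.Agent.Helper454.Wh.OPiece (birth death pos neg)
open Pool.Agent.Helper454.Wh.Homf

noncomputable section

set_option linter.unusedSectionVars false
set_option linter.unusedVariables false

/-- all crossings join strands with the same direction -/
def ParW : OWord → (ℕ → Bool) → Prop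
  | [], _ => True
  | birth i b :: w, d => ParW w (insD i b d)
  | death i :: w, d => ParW w (delD i d)
  | pos i :: w, d => d i = d (i + 1) ∧ ParW w (swpD i d)
  | neg i :: w, d => d i = d (i + 1) ∧ ParW w (swpD i d)

/-- the sum over the crossings -/
def tot (φ : ℕ × ℕ → ℕ) : OWord → ℕ → ℕ
  | [], _ => 0
  | birth _ _ :: w, t => tot φ w (t + 1)
  | death _ :: w, t => tot φ w (t + 1)
  | pos i :: w, t => φ (t, i) + tot φ w (t + 1)
  | neg i :: w, t => φ (t, i) + tot φ w (t + 1)

/-- there is a colouring from `s` to `s'` for which the sum of `γ` over the crossings with two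
colours is `c` -/
def Tj (γ : ℕ × ℕ → ℕ) : OWord → ℕ → (ℕ → Bool) → (ℕ → Bool) → ℕ → Prop
  | [], _, s, s', c => s' = s ∧ c = 0
  | birth i _ :: w, t, s, s', c => ∃ x, Tj γ w (t + 1) (ins i x s) s' c
  | death i :: w, t, s, s', c => s i = s (i + 1) ∧ Tj γ w (t + 1) (del i s) s' c
  | pos i :: w, t, s, s', c => ∃ c', Tj γ w (t + 1) s s' c' ∧
      c = (if s i = s (i + 1) then 0 else γ (t, i)) + c'
  | neg i :: w, t, s, s', c => ∃ c', Tj γ w (t + 1) s s' c' ∧
      c = (if s i = s (i + 1) then 0 else γ (t, i)) + c'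

/-- a colouring of the levels -/
def Stp (f : ℕ → ℕ → Bool) : OWord → ℕ → Prop
  | [], _ => True
  | birth i _ :: w, t => (∃ x, f (t + 1) = ins i x (f t)) ∧ Stp f w (t + 1)
  | death i :: w, t => (f t i = f t (i + 1) ∧ f (t + 1) = del i (f t)) ∧ Stp f w (t + 1)
  | pos _ :: w, t => f (t + 1) = f t ∧ Stp f w (t + 1)
  | neg _ :: w, t => f (t + 1) = f t ∧ Stp f w (t + 1)

theorem Stp_congr {f g : ℕ → ℕ → Bool} {w : OWord} {t : ℕ} (h : ∀ j, t ≤ j → f j = g j)
    (hf : Stp f w t) : Stp g w t := by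
  induction w generalizing t with
  | nil => trivial
  | cons p w ih =>
    have h0 := h t le_rfl
    have h1 := h (t + 1) (by omega)
    have h2 : ∀ j, t + 1 ≤ j → f j = g j := fun j hj => h j (by omega)
    cases p with
    | birth i b =>
      obtain ⟨x, hx⟩ := hf.1
      exact ⟨⟨x, by rw [← h1, ← h0, hx]⟩, ih h2 hf.2⟩
    | death i => exact ⟨⟨by rw [← h0]; exact hf.1.1, by rw [← h1, ← h0]; exact hf.1.2⟩, ih h2 hf.2⟩
    | pos i => exact ⟨by rw [← h1, ← h0]; exact hf.1, ih h2 hf.2⟩
    | neg i => exact ⟨by rw [← h1, ← h0]; exact hf.1, ih h2 hf.2⟩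

theorem tot_congr {φ ψ : ℕ × ℕ → ℕ} {w : OWord} {t : ℕ}
    (h : ∀ j i, t ≤ j → j < t + w.length → φ (j, i) = ψ (j, i)) : tot φ w t = tot ψ w t := by
  induction w generalizing t with
  | nil => rfl
  | cons p w ih =>
    have h2 := ih (t := t + 1) fun j i h1 h2 => h j i (by omega) (by
      rw [List.length_cons]
      omega)
    have h3 := fun i => h t i le_rfl (by rw [List.length_cons]; omega)
    cases p with
    | birth i b => exact h2
    | death i => exact h2
    | pos i => rw [tot, tot, h2, h3]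
    | neg i => rw [tot, tot, h2, h3]

theorem tot_append (φ : ℕ × ℕ → ℕ) (u w : OWord) (t : ℕ) :
    tot φ (u ++ w) t = tot φ u t + tot φ w (t + u.length) := by
  induction u generalizing t with
  | nil => simp [tot]
  | cons p u ih =>
    have e : t + 1 + u.length = t + (p :: u).length := by rw [List.length_cons]; ring
    cases p with
    | birth i b => rw [List.cons_append, tot, tot, ih, e]
    | death i => rw [List.cons_append, tot, tot, ih, e]
    | pos i => rw [List.cons_append, tot, tot, ih, e, add_assoc]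
    | neg i => rw [List.cons_append, tot, tot, ih, e, add_assoc]

theorem Tj_append {γ : ℕ × ℕ → ℕ} {u w : OWord} {t c1 c2 : ℕ} {s s1 s' : ℕ → Bool}
    (h1 : Tj γ u t s s1 c1) (h2 : Tj γ w (t + u.length) s1 s' c2) :
    Tj γ (u ++ w) t s s' (c1 + c2) := by
  induction u generalizing t s c1 with
  | nil =>
    obtain ⟨rfl, rfl⟩ := h1
    rw [zero_add]
    exact h2
  | cons p u ih =>
    have e : t + 1 + u.length = t + (p :: u).length := by rw [List.length_cons]; ring
    rw [← e] at h2
    cases p with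
    | birth i b =>
      obtain ⟨x, hx⟩ := h1
      exact ⟨x, ih hx h2⟩
    | death i => exact ⟨h1.1, ih h1.2 h2⟩
    | pos i =>
      obtain ⟨c', h3, rfl⟩ := h1
      exact ⟨c' + c2, ih h3 h2, by ring⟩
    | neg i =>
      obtain ⟨c', h3, rfl⟩ := h1
      exact ⟨c' + c2, ih h3 h2, by ring⟩

/-- the crossings with two colours -/
def cutf (γ : ℕ × ℕ → ℕ) (f : ℕ → ℕ → Bool) : ℕ × ℕ → ℕ := fun e =>
  if f e.1 e.2 = f e.1 (e.2 + 1) then 0 else γ e

theorem Tj_f {γ : ℕ × ℕ → ℕ} {w : OWord} {t c : ℕ} {s s' : ℕ → Bool} (h : Tj γ w t s s' c) :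
    ∃ f : ℕ → ℕ → Bool, f t = s ∧ Stp f w t ∧ c = tot (cutf γ f) w t := by
  induction w generalizing t s c with
  | nil => exact ⟨fun _ => s, rfl, trivial, h.2⟩
  | cons p w ih =>
    have key : ∀ {s1 : ℕ → Bool} {c1 : ℕ}, Tj γ w (t + 1) s1 s' c1 →
        ∃ f : ℕ → ℕ → Bool, f t = s ∧ f (t + 1) = s1 ∧ Stp f w (t + 1) ∧
          c1 = tot (cutf γ f) w (t + 1) := by
      intro s1 c1 h1
      obtain ⟨f, h2, h3, h4⟩ := ih h1
      refine ⟨fun j => if j = t then s else f j, by simp, by simp [h2], ?_, ?_⟩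
      · refine Stp_congr (fun j hj => ?_) h3
        rw [if_neg (by omega)]
      · rw [h4]
        refine tot_congr fun j i hj _ => ?_
        simp only [cutf]
        rw [if_neg (by omega : ¬ j = t)]
    cases p with
    | birth i b =>
      obtain ⟨x, hx⟩ := h
      obtain ⟨f, h1, h2, h3, h4⟩ := key hx
      exact ⟨f, h1, ⟨⟨x, by rw [h2, h1]⟩, h3⟩, h4⟩
    | death i =>
      obtain ⟨h0, hx⟩ := h
      obtain ⟨f, h1, h2, h3, h4⟩ := key hx
      exact ⟨f, h1, ⟨⟨by rw [h1]; exact h0, by rw [h2, h1]⟩, h3⟩, h4⟩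
    | pos i =>
      obtain ⟨c', hx, rfl⟩ := h
      obtain ⟨f, h1, h2, h3, h4⟩ := key hx
      refine ⟨f, h1, ⟨by rw [h2, h1], h3⟩, ?_⟩
      rw [tot, ← h4, cutf, h1]
    | neg i =>
      obtain ⟨c', hx, rfl⟩ := h
      obtain ⟨f, h1, h2, h3, h4⟩ := key hx
      refine ⟨f, h1, ⟨by rw [h2, h1], h3⟩, ?_⟩
      rw [tot, ← h4, cutf, h1]

/-- the step at one piece -/
def stepAt (p : OPiece) (s s' : ℕ → Bool) : Prop :=
  match p with
  | birth i _ => ∃ x, s' = ins i x s
  | death i => s i = s (i + 1) ∧ s' = del i s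
  | pos _ => s' = s
  | neg _ => s' = s

theorem Stp_at {f : ℕ → ℕ → Bool} {w : OWord} {t j : ℕ} {p : OPiece} (h : Stp f w t)
    (hj : w[j]? = some p) : stepAt p (f (t + j)) (f (t + j + 1)) := by
  induction w generalizing t j with
  | nil => simp at hj
  | cons q w ih =>
    have h2 : Stp f w (t + 1) := by
      cases q with
      | birth i b => exact h.2
      | death i => exact h.2
      | pos i => exact h.2
      | neg i => exact h.2
    cases j with
    | zero =>
      obtain rfl : q = p := by simpa using hj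
      cases q with
      | birth i b => exact h.1
      | death i => exact h.1
      | pos i => exact h.1
      | neg i => exact h.1
    | succ j =>
      have := ih h2 (by simpa using hj)
      rwa [show t + 1 + j = t + (j + 1) by ring] at this

theorem ParW_at {w : OWord} {n : ℕ} {d : ℕ → Bool} {s : ℕ × (ℕ → Bool)} {e : ℕ × ℕ}
    (h : ParW w d) (hb : below w n d = some s) (he : IsCr w e) :
    ∃ s', below (w.take e.1) n d = some s' ∧ s'.2 e.2 = s'.2 (e.2 + 1) := by
  obtain ⟨j, i⟩ := e
  simp only [IsCr] at he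
  induction w generalizing n d j with
  | nil => simp at he
  | cons q w ih =>
    obtain ⟨s1, h1, h2⟩ := bl_cons hb
    have h3 : ParW w s1.2 := by
      cases q with
      | birth i b => obtain ⟨-, rfl⟩ := bl_birth h1; exact h
      | death i => obtain ⟨-, -, rfl⟩ := bl_death h1; exact h
      | pos i => obtain ⟨-, rfl⟩ := bl_pos h1; exact h.2
      | neg i => obtain ⟨-, rfl⟩ := bl_neg h1; exact h.2
    cases j with
    | zero =>
      refine ⟨(n, d), rfl, ?_⟩
      rcases he with he | he
      · obtain rfl : q = pos i := by simpa using he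
        exact h.1
      · obtain rfl : q = neg i := by simpa using he
        exact h.1
    | succ j =>
      obtain ⟨s', h4, h5⟩ := ih h3 h2 j (by simpa using he)
      exact ⟨s', bl_cons_of h1 h4, h5⟩

section
variable {D : OWord} {s0 : ℕ × (ℕ → Bool)} (hp : ParW D noD) (hb : below D 0 noD = some s0)
include hp hb

theorem par_dirs {e : ℕ × ℕ} (he : IsCr D e) :
    dirs (D.take e.1) e.2 = dirs (D.take e.1) (e.2 + 1) := by
  obtain ⟨s', h1, h2⟩ := ParW_at hp hb he
  rw [dirs, h1]
  exact h2

theorem Sm_f {f : ℕ → ℕ → Bool} (hf : Stp f D 0) {p q : ℕ × ℕ} (h : Sm D p q) :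
    f p.1 p.2 = f q.1 q.2 := by
  have st : ∀ {t : ℕ} {p : OPiece}, D[t]? = some p → stepAt p (f t) (f (t + 1)) := by
    intro t p h
    have := Stp_at hf h
    rwa [zero_add] at this
  have cr : ∀ {t i : ℕ}, IsCr D (t, i) → f (t + 1) = f t := by
    rintro t i (h | h)
    · exact st h
    · exact st h
  cases h with
  | birthArc t i b h =>
    obtain ⟨x, hx⟩ := st h
    simp only [hx, ins_at, ins_at1]
  | birthLeft t i k b h hk =>
    obtain ⟨x, hx⟩ := st h
    simp only [hx, ins]
    rw [if_pos hk]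
  | birthRight t i k b h hk =>
    obtain ⟨x, hx⟩ := st h
    simp only [hx, ins]
    rw [if_neg (by omega), if_neg (by omega)]
    rfl
  | deathArc t i h => exact (st h).1
  | deathLeft t i k h hk =>
    simp only [(st h).2, del]
    rw [if_pos hk]
  | deathRight t i k h hk =>
    simp only [(st h).2, del]
    rw [if_neg (by omega)]
  | crossOther t i k h _ _ => rw [cr h]
  | crossPar t i k h _ _ => rw [cr h]
  | crossTop t i h h2 => exact absurd (par_dirs hp hb h) h2
  | crossBot t i h h2 => exact absurd (par_dirs hp hb h) h2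

theorem circ_f {f : ℕ → ℕ → Bool} (hf : Stp f D 0) {p q : ℕ × ℕ} (h : q ∈ circ D p) :
    f p.1 p.2 = f q.1 q.2 := by
  have : ∀ {p q : ℕ × ℕ}, Relation.EqvGen (Sm D) p q → f p.1 p.2 = f q.1 q.2 := by
    intro p q h
    induction h with
    | rel p q h => exact Sm_f hp hb hf h
    | refl p => rfl
    | symm p q _ ih => exact ih.symm
    | trans p q r _ _ ih1 ih2 => exact ih1.trans ih2
  exact this h

end

/-- changes of the colour along a closed walk -/
theorem par_change (b : ℕ → Bool) (n : ℕ) :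
    ((Finset.range n).filter (fun j => b j ≠ b (j + 1))).card % 2 = if b 0 = b n then 0 else 1 := by
  induction n with
  | zero => simp
  | succ n ih =>
    rw [Finset.range_add_one, Finset.filter_insert]
    by_cases h : b n = b (n + 1)
    · rw [if_neg (by simpa using h), ih, h]
    · rw [if_pos h, Finset.card_insert_of_notMem (by simp)]
      revert ih h
      cases b 0 <;> cases b n <;> cases b (n + 1) <;> simp <;> omega

open Classical in
/-- indicator functions -/
def ind1 (P : ℕ × ℕ → Prop) : ℕ × ℕ → ℕ := fun e => if P e then 1 else 0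

theorem cr_append {D : OWord} {p : OPiece} {e : ℕ × ℕ} : IsCr (D ++ [p]) e ↔
    IsCr D e ∨ (e.1 = D.length ∧ (p = pos e.2 ∨ p = neg e.2)) := by
  simp only [IsCr]
  rcases lt_trichotomy e.1 D.length with h | h | h
  · rw [List.getElem?_append_left h]
    constructor
    · intro h1; exact Or.inl h1
    · rintro (h1 | h1)
      · exact h1
      · omega
  · rw [h, List.getElem?_append_right le_rfl, List.getElem?_eq_none le_rfl]
    simp
  · rw [List.getElem?_append_right h.le, List.getElem?_eq_none h.le,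
      List.getElem?_eq_none (by simp; omega)]
    simp
    omega

theorem cr_lt {D : OWord} {e : ℕ × ℕ} (h : IsCr D e) : e.1 < D.length := by
  by_contra h1
  rw [IsCr, List.getElem?_eq_none (by omega)] at h
  simp at h

/-- counting crossings -/
theorem ncard_tot (P : ℕ × ℕ → Prop) (D : OWord) :
    {e | IsCr D e ∧ P e}.Finite ∧ {e | IsCr D e ∧ P e}.ncard = tot (ind1 P) D 0 := by
  induction D using List.reverseRecOn with
  | nil =>
    have : {e | IsCr [] e ∧ P e} = ∅ := by
      ext e
      simp [IsCr]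
    rw [this]
    exact ⟨Set.finite_empty, by simp [tot]⟩
  | append_singleton D p ih =>
    obtain ⟨h1, h2⟩ := ih
    rw [tot_append, zero_add, ← h2]
    have key : ∀ i, (p = pos i ∨ p = neg i) → tot (ind1 P) [p] D.length = ind1 P (D.length, i) := by
      rintro i (rfl | rfl)
      · simp [tot]
      · simp [tot]
    by_cases hp : ∃ i, p = pos i ∨ p = neg i
    · obtain ⟨i, hi⟩ := hp
      rw [key i hi]
      have hu : ∀ j, (p = pos j ∨ p = neg j) ↔ j = i := by
        intro j
        rcases hi with rfl | rfl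
        · simp [eq_comm]
        · simp [eq_comm]
      by_cases hP : P (D.length, i)
      · have e : {e | IsCr (D ++ [p]) e ∧ P e} =
            insert (D.length, i) {e | IsCr D e ∧ P e} := by
          ext e
          obtain ⟨a, b⟩ := e
          simp only [Set.mem_ofPred_eq, Set.mem_insert_iff, cr_append, hu, Prod.mk.injEq]
          constructor
          · rintro ⟨h3 | ⟨rfl, rfl⟩, h4⟩
            · exact Or.inr ⟨h3, h4⟩
            · exact Or.inl ⟨rfl, rfl⟩
          · rintro (⟨rfl, rfl⟩ | ⟨h3, h4⟩)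
            · exact ⟨Or.inr ⟨rfl, rfl⟩, hP⟩
            · exact ⟨Or.inl h3, h4⟩
        rw [e]
        refine ⟨h1.insert _, ?_⟩
        rw [Set.ncard_insert_of_notMem _ h1, ind1, if_pos hP]
        rintro ⟨h3, -⟩
        exact absurd (cr_lt h3) (lt_irrefl _)
      · have e : {e | IsCr (D ++ [p]) e ∧ P e} = {e | IsCr D e ∧ P e} := by
          ext e
          obtain ⟨a, b⟩ := e
          simp only [Set.mem_ofPred_eq, cr_append, hu]
          constructor
          · rintro ⟨h3 | ⟨rfl, rfl⟩, h4⟩
            · exact ⟨h3, h4⟩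
            · exact absurd h4 hP
          · rintro ⟨h3, h4⟩
            exact ⟨Or.inl h3, h4⟩
        rw [e, ind1, if_neg hP]
        exact ⟨h1, rfl⟩
    · have hn : ∀ i, ¬ (p = pos i ∨ p = neg i) := fun i h => hp ⟨i, h⟩
      have e : {e | IsCr (D ++ [p]) e ∧ P e} = {e | IsCr D e ∧ P e} := by
        ext e
        simp only [Set.mem_ofPred_eq, cr_append]
        constructor
        · rintro ⟨h3 | ⟨-, h3⟩, h4⟩
          · exact ⟨h3, h4⟩
          · exact absurd h3 (hn _)
        · rintro ⟨h3, h4⟩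
          exact ⟨Or.inl h3, h4⟩
      have e2 : tot (ind1 P) [p] D.length = 0 := by
        cases p with
        | birth i b => rfl
        | death i => rfl
        | pos i => exact absurd (Or.inl rfl) (hn i)
        | neg i => exact absurd (Or.inr rfl) (hn i)
      rw [e, e2]
      exact ⟨h1, rfl⟩

open Classical in
/-- every circuit contains an even number of the crossings with two colours -/
theorem circuit_even {D : OWord} {s0 : ℕ × (ℕ → Bool)} (hp : ParW D noD)
    (hb : below D 0 noD = some s0) {C : Set (ℕ × ℕ)} (hC : (sgr D).Circuit C) {c : ℕ}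
    {s' : ℕ → Bool} (h : Tj (ind1 (· ∈ C)) D 0 z0 s' c) : c % 2 = 0 := by
  obtain ⟨f, h0, h1, h2⟩ := Tj_f h
  obtain ⟨n, v, e, hn, hv, he, hv2, he2, rfl⟩ := hC
  set C : Set (ℕ × ℕ) := {x | ∃ j < n, e j = x} with hCdef
  set g : Set (ℕ × ℕ) → Bool := fun c => decide (∃ p ∈ c, f p.1 p.2 = true) with hg
  have g1 : ∀ p, g (circ D p) = f p.1 p.2 := by
    intro p
    cases hfp : f p.1 p.2
    · rw [hg]
      simp only [decide_eq_false_iff_not]
      rintro ⟨q, hq, h3⟩
      rw [← circ_f hp hb h1 hq, hfp] at h3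
      exact absurd h3 (by simp)
    · rw [hg]
      simp only [decide_eq_true_eq]
      exact ⟨p, Relation.EqvGen.refl p, hfp⟩
  have g2 : ∀ x, IsCr D x → g ((sgr D).tgt x) = f x.1 (x.2 + 1) := by
    intro x hx
    show g (circ D (x.1 + 1, x.2 + 1)) = _
    rw [g1]
    rcases hx with hx | hx
    · have h3 := Stp_at h1 hx
      simp only [stepAt, zero_add] at h3
      exact congrFun h3 _
    · have h3 := Stp_at h1 hx
      simp only [stepAt, zero_add] at h3
      exact congrFun h3 _
  have g3 : ∀ j < n, (g (v j) ≠ g (v (j + 1)) ↔ ¬ f (e j).1 (e j).2 = f (e j).1 ((e j).2 + 1)) := by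
    intro j hj
    obtain ⟨h3, h4⟩ := he j hj
    have h5 := g1 (e j)
    have h6 := g2 (e j) h3
    rcases h4 with ⟨h7, h8⟩ | ⟨h7, h8⟩
    · have h9 : g (v j) = f (e j).1 (e j).2 := by rw [← h7]; exact h5
      have h10 : g (v (j + 1)) = f (e j).1 ((e j).2 + 1) := by rw [← h8]; exact h6
      rw [h9, h10]
    · have h9 : g (v (j + 1)) = f (e j).1 (e j).2 := by rw [← h8]; exact h5
      have h10 : g (v j) = f (e j).1 ((e j).2 + 1) := by rw [← h7]; exact h6
      rw [h9, h10]
      exact ⟨fun h h' => h h'.symm, fun h h' => h h'.symm⟩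
  have hpc := par_change (fun j => g (v j)) n
  simp only [hv, if_true] at hpc
  have e1 : tot (cutf (ind1 (· ∈ C)) f) D 0 =
      tot (ind1 (fun x => x ∈ C ∧ ¬ f x.1 x.2 = f x.1 (x.2 + 1))) D 0 := by
    refine tot_congr fun j i _ _ => ?_
    simp only [cutf, ind1]
    by_cases h3 : f j i = f j (i + 1)
    · rw [if_pos h3, if_neg (fun h => h.2 h3)]
    · rw [if_neg h3]
      simp [h3]
  rw [h2, e1, ← (ncard_tot _ D).2]
  have e2 : {x | IsCr D x ∧ x ∈ C ∧ ¬ f x.1 x.2 = f x.1 (x.2 + 1)} =
      ((((Finset.range n).filter (fun j => g (v j) ≠ g (v (j + 1)))).image e : Finset (ℕ × ℕ)) :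
        Set (ℕ × ℕ)) := by
    ext x
    simp only [Finset.coe_image, Finset.coe_filter, Finset.mem_range, Set.mem_image,
      Set.mem_ofPred_eq]
    constructor
    · rintro ⟨h3, ⟨j, hj, rfl⟩, h4⟩
      exact ⟨j, ⟨hj, (g3 j hj).2 h4⟩, rfl⟩
    · rintro ⟨j, ⟨hj, h4⟩, rfl⟩
      exact ⟨(he j hj).1, ⟨j, hj, rfl⟩, (g3 j hj).1 h4⟩
  rw [e2, Set.ncard_coe_finset, Finset.card_image_of_injOn, hpc]
  intro j hj k hk hjk
  simp only [Finset.coe_filter, Finset.mem_range, Set.mem_ofPred_eq] at hj hk
  exact he2 j hj.1 k hk.1 hjk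

/-- the edges of a circuit are crossings -/
theorem circuit_sub {D : OWord} {C : Set (ℕ × ℕ)} (hC : (sgr D).Circuit C) :
    (∀ x ∈ C, IsCr D x) ∧ C.Nonempty := by
  obtain ⟨n, v, e, hn, hv, he, hv2, he2, rfl⟩ := hC
  refine ⟨?_, ⟨e 0, 0, hn, rfl⟩⟩
  rintro x ⟨j, hj, rfl⟩
  exact (he j hj).1

end

end Run7.h849
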