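import Pool.Agent.Run7.h849.Pln
import Pool.Agent.Run7.h849.Pr

/-!
# States of a base diagram
-/

set_option autoImplicit false

namespace Run7.h849

open Pool.Agent.Helper454.Wh (insD delD swpD noD OPiece OWord below forget OClosed OStep OIsotopic)
open Pool.Agent.Helper454.Wh.OPiece (birth death pos neg)
open Pool.Agent.Helper454.Wh.Homf
open Pool.Agent.Helper454.Wh.Homf.Par
open Finset

noncomputable section

set_option linter.unusedSectionVars false
set_option linter.unusedVariables false

/-- the number of the chains -/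
def nch : List Bs → ℕ
  | [] => 0
  | .b _ :: w => nch w
  | .d _ :: w => nch w
  | .c _ _ :: w => nch w + 1

/-- the state in which the chains with the numbers in `A` are reconnected; the first chain of the
word has the number `t` -/
def stA (A : Finset ℕ) : ℕ → List Bs → List Pc
  | _, [] => []
  | t, .b i :: w => .b i :: stA A t w
  | t, .d i :: w => .d i :: stA A t w
  | t, .c i _ :: w => rs (decide (t ∈ A)) i ++ stA A (t + 1) w

/-- `f` gives the data of the chains -/
def Dt (f : ℕ → ℕ × List ℕ) : ℕ → List Bs → Prop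
  | _, [] => True
  | t, .b _ :: w => Dt f t w
  | t, .d _ :: w => Dt f t w
  | t, .c i ns :: w => f t = (i, ns) ∧ Dt f (t + 1) w

theorem Dt_congr {f g : ℕ → ℕ × List ℕ} {w : List Bs} {t : ℕ} (h : ∀ k, t ≤ k → f k = g k)
    (hf : Dt f t w) : Dt g t w := by
  induction w generalizing t with
  | nil => trivial
  | cons p w ih =>
    cases p with
    | b i => exact ih h hf
    | d i => exact ih h hf
    | c i ns => exact ⟨(h t le_rfl).symm.trans hf.1, ih (fun k hk => h k (by omega)) hf.2⟩

theorem exists_Dt (w : List Bs) (t : ℕ) : ∃ f, Dt f t w := by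
  induction w generalizing t with
  | nil => exact ⟨fun _ => (0, []), trivial⟩
  | cons p w ih =>
    cases p with
    | b i => exact ih t
    | d i => exact ih t
    | c i ns =>
      obtain ⟨f, hf⟩ := ih (t + 1)
      refine ⟨Function.update f t (i, ns), Function.update_self .., Dt_congr (fun k hk => ?_) hf⟩
      rw [Function.update_of_ne (by omega)]

theorem nch_append (x y : List Bs) : nch (x ++ y) = nch x + nch y := by
  induction x with
  | nil => simp [nch]
  | cons p x ih =>
    cases p with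
    | b i => exact ih
    | d i => exact ih
    | c i ns =>
      simp only [List.cons_append, nch, ih]
      ring

theorem stA_append (A : Finset ℕ) (x y : List Bs) (t : ℕ) :
    stA A t (x ++ y) = stA A t x ++ stA A (t + nch x) y := by
  induction x generalizing t with
  | nil => simp [stA, nch]
  | cons p x ih =>
    cases p with
    | b i => simp only [List.cons_append, stA, nch, ih]
    | d i => simp only [List.cons_append, stA, nch, ih]
    | c i ns =>
      simp only [List.cons_append, stA, nch, ih, List.append_assoc]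
      rw [show t + 1 + nch x = t + (nch x + 1) by ring]

theorem Dt_append {f : ℕ → ℕ × List ℕ} {x y : List Bs} {t : ℕ} (h : Dt f t (x ++ y)) :
    Dt f t x ∧ Dt f (t + nch x) y := by
  induction x generalizing t with
  | nil => exact ⟨trivial, h⟩
  | cons p x ih =>
    cases p with
    | b i => exact ih h
    | d i => exact ih h
    | c i ns =>
      obtain ⟨h1, h2⟩ := h
      have h3 := ih h2
      refine ⟨⟨h1, h3.1⟩, ?_⟩
      have := h3.2
      rwa [show t + 1 + nch x = t + (nch x + 1) by ring] at this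

theorem stA_congr {A A' : Finset ℕ} {w : List Bs} {t : ℕ}
    (h : ∀ k, t ≤ k → k < t + nch w → (k ∈ A ↔ k ∈ A')) : stA A t w = stA A' t w := by
  induction w generalizing t with
  | nil => rfl
  | cons p w ih =>
    cases p with
    | b i => rw [stA, stA, ih h]
    | d i => rw [stA, stA, ih h]
    | c i ns =>
      have h1 := h t le_rfl (by rw [nch]; omega)
      have h2 : decide (t ∈ A) = decide (t ∈ A') := by
        by_cases h3 : t ∈ A
        · rw [decide_eq_true h3, decide_eq_true (h1.1 h3)]
        · rw [decide_eq_false h3, decide_eq_false (fun h4 => h3 (h1.2 h4))]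
      rw [stA, stA, h2, ih fun k hk hk' => h k (by omega) (by rw [nch]; omega)]

/-- the split at a chain -/
theorem split_at {w : List Bs} {t k : ℕ} (h1 : t ≤ k) (h2 : k < t + nch w) :
    ∃ x i ns y, w = x ++ Bs.c i ns :: y ∧ t + nch x = k := by
  induction w generalizing t with
  | nil =>
    rw [nch] at h2
    omega
  | cons p w ih =>
    cases p with
    | b i =>
      obtain ⟨x, j, ns, y, rfl, h4⟩ := ih h1 h2
      exact ⟨.b i :: x, j, ns, y, rfl, h4⟩
    | d i =>
      obtain ⟨x, j, ns, y, rfl, h4⟩ := ih h1 h2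
      exact ⟨.d i :: x, j, ns, y, rfl, h4⟩
    | c i ns =>
      rcases Nat.eq_or_lt_of_le h1 with rfl | h3
      · exact ⟨[], i, ns, w, rfl, rfl⟩
      · rw [nch] at h2
        obtain ⟨x, j, ms, y, rfl, h4⟩ := ih (t := t + 1) (by omega) (by omega)
        refine ⟨.c i ns :: x, j, ms, y, rfl, ?_⟩
        rw [nch]
        omega

theorem stA_wd {w : List Bs} {n : ℕ} (h : Wd n w) (A : Finset ℕ) (t : ℕ) :
    cwd (stA A t w) n = some 0 := by
  induction w generalizing n t with
  | nil =>
    obtain rfl : n = 0 := h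
    rfl
  | cons p w ih =>
    cases p with
    | b i => exact cwd_b.2 ⟨h.1, ih h.2 t⟩
    | d i => exact cwd_d.2 ⟨h.1, ih h.2 t⟩
    | c i ns => exact cwd_append_of (rs_wd h.1) (ih h.2 (t + 1))

theorem stA_pre {x y : List Bs} {n : ℕ} (h : Wd n (x ++ y)) :
    ∃ m, Wd m y ∧ ∀ (A : Finset ℕ) (t : ℕ), cwd (stA A t x) n = some m := by
  induction x generalizing n with
  | nil => exact ⟨n, h, fun A t => rfl⟩
  | cons p x ih =>
    cases p with
    | b i =>
      obtain ⟨m, h1, h2⟩ := ih h.2
      exact ⟨m, h1, fun A t => cwd_b.2 ⟨h.1, h2 A t⟩⟩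
    | d i =>
      obtain ⟨m, h1, h2⟩ := ih h.2
      exact ⟨m, h1, fun A t => cwd_d.2 ⟨h.1, h2 A t⟩⟩
    | c i ns =>
      obtain ⟨m, h1, h2⟩ := ih h.2
      exact ⟨m, h1, fun A t => cwd_append_of (rs_wd h.1) (h2 A (t + 1))⟩

/-! ### the state sum -/

section
variable {R : Type} [CommRing R] [Par R]

/-- the coefficient of the reconnection -/
def kf (R : Type) [CommRing R] [Par R] (f : ℕ → ℕ × List ℕ) (k : ℕ) : R :=
  (cf2 R (!par (f k).1) (f k).2).2

/-- the coefficient of the identity -/
def lf (R : Type) [CommRing R] [Par R] (f : ℕ → ℕ × List ℕ) (k : ℕ) : R :=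
  (cf2 R (!par (f k).1) (f k).2).1

theorem expand_sum {w : List Bs} {x : List Pc} {m t : ℕ} {f : ℕ → ℕ × List ℕ}
    (hx : cwd x 0 = some (2 * m)) (hw : Wd (2 * m) w) (ha : Allc w) (hf : Dt f t w) :
    opW R m (expand w) (opW R 0 (tw x) (v0 R)) =
      (∑ A ∈ (Ico t (t + nch w)).powerset, pw (kf R f) (lf R f) (Ico t (t + nch w)) A *
        (dl : R) ^ cc (x ++ stA A t w)) • v0 R := by
  induction w generalizing x m t with
  | nil =>
    have h0 : 2 * m = 0 := hw
    obtain rfl : m = 0 := by omega
    have := (good_cc (R := R) hx).2.1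
    simp only [nch, stA, add_zero, Ico_self, powerset_empty, sum_singleton, pw, prod_empty,
      one_mul, List.append_nil, expand]
    exact this
  | cons p w ih =>
    have hlv : ∀ {x : List Pc} {m : ℕ}, cwd x 0 = some (2 * m) → lv 0 (tw x) = m := by
      intro x m hx
      obtain ⟨m', h3, -, h5⟩ := cwd_below (m := 0) hx
      omega
    cases p with
    | b i =>
      have e := ih (x := x ++ [.b i]) (m := m + 1) (cwd_append_of hx (cwd_b.2 ⟨hw.1, rfl⟩)) hw.2 ha
        hf
      rw [tw_append, opW_append, hlv hx] at e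
      simp only [List.append_assoc, List.singleton_append] at e
      exact e
    | d i =>
      obtain ⟨m, rfl⟩ : ∃ m', m = m' + 1 := ⟨m - 1, by have := hw.1; omega⟩
      have e := ih (x := x ++ [.d i]) (m := m) (cwd_append_of hx (cwd_d.2 ⟨hw.1, rfl⟩)) hw.2 ha
        hf
      rw [tw_append, opW_append, hlv hx] at e
      simp only [List.append_assoc, List.singleton_append] at e
      exact e
    | c i ns =>
      obtain ⟨m, rfl⟩ : ∃ m', m = m' + 1 := ⟨m - 1, by have := hw.1; omega⟩
      have hi : i + 2 ≤ 2 * (m + 1) := hw.1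
      have hne : ns ≠ [] := by
        rintro rfl
        exact absurd ha.1.2.1 (by simp)
      have hev := ha.1.2.2
      have e1 := ih (x := x) (m := m + 1) (t := t + 1) hx hw.2 ha.2 hf.2
      have e2 := ih (x := x ++ KK i) (m := m + 1) (t := t + 1)
        (cwd_append_of hx (rs_wd (b := true) hi)) hw.2 ha.2 hf.2
      rw [tw_append, opW_append, hlv hx] at e2
      obtain ⟨m', h4, h5, h6⟩ := cwd_below (m := 0) hx
      obtain rfl : m + 1 = m' := by omega
      rw [alt_zero] at h5
      have hv := (opW_mem (R := R) (m := 0) h5 v0_mem).2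
      rw [h6] at hv
      have key := ch_op (R := R) (s := !par i) (b := par i) hne hi (alt_lt (by omega))
        (by rw [alt_lt (by omega), par_succ, dr2, if_pos hev]) hv
      rw [if_pos hev, Nat.add_sub_cancel] at key
      rw [expand, opW_append, ch_lv, key, map_add, map_smul, map_smul, e1]
      have e3 : opW R (m + 1) (expand w) (B i (par i) (D m i (opW R 0 (tw x) (v0 R)))) =
          (∑ A ∈ (Ico (t + 1) (t + 1 + nch w)).powerset,
            pw (kf R f) (lf R f) (Ico (t + 1) (t + 1 + nch w)) A *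
            (dl : R) ^ cc (x ++ KK i ++ stA A (t + 1) w)) • v0 R := e2
      have hI : Ico t (t + nch (Bs.c i ns :: w)) = insert t (Ico (t + 1) (t + 1 + nch w)) := by
        ext k
        rw [nch, mem_insert, mem_Ico, mem_Ico]
        omega
      have ht : t ∉ Ico (t + 1) (t + 1 + nch w) := by
        rw [mem_Ico]
        omega
      rw [e3, smul_smul, smul_smul, ← add_smul, hI, sum_powerset_insert ht, mul_sum, mul_sum]
      congr 2
      · refine sum_congr rfl fun A hA => ?_
        have htA : t ∉ A := fun h => ht (mem_powerset.1 hA h)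
        rw [pw_notMem ht htA, stA, decide_eq_false htA]
        have : lf R f t = (cf2 R (!par i) ns).1 := by rw [lf, hf.1]
        rw [this, mul_assoc]
        rfl
      · refine sum_congr rfl fun A hA => ?_
        have e4 : stA (insert t A) (t + 1) w = stA A (t + 1) w := by
          refine stA_congr fun k hk _ => ?_
          rw [mem_insert]
          constructor
          · rintro (h | h)
            · omega
            · exact h
          · exact Or.inr
        rw [pw_mem ht, stA, decide_eq_true (mem_insert_self t A), e4]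
        have : kf R f t = (cf2 R (!par i) ns).2 := by rw [kf, hf.1]
        rw [this, mul_assoc, rs, if_pos rfl, List.append_assoc]

theorem ev_sum {w : List Bs} {f : ℕ → ℕ × List ℕ} (hw : Wd 0 w) (ha : Allc w) (hf : Dt f 0 w) :
    ev R (expand w) = ∑ A ∈ (range (nch w)).powerset, pw (kf R f) (lf R f) (range (nch w)) A *
        (dl : R) ^ cc (stA A 0 w) := by
  have e := expand_sum (R := R) (m := 0) (x := []) (t := 0) rfl hw ha hf
  have e2 : ev R (expand w) = ((∑ A ∈ (Ico 0 (0 + nch w)).powerset,
      pw (kf R f) (lf R f) (Ico 0 (0 + nch w)) A *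
        (dl : R) ^ cc ([] ++ stA A 0 w)) • v0 R) [] := by
    rw [← e]
    rfl
  rw [e2, Finsupp.smul_apply, v0, Finsupp.single_eq_same, smul_eq_mul, mul_one, zero_add,
    ← range_eq_Ico]
  rfl

end

/-! ### colourings -/

/-- Base circles are coloured such that the chains with the numbers in `A` and the chains at the
places `i` with `i % 2 ≠ q` join equal colours. -/
def RB (q : ℕ) (A : Finset ℕ) : ℕ → List Bs → (ℕ → Bool) → (ℕ → Bool) → Prop
  | _, [], s, s' => s' = s
  | t, .b i :: w, s, s' => ∃ x, RB q A t w (ins i x s) s'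
  | t, .d i :: w, s, s' => s i = s (i + 1) ∧ RB q A t w (del i s) s'
  | t, .c i _ :: w, s, s' => ((t ∈ A ∨ i % 2 ≠ q) → s i = s (i + 1)) ∧ RB q A (t + 1) w s s'

theorem RB_mono {q : ℕ} {A B : Finset ℕ} (h : A ⊆ B) {w : List Bs} {t : ℕ} {s s' : ℕ → Bool}
    (hs : RB q B t w s s') : RB q A t w s s' := by
  induction w generalizing t s with
  | nil => exact hs
  | cons p w ih =>
    cases p with
    | b i =>
      obtain ⟨x, hx⟩ := hs
      exact ⟨x, ih hx⟩
    | d i => exact ⟨hs.1, ih hs.2⟩
    | c i ns => exact ⟨fun h1 => hs.1 (h1.imp (fun h2 => h h2) id), ih hs.2⟩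

theorem RB_Rch {q : ℕ} {A A' : Finset ℕ} {f : ℕ → ℕ × List ℕ} {w : List Bs} {t : ℕ}
    (hf : Dt f t w) (hA : ∀ k ∈ A', k ∈ A ∨ (f k).1 % 2 ≠ q) {s s' : ℕ → Bool}
    (hs : RB q A t w s s') : Rch (stA A' t w) s s' := by
  induction w generalizing t s with
  | nil => exact hs
  | cons p w ih =>
    cases p with
    | b i =>
      obtain ⟨x, hx⟩ := hs
      exact ⟨x, ih hf hx⟩
    | d i => exact ⟨hs.1, ih hf hs.2⟩
    | c i ns =>
      have h2 := ih hf.2 hs.2
      rw [stA]
      by_cases ht : t ∈ A'
      · have h3 : s i = s (i + 1) := hs.1 (by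
          have := hA t ht
          rw [hf.1] at this
          exact this)
        rw [decide_eq_true ht]
        refine ⟨h3, s i, ?_⟩
        rw [ins_del h3]
        exact h2
      · rw [decide_eq_false ht]
        exact h2

theorem Rch_RB {q : ℕ} (hq : q < 2) {A : Finset ℕ} {f : ℕ → ℕ × List ℕ} {w : List Bs} {t : ℕ}
    (hf : Dt f t w) (hA : ∀ k ∈ A, (f k).1 % 2 = q) {s s' : ℕ → Bool}
    (hs : Rch (stA A t w) s s') : RB q A t w (tr q s) (tr q s') := by
  induction w generalizing t s with
  | nil =>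
    rw [stA, Rch] at hs
    rw [RB, hs]
  | cons p w ih =>
    cases p with
    | b i =>
      obtain ⟨x, hx⟩ := hs
      have := ih hf hx
      rw [tr_ins hq] at this
      exact ⟨_, this⟩
    | d i =>
      obtain ⟨h1, h2⟩ := hs
      have := ih hf h2
      rw [tr_del h1] at this
      exact ⟨tr_eq hq fun _ => h1, this⟩
    | c i ns =>
      rw [stA] at hs
      by_cases ht : t ∈ A
      · rw [decide_eq_true ht] at hs
        obtain ⟨h3, x, hx⟩ := hs
        have h4 := ih hf.2 hx
        have hi : i % 2 = q := by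
          have := hA t ht
          rw [hf.1] at this
          exact this
        have e : tr q (ins i x (del i s)) = tr q s := by
          have e1 : tr q s i = tr q s (i + 1) := tr_eq hq fun _ => h3
          rw [tr_ins hq, tr_del h3, Run7.h849.nc, if_pos hi, F_del_le (le_refl i)]
          have e2 : F s i = tr q s i := by
            simp only [tr]
            rw [if_pos hi]
          rw [e2, ins_del e1]
        rw [e] at h4
        exact ⟨fun _ => tr_eq hq fun _ => h3, h4⟩
      · rw [decide_eq_false ht] at hs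
        refine ⟨fun h => ?_, ih hf.2 hs⟩
        rcases h with h | h
        · exact absurd h ht
        · exact tr_eq hq fun h' => absurd h' h

/-- colourings with equal colours at all light chains -/
theorem RB_Rc {q : ℕ} {A : Finset ℕ} {f : ℕ → ℕ × List ℕ} {w : List Bs} {t : ℕ}
    (hf : Dt f t w) (hA : ∀ k, t ≤ k → k < t + nch w → light (f k).2 = true → (f k).1 % 2 = q →
      k ∈ A) {s s' : ℕ → Bool} (hs : RB q A t w s s') : Rc w s s' := by
  induction w generalizing t s with
  | nil => exact hs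
  | cons p w ih =>
    cases p with
    | b i =>
      obtain ⟨x, hx⟩ := hs
      exact ⟨x, ih hf hA hx⟩
    | d i => exact ⟨hs.1, ih hf hA hs.2⟩
    | c i ns =>
      refine ⟨fun hl => hs.1 ?_, ih hf.2 (fun k h1 h2 => hA k (by omega) (by rw [nch]; omega))
        hs.2⟩
      by_cases hi : i % 2 = q
      · left
        refine hA t le_rfl (by rw [nch]; omega) ?_ ?_
        · rw [hf.1]
          exact hl
        · rw [hf.1]
          exact hi
      · exact Or.inr hi

/-! ### the number of the curves of a state -/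

section cu
variable {w : List Bs} {f : ℕ → ℕ × List ℕ} (hw : Wd 0 w) (hf : Dt f 0 w)

/-- the function of the states -/
def nuA (w : List Bs) (A : Finset ℕ) : ℕ := A.card + cc (stA A 0 w)

include hw hf

/-- the split of a state at a chain -/
theorem split_state {k : ℕ} (hk : k < nch w) : ∃ x i ns y, w = x ++ Bs.c i ns :: y ∧ nch x = k ∧
    f k = (i, ns) ∧ Dt f 0 x ∧ Dt f (k + 1) y ∧
    (∀ A : Finset ℕ, k ∉ A → stA A 0 w = stA A 0 x ++ stA A (k + 1) y ∧
      stA (insert k A) 0 w = stA A 0 x ++ KK i ++ stA A (k + 1) y ∧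
      cwd (stA A 0 x ++ stA A (k + 1) y) 0 = some 0 ∧
      cwd (stA A 0 x ++ KK i ++ stA A (k + 1) y) 0 = some 0) := by
  obtain ⟨x, i, ns, y, rfl, h1⟩ := split_at (w := w) (t := 0) (Nat.zero_le k) (by omega)
  rw [zero_add] at h1
  subst h1
  obtain ⟨h2, h3, h4⟩ := Dt_append hf
  rw [zero_add] at h3 h4
  refine ⟨x, i, ns, y, rfl, rfl, h3, h2, h4, fun A hA => ?_⟩
  obtain ⟨m, h5, h6⟩ := stA_pre hw
  have e1 : stA A 0 (x ++ Bs.c i ns :: y) = stA A 0 x ++ stA A (nch x + 1) y := by
    rw [stA_append, zero_add, stA, decide_eq_false hA]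
    rfl
  have e2 : stA (insert (nch x) A) 0 (x ++ Bs.c i ns :: y) =
      stA A 0 x ++ KK i ++ stA A (nch x + 1) y := by
    rw [stA_append, zero_add, stA, decide_eq_true (mem_insert_self _ _), rs, if_pos rfl,
      List.append_assoc]
    congr 1
    · refine stA_congr fun k _ hk => ?_
      rw [mem_insert]
      constructor
      · rintro (h | h)
        · omega
        · exact h
      · exact Or.inr
    · congr 1
      refine stA_congr fun k hk _ => ?_
      rw [mem_insert]
      constructor
      · rintro (h | h)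
        · omega
        · exact h
      · exact Or.inr
  refine ⟨e1, e2, ?_, ?_⟩
  · exact cwd_append_of (h6 A 0) (stA_wd h5.2 A _)
  · exact cwd_append_of (cwd_append_of (h6 A 0) (rs_wd (b := true) h5.1)) (stA_wd h5.2 A _)

theorem nuA_pm {A : Finset ℕ} {k : ℕ} (hk : k < nch w) (hA : k ∉ A) :
    nuA w (insert k A) = nuA w A ∨ nuA w (insert k A) = nuA w A + 2 := by
  obtain ⟨x, i, ns, y, -, -, -, -, -, h⟩ := split_state hw hf hk
  obtain ⟨h1, h2, h3, h4⟩ := h A hA
  have := flip_pm h3 h4
  rw [nuA, nuA, h1, h2, card_insert_of_notMem hA]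
  omega

/-- the set `A` does not connect the ends of the chain `k` -/
def Uns (q : ℕ) (w : List Bs) (f : ℕ → ℕ × List ℕ) (A : Finset ℕ) (k : ℕ) : Prop :=
  ∃ x i ns y, w = x ++ Bs.c i ns :: y ∧ nch x = k ∧ f k = (i, ns) ∧
    ∃ u s', RB q A 0 x z0 u ∧ RB q A (k + 1) y u s' ∧ u i ≠ u (i + 1)

theorem Uns_mono {q : ℕ} {A B : Finset ℕ} (h : A ⊆ B) {k : ℕ} (hB : Uns q w f B k) :
    Uns q w f A k := by
  obtain ⟨x, i, ns, y, h1, h2, h3, u, s', h4, h5, h6⟩ := hB
  exact ⟨x, i, ns, y, h1, h2, h3, u, s', RB_mono h h4, RB_mono h h5, h6⟩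

theorem Uns_lt {q : ℕ} {A A' : Finset ℕ} {k : ℕ} (hk : k < nch w) (hA' : k ∉ A')
    (h : ∀ j ∈ A', j ∈ A ∨ (f j).1 % 2 ≠ q) (hu : Uns q w f A k) :
    nuA w (insert k A') = nuA w A' := by
  obtain ⟨x, i, ns, y, h1, h2, h3, u, s', h4, h5, h6⟩ := hu
  subst h1
  subst h2
  obtain ⟨h7, h8, h9⟩ := Dt_append hf
  rw [zero_add] at h9
  obtain ⟨m, h10, h11⟩ := stA_pre hw
  have r1 : Rch (stA A' 0 x) z0 u := RB_Rch h7 h h4
  have r2 : Rch (stA A' (nch x + 1) y) u s' := RB_Rch h9 h h5
  obtain ⟨x', i', ns', y', e1, e2, e3, -, -, hs⟩ := split_state hw hf hk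
  have hpos : f (nch x) = (i, ns) := h3
  obtain ⟨g1, g2, g3, g4⟩ := hs A' hA'
  -- the same split
  have e1A : stA A' 0 (x ++ Bs.c i ns :: y) = stA A' 0 x ++ stA A' (nch x + 1) y := by
    rw [stA_append, zero_add, stA, decide_eq_false hA']
    rfl
  have e2A : stA (insert (nch x) A') 0 (x ++ Bs.c i ns :: y) =
      stA A' 0 x ++ KK i ++ stA A' (nch x + 1) y := by
    rw [stA_append, zero_add, stA, decide_eq_true (mem_insert_self _ _), rs, if_pos rfl,
      List.append_assoc]
    congr 1
    · refine stA_congr fun k _ hk => ?_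
      rw [mem_insert]
      constructor
      · rintro (h | h)
        · omega
        · exact h
      · exact Or.inr
    · congr 1
      refine stA_congr fun k hk _ => ?_
      rw [mem_insert]
      constructor
      · rintro (h | h)
        · omega
        · exact h
      · exact Or.inr
  rw [← g1, e1A] at g3
  rw [← g2, e2A] at g4
  have := (flip_cc g3 g4).1 ⟨u, s', r1, r2, h6⟩
  rw [nuA, nuA, e1A, e2A, card_insert_of_notMem hA']
  omega

theorem Uns_of {q : ℕ} (hq : q < 2) {A : Finset ℕ} {k : ℕ} (hk : k < nch w) (hA : k ∉ A)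
    (h : ∀ j ∈ A, (f j).1 % 2 = q) (hkq : (f k).1 % 2 = q)
    (hu : nuA w (insert k A) = nuA w A) : Uns q w f A k := by
  obtain ⟨x, i, ns, y, e1, e2, e3, e4, e5, hs⟩ := split_state hw hf hk
  obtain ⟨g1, g2, g3, g4⟩ := hs A hA
  have h1 : ¬ (∀ u s, Rch (stA A 0 x) z0 u → Rch (stA A (k + 1) y) u s → u i = u (i + 1)) := by
    intro hc
    have := (flip_cc g3 g4).2 hc
    rw [nuA, nuA, g1, g2, card_insert_of_notMem hA] at hu
    omega
  simp only [not_forall] at h1
  obtain ⟨u, s, h2, h3, h4⟩ := h1
  have r1 := Rch_RB hq e4 h h2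
  have r2 := Rch_RB hq e5 h h3
  rw [tr_z0] at r1
  rw [e3] at hkq
  exact ⟨x, i, ns, y, e1, e2, e3, _, _, r1, r2, fun h5 => h4 ((tr_iff hq hkq).1 h5)⟩

/-- the chains at the places `i` with `i % 2 = q` -/
def Qs (w : List Bs) (f : ℕ → ℕ × List ℕ) (q : ℕ) : Finset ℕ :=
  (range (nch w)).filter (fun k => (f k).1 % 2 = q)

theorem spm_nuA {q : ℕ} (hq : q < 2) : Spm (nuA w) (range (nch w)) (Qs w f q) := by
  have hQ : ∀ k, k ∈ Qs w f q ↔ k < nch w ∧ (f k).1 % 2 = q := by
    intro k
    rw [Qs, mem_filter, mem_range]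
  refine ⟨filter_subset _ _, ?_, ?_, ?_⟩
  · intro A _ e he heA
    exact nuA_pm hw hf (mem_range.1 he) heA
  · intro A B hAB hB e he heB h
    obtain ⟨he1, he2⟩ := (hQ e).1 he
    by_contra hc
    have h1 : nuA w (insert e B) = nuA w B := by
      have := nuA_pm hw hf he1 heB
      omega
    have h2 := Uns_of hw hf hq he1 heB (fun j hj => ((hQ j).1 (hB hj)).2) he2 h1
    have h3 := Uns_lt hw hf he1 (A := A) (fun h => heB (hAB h)) (fun j hj => Or.inl hj)
      (Uns_mono hw hf hAB h2)
    omega
  · intro A hA e he heA h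
    obtain ⟨he1, he2⟩ := (hQ e).1 he
    have h2 := Uns_of hw hf hq he1 (A := A ∩ Qs w f q) (fun h => heA (mem_inter.1 h).1)
      (fun j hj => ((hQ j).1 (mem_inter.1 hj).2).2) he2 h
    refine Uns_lt hw hf he1 heA (fun j hj => ?_) h2
    by_cases hj2 : (f j).1 % 2 = q
    · exact Or.inl (mem_inter.2 ⟨hj, (hQ j).2 ⟨mem_range.1 (hA hj), hj2⟩⟩)
    · exact Or.inr hj2

/-- a light chain which is no bridge -/
theorem nb_light (hb : NBr w) {q : ℕ} (hq : q < 2) {L : Finset ℕ} (hL : ∀ k, k ∈ L ↔ k < nch w ∧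
    (f k).1 % 2 = q ∧ light (f k).2 = true) {e : ℕ} (he : e ∈ L)
    (h : 2 * hv (f e).2 < (f e).2.length) : nuA w L = nuA w (L.erase e) + 2 := by
  obtain ⟨he1, he2, he3⟩ := (hL e).1 he
  have h1 := nuA_pm hw hf he1 (notMem_erase e L)
  rw [insert_erase he] at h1
  rcases h1 with h1 | h1
  · exfalso
    obtain ⟨x, i, ns, y, e1, e2, e3, u, s', h4, h5, h6⟩ := Uns_of hw hf hq he1
      (A := L.erase e) (notMem_erase e L)
      (fun j hj => ((hL j).1 (mem_erase.1 hj).2).2.1) he2 (by rw [insert_erase he]; exact h1)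
    subst e1
    obtain ⟨h7, h8, h9⟩ := Dt_append hf
    rw [zero_add, e2] at h9
    rw [e3] at h
    refine h6 (hb x i ns y rfl h u s' ?_ ?_)
    · refine RB_Rc h7 (fun k hk1 hk2 hk3 hk4 => ?_) h4
      rw [mem_erase, hL, nch_append]
      exact ⟨by omega, by omega, hk4, hk3⟩
    · refine RB_Rc h9 (fun k hk1 hk2 hk3 hk4 => ?_) h5
      rw [mem_erase, hL, nch_append, nch]
      exact ⟨by omega, by omega, hk4, hk3⟩
  · exact h1

end cu

end

end Run7.h849
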